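import Pool.Agent.Helper92.Cut.Defs

/-! Renaming, relativised satisfaction, blocks of quantifiers. -/

namespace Pool.Agent.Helper92.Cut

/-! ### assignments -/

/-- Drop the value of variable `0`. -/
def tail {D : Type} (e : ℕ → D) : ℕ → D := fun i => e (i + 1)

@[simp] theorem tail_cons {D : Type} (x : D) (e : ℕ → D) : tail (cons x e) = e := rfl
@[simp] theorem cons_zero {D : Type} (x : D) (e : ℕ → D) : cons x e 0 = x := rfl
@[simp] theorem cons_succ {D : Type} (x : D) (e : ℕ → D) (i : ℕ) : cons x e (i + 1) = e i := rfl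

@[simp] theorem cons_one {D : Type} (x : D) (e : ℕ → D) : cons x e 1 = e 0 := rfl
@[simp] theorem cons_two {D : Type} (x : D) (e : ℕ → D) : cons x e 2 = e 1 := rfl
@[simp] theorem cons_three {D : Type} (x : D) (e : ℕ → D) : cons x e 3 = e 2 := rfl
@[simp] theorem cons_four {D : Type} (x : D) (e : ℕ → D) : cons x e 4 = e 3 := rfl
@[simp] theorem cons_five {D : Type} (x : D) (e : ℕ → D) : cons x e 5 = e 4 := rfl
@[simp] theorem cons_six {D : Type} (x : D) (e : ℕ → D) : cons x e 6 = e 5 := rfl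
@[simp] theorem cons_seven {D : Type} (x : D) (e : ℕ → D) : cons x e 7 = e 6 := rfl

theorem comp_cons {D E : Type} (f : D → E) (x : D) (e : ℕ → D) :
    (fun i => f (cons x e i)) = cons (f x) (fun i => f (e i)) := by
  funext i; cases i <;> rfl

/-- Push a list of values on an assignment, the last element of the list becoming variable `0`. -/
def push {D : Type} : List D → (ℕ → D) → (ℕ → D)
  | [], e => e
  | x :: u, e => push u (cons x e)

@[simp] theorem push_nil {D : Type} (e : ℕ → D) : push [] e = e := rfl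
@[simp] theorem push_cons {D : Type} (x : D) (u : List D) (e : ℕ → D) :
    push (x :: u) e = push u (cons x e) := rfl

theorem push_append {D : Type} (u v : List D) (e : ℕ → D) :
    push (u ++ v) e = push v (push u e) := by
  induction u generalizing e with
  | nil => rfl
  | cons x u ih => simp [ih]

theorem push_ge {D : Type} (u : List D) (e : ℕ → D) (i : ℕ) :
    push u e (i + u.length) = e i := by
  induction u generalizing e i with
  | nil => rfl
  | cons x u ih =>
    have := ih (cons x e) (i + 1)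
    simp only [push_cons, List.length_cons]
    rw [show i + (u.length + 1) = (i + 1) + u.length by omega, this]
    rfl

theorem push_lt {D : Type} (u : List D) (e e' : ℕ → D) (i : ℕ) (h : i < u.length) :
    push u e i = push u e' i := by
  induction u generalizing e e' with
  | nil => simp at h
  | cons x u ih =>
    simp only [push_cons, List.length_cons] at *
    rcases Nat.lt_or_ge i u.length with h' | h'
    · exact ih _ _ h'
    · have hi : i = 0 + u.length := by omega
      rw [hi, push_ge, push_ge]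
      rfl

theorem push_mem {D : Type} (S : Set D) (u : List D) (e : ℕ → D) (hu : ∀ x ∈ u, x ∈ S)
    (he : ∀ i, e i ∈ S) (i : ℕ) : push u e i ∈ S := by
  induction u generalizing e with
  | nil => exact he i
  | cons x u ih =>
    refine ih (cons x e) (fun y hy => hu y (List.mem_cons_of_mem _ hy)) ?_
    intro j
    cases j with
    | zero => exact hu x (by simp)
    | succ j => exact he j

theorem cons_mem {D : Type} (S : Set D) (x : D) (e : ℕ → D) (hx : x ∈ S)
    (he : ∀ i, e i ∈ S) (i : ℕ) : cons x e i ∈ S := by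
  cases i with
  | zero => exact hx
  | succ j => exact he j

/-- Renaming that skips `m` variables from position `k` on. -/
def skip (k m i : ℕ) : ℕ := if i < k then i else i + m

theorem push_skip {D : Type} (u v : List D) (e : ℕ → D) :
    (fun i => push u (push v e) (skip u.length v.length i)) = push u e := by
  funext i
  unfold skip
  split_ifs with h
  · exact push_lt _ _ _ _ h
  · obtain ⟨j, rfl⟩ : ∃ j, i = j + u.length := ⟨i - u.length, by omega⟩
    rw [show j + u.length + v.length = (j + v.length) + u.length by omega, push_ge, push_ge,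
      push_ge]

/-! ### renaming -/

/-- Rename the variables of a term. -/
def Tm.ren (ρ : ℕ → ℕ) : Tm → Tm
  | var i => var (ρ i)
  | zero => zero
  | one => one
  | add s t => add (s.ren ρ) (t.ren ρ)
  | mul s t => mul (s.ren ρ) (t.ren ρ)
  | pow s t => pow (s.ren ρ) (t.ren ρ)

/-- Lift a renaming under a binder. -/
def liftR (ρ : ℕ → ℕ) : ℕ → ℕ
  | 0 => 0
  | i + 1 => ρ i + 1

/-- Rename the variables of a formula. -/
def Fm.ren : (ℕ → ℕ) → Fm → Fm
  | ρ, eq s t => eq (s.ren ρ) (t.ren ρ)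
  | ρ, lt s t => lt (s.ren ρ) (t.ren ρ)
  | ρ, neg φ => neg (φ.ren ρ)
  | ρ, and φ ψ => and (φ.ren ρ) (ψ.ren ρ)
  | ρ, ball t φ => ball (t.ren ρ) (φ.ren (liftR ρ))
  | ρ, all φ => all (φ.ren (liftR ρ))
  | ρ, ex φ => ex (φ.ren (liftR ρ))

/-- Relativised satisfaction: all quantifiers range over `S`. -/
def Fm.SatIn (A : Arith) (S : Set A.D) : (ℕ → A.D) → Fm → Prop
  | e, eq s t => s.val A e = t.val A e
  | e, lt s t => A.lt (s.val A e) (t.val A e)
  | e, neg φ => ¬ φ.SatIn A S e
  | e, and φ ψ => φ.SatIn A S e ∧ ψ.SatIn A S e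
  | e, ball t φ => ∀ x ∈ S, A.lt x (t.val A e) → φ.SatIn A S (cons x e)
  | e, all φ => ∀ x ∈ S, φ.SatIn A S (cons x e)
  | e, ex φ => ∃ x ∈ S, φ.SatIn A S (cons x e)

theorem Tm.val_ren (A : Arith) (ρ : ℕ → ℕ) (t : Tm) (e : ℕ → A.D) :
    (t.ren ρ).val A e = t.val A (fun i => e (ρ i)) := by
  induction t with
  | var i => rfl
  | zero => rfl
  | one => rfl
  | add s t ihs iht => simp [Tm.ren, Tm.val, ihs, iht]
  | mul s t ihs iht => simp [Tm.ren, Tm.val, ihs, iht]
  | pow s t ihs iht => simp [Tm.ren, Tm.val, ihs, iht]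

theorem cons_liftR {D : Type} (ρ : ℕ → ℕ) (x : D) (e : ℕ → D) :
    (fun i => cons x e (liftR ρ i)) = cons x (fun i => e (ρ i)) := by
  funext i; cases i <;> rfl

theorem Fm.satIn_ren (A : Arith) (S : Set A.D) (ρ : ℕ → ℕ) (φ : Fm) (e : ℕ → A.D) :
    (φ.ren ρ).SatIn A S e ↔ φ.SatIn A S (fun i => e (ρ i)) := by
  induction φ generalizing ρ e with
  | eq s t => simp [Fm.ren, Fm.SatIn, Tm.val_ren]
  | lt s t => simp [Fm.ren, Fm.SatIn, Tm.val_ren]
  | neg φ ih => simp [Fm.ren, Fm.SatIn, ih]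
  | and φ ψ ih1 ih2 => simp [Fm.ren, Fm.SatIn, ih1, ih2]
  | ball t φ ih => simp [Fm.ren, Fm.SatIn, ih, Tm.val_ren, cons_liftR]
  | all φ ih => simp [Fm.ren, Fm.SatIn, ih, cons_liftR]
  | ex φ ih => simp [Fm.ren, Fm.SatIn, ih, cons_liftR]

theorem Fm.isDelta0_ren (ρ : ℕ → ℕ) (φ : Fm) (h : φ.IsDelta0) : (φ.ren ρ).IsDelta0 := by
  induction φ generalizing ρ with
  | eq s t => trivial
  | lt s t => trivial
  | neg φ ih => exact ih _ h
  | and φ ψ ih1 ih2 => exact ⟨ih1 _ h.1, ih2 _ h.2⟩
  | ball t φ ih => exact ih _ h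
  | all φ ih => exact h.elim
  | ex φ ih => exact h.elim

theorem Fm.satIn_univ (A : Arith) (φ : Fm) (e : ℕ → A.D) :
    φ.SatIn A Set.univ e ↔ φ.Sat A e := by
  induction φ generalizing e with
  | eq s t => rfl
  | lt s t => rfl
  | neg φ ih => simp [Fm.SatIn, Fm.Sat, ih]
  | and φ ψ ih1 ih2 => simp [Fm.SatIn, Fm.Sat, ih1, ih2]
  | ball t φ ih => simp [Fm.SatIn, Fm.Sat, ih]
  | all φ ih => simp [Fm.SatIn, Fm.Sat, ih]
  | ex φ ih => simp [Fm.SatIn, Fm.Sat, ih]

theorem Fm.sat_ren (A : Arith) (ρ : ℕ → ℕ) (φ : Fm) (e : ℕ → A.D) :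
    (φ.ren ρ).Sat A e ↔ φ.Sat A (fun i => e (ρ i)) := by
  rw [← Fm.satIn_univ, ← Fm.satIn_univ, Fm.satIn_ren]

/-! ### free variables -/

/-- A strict bound for the free variables of a term. -/
def Tm.bd : Tm → ℕ
  | var i => i + 1
  | zero => 0
  | one => 0
  | add s t => max s.bd t.bd
  | mul s t => max s.bd t.bd
  | pow s t => max s.bd t.bd

/-- A strict bound for the free variables of a formula. -/
def Fm.bd : Fm → ℕ
  | eq s t => max s.bd t.bd
  | lt s t => max s.bd t.bd
  | neg φ => φ.bd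
  | and φ ψ => max φ.bd ψ.bd
  | ball t φ => max t.bd φ.bd
  | all φ => φ.bd
  | ex φ => φ.bd

theorem Tm.val_congr (A : Arith) (t : Tm) (e e' : ℕ → A.D) (h : ∀ i < t.bd, e i = e' i) :
    t.val A e = t.val A e' := by
  induction t with
  | var i => exact h i (by simp [Tm.bd])
  | zero => rfl
  | one => rfl
  | add s t ihs iht =>
    simp only [Tm.bd, lt_max_iff] at h
    simp only [Tm.val, ihs (fun i hi => h i (Or.inl hi)), iht (fun i hi => h i (Or.inr hi))]
  | mul s t ihs iht =>
    simp only [Tm.bd, lt_max_iff] at h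
    simp only [Tm.val, ihs (fun i hi => h i (Or.inl hi)), iht (fun i hi => h i (Or.inr hi))]
  | pow s t ihs iht =>
    simp only [Tm.bd, lt_max_iff] at h
    simp only [Tm.val, ihs (fun i hi => h i (Or.inl hi)), iht (fun i hi => h i (Or.inr hi))]

theorem cons_congr {D : Type} (n : ℕ) (x : D) (e e' : ℕ → D) (h : ∀ i < n, e i = e' i) :
    ∀ i < n, cons x e i = cons x e' i := by
  intro i hi
  cases i with
  | zero => rfl
  | succ j => exact h j (by omega)

theorem Fm.satIn_congr (A : Arith) (S : Set A.D) (φ : Fm) (e e' : ℕ → A.D)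
    (h : ∀ i < φ.bd, e i = e' i) : φ.SatIn A S e ↔ φ.SatIn A S e' := by
  induction φ generalizing e e' with
  | eq s t =>
    simp only [Fm.bd, lt_max_iff] at h
    simp only [Fm.SatIn, Tm.val_congr A s e e' (fun i hi => h i (Or.inl hi)),
      Tm.val_congr A t e e' (fun i hi => h i (Or.inr hi))]
  | lt s t =>
    simp only [Fm.bd, lt_max_iff] at h
    simp only [Fm.SatIn, Tm.val_congr A s e e' (fun i hi => h i (Or.inl hi)),
      Tm.val_congr A t e e' (fun i hi => h i (Or.inr hi))]
  | neg φ ih => simp only [Fm.SatIn, ih e e' h]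
  | and φ ψ ih1 ih2 =>
    simp only [Fm.bd, lt_max_iff] at h
    simp only [Fm.SatIn, ih1 e e' (fun i hi => h i (Or.inl hi)),
      ih2 e e' (fun i hi => h i (Or.inr hi))]
  | ball t φ ih =>
    simp only [Fm.bd, lt_max_iff] at h
    simp only [Fm.SatIn, Tm.val_congr A t e e' (fun i hi => h i (Or.inl hi))]
    refine forall_congr' fun x => forall_congr' fun _ => forall_congr' fun _ => ?_
    exact ih _ _ (cons_congr _ x e e' (fun i hi => h i (Or.inr hi)))
  | all φ ih =>
    simp only [Fm.SatIn]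
    refine forall_congr' fun x => forall_congr' fun _ => ?_
    exact ih _ _ (cons_congr _ x e e' h)
  | ex φ ih =>
    simp only [Fm.SatIn]
    refine exists_congr fun x => and_congr_right fun _ => ?_
    exact ih _ _ (cons_congr _ x e e' h)

theorem Fm.sat_congr (A : Arith) (φ : Fm) (e e' : ℕ → A.D)
    (h : ∀ i < φ.bd, e i = e' i) : φ.Sat A e ↔ φ.Sat A e' := by
  rw [← Fm.satIn_univ, ← Fm.satIn_univ, Fm.satIn_congr A _ φ e e' h]

/-! ### blocks of quantifiers -/

theorem satIn_exs (A : Arith) (S : Set A.D) (k : ℕ) (φ : Fm) (e : ℕ → A.D) :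
    (Fm.ex^[k] φ).SatIn A S e ↔
      ∃ u : List A.D, u.length = k ∧ (∀ x ∈ u, x ∈ S) ∧ φ.SatIn A S (push u e) := by
  induction k generalizing e with
  | zero => simp
  | succ k ih =>
    rw [Function.iterate_succ_apply']
    simp only [Fm.SatIn, ih]
    constructor
    · rintro ⟨x, hx, u, hu, huS, h⟩
      exact ⟨x :: u, by simp [hu], by simpa [hx] using huS, h⟩
    · rintro ⟨u, hu, huS, h⟩
      cases u with
      | nil => simp at hu
      | cons x u =>
        refine ⟨x, huS x (by simp), u, by simpa using hu, fun y hy => huS y (by simp [hy]), h⟩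

theorem satIn_alls (A : Arith) (S : Set A.D) (k : ℕ) (φ : Fm) (e : ℕ → A.D) :
    (Fm.all^[k] φ).SatIn A S e ↔
      ∀ u : List A.D, u.length = k → (∀ x ∈ u, x ∈ S) → φ.SatIn A S (push u e) := by
  induction k generalizing e with
  | zero => simp
  | succ k ih =>
    rw [Function.iterate_succ_apply']
    simp only [Fm.SatIn, ih]
    constructor
    · intro H u hu huS
      cases u with
      | nil => simp at hu
      | cons x u =>
        exact H x (huS x (by simp)) u (by simpa using hu) (fun y hy => huS y (by simp [hy]))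
    · intro H x hx u hu huS
      exact H (x :: u) (by simp [hu]) (by simpa [hx] using huS)

/-- Bounded existential quantifier. -/
def Fm.bex (t : Tm) (φ : Fm) : Fm := .neg (.ball t (.neg φ))

theorem satIn_bex (A : Arith) (S : Set A.D) (t : Tm) (φ : Fm) (e : ℕ → A.D) :
    (Fm.bex t φ).SatIn A S e ↔ ∃ x ∈ S, A.lt x (t.val A e) ∧ φ.SatIn A S (cons x e) := by
  simp [Fm.bex, Fm.SatIn]

/-- Block of bounded existential quantifiers, all with the same bound. -/
def Fm.bexs : ℕ → Tm → Fm → Fm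
  | 0, _, φ => φ
  | k + 1, t, φ => Fm.bex t (Fm.bexs k (t.ren (fun i => i + 1)) φ)

theorem satIn_bexs (A : Arith) (S : Set A.D) (k : ℕ) (t : Tm) (φ : Fm) (e : ℕ → A.D) :
    (Fm.bexs k t φ).SatIn A S e ↔
      ∃ u : List A.D, u.length = k ∧ (∀ x ∈ u, x ∈ S ∧ A.lt x (t.val A e)) ∧
        φ.SatIn A S (push u e) := by
  induction k generalizing t e with
  | zero => simp [Fm.bexs]
  | succ k ih =>
    simp only [Fm.bexs, satIn_bex, ih, Tm.val_ren]
    constructor
    · rintro ⟨x, hx, hxt, u, hu, huS, h⟩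
      refine ⟨x :: u, by simp [hu], ?_, h⟩
      intro y hy
      rcases List.mem_cons.1 hy with rfl | hy
      · exact ⟨hx, hxt⟩
      · exact huS y hy
    · rintro ⟨u, hu, huS, h⟩
      cases u with
      | nil => simp at hu
      | cons x u =>
        refine ⟨x, (huS x (by simp)).1, (huS x (by simp)).2, u, by simpa using hu,
          fun y hy => huS y (by simp [hy]), h⟩

theorem isDelta0_bex (t : Tm) (φ : Fm) (h : φ.IsDelta0) : (Fm.bex t φ).IsDelta0 := h

theorem isDelta0_bexs (k : ℕ) (t : Tm) (φ : Fm) (h : φ.IsDelta0) : (Fm.bexs k t φ).IsDelta0 := by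
  induction k generalizing t with
  | zero => exact h
  | succ k ih => exact isDelta0_bex _ _ (ih _)

/-- `blk k φ` at `m :: e` says that there is a block `u` of length `k` of elements below `m`
with `φ` at `push u e`. -/
def Fm.blk (k : ℕ) (φ : Fm) : Fm := Fm.bexs k (.var 0) (φ.ren (skip k 1))

theorem satIn_blk (A : Arith) (S : Set A.D) (k : ℕ) (φ : Fm) (m : A.D) (e : ℕ → A.D) :
    (Fm.blk k φ).SatIn A S (cons m e) ↔
      ∃ u : List A.D, u.length = k ∧ (∀ x ∈ u, x ∈ S ∧ A.lt x m) ∧ φ.SatIn A S (push u e) := by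
  unfold Fm.blk
  rw [satIn_bexs]
  refine exists_congr fun u => and_congr_right fun hu => and_congr_right fun _ => ?_
  rw [Fm.satIn_ren]
  have := push_skip u [m] e
  simp only [push_cons, push_nil, List.length_cons, List.length_nil, hu] at this
  rw [this]

theorem isDelta0_blk (k : ℕ) (φ : Fm) (h : φ.IsDelta0) : (Fm.blk k φ).IsDelta0 :=
  isDelta0_bexs _ _ _ (Fm.isDelta0_ren _ _ h)

/-! ### absoluteness of bounded formulas -/

/-- Closure of a set under the operations of the structure. -/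
structure Closed (A : Arith) (S : Set A.D) : Prop where
  zero : A.zero ∈ S
  one : A.one ∈ S
  add : ∀ x ∈ S, ∀ y ∈ S, A.add x y ∈ S
  mul : ∀ x ∈ S, ∀ y ∈ S, A.mul x y ∈ S
  pow : ∀ x ∈ S, ∀ y ∈ S, A.pow x y ∈ S

theorem Closed.val {A : Arith} {S : Set A.D} (h : Closed A S) (t : Tm) (e : ℕ → A.D)
    (he : ∀ i, e i ∈ S) : t.val A e ∈ S := by
  induction t with
  | var i => exact he i
  | zero => exact h.zero
  | one => exact h.one
  | add s t ihs iht => exact h.add _ ihs _ iht
  | mul s t ihs iht => exact h.mul _ ihs _ iht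
  | pow s t ihs iht => exact h.pow _ ihs _ iht

theorem satIn_delta0_abs {A : Arith} {S T : Set A.D} (hS : Closed A S) (hST : S ⊆ T)
    (hinit : ∀ x ∈ T, ∀ y ∈ S, A.lt x y → x ∈ S) (φ : Fm) (hφ : φ.IsDelta0) (e : ℕ → A.D)
    (he : ∀ i, e i ∈ S) : φ.SatIn A S e ↔ φ.SatIn A T e := by
  induction φ generalizing e with
  | eq s t => rfl
  | lt s t => rfl
  | neg φ ih => simp only [Fm.SatIn, ih hφ e he]
  | and φ ψ ih1 ih2 => simp only [Fm.SatIn, ih1 hφ.1 e he, ih2 hφ.2 e he]
  | ball t φ ih =>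
    simp only [Fm.SatIn]
    constructor
    · intro H x hx hxt
      have hxS := hinit x hx _ (hS.val t e he) hxt
      exact (ih hφ _ (cons_mem S x e hxS he)).1 (H x hxS hxt)
    · intro H x hx hxt
      exact (ih hφ _ (cons_mem S x e hx he)).2 (H x (hST hx) hxt)
  | all φ ih => exact hφ.elim
  | ex φ ih => exact hφ.elim

/-- The substructure of `A` on a closed set `S`. -/
def Arith.sub (A : Arith) (S : Set A.D) (h : Closed A S) : Arith where
  D := {x : A.D // x ∈ S}
  zero := ⟨A.zero, h.zero⟩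
  one := ⟨A.one, h.one⟩
  add x y := ⟨A.add x.1 y.1, h.add _ x.2 _ y.2⟩
  mul x y := ⟨A.mul x.1 y.1, h.mul _ x.2 _ y.2⟩
  pow x y := ⟨A.pow x.1 y.1, h.pow _ x.2 _ y.2⟩
  lt x y := A.lt x.1 y.1

theorem val_sub (A : Arith) (S : Set A.D) (h : Closed A S) (t : Tm) (e : ℕ → (A.sub S h).D) :
    (t.val (A.sub S h) e).1 = t.val A (fun i => (e i).1) := by
  induction t with
  | var i => rfl
  | zero => rfl
  | one => rfl
  | add s t ihs iht => simp only [Tm.val, ← ihs, ← iht]; rfl
  | mul s t ihs iht => simp only [Tm.val, ← ihs, ← iht]; rfl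
  | pow s t ihs iht => simp only [Tm.val, ← ihs, ← iht]; rfl

theorem sat_sub (A : Arith) (S : Set A.D) (h : Closed A S) (φ : Fm) (e : ℕ → (A.sub S h).D) :
    φ.Sat (A.sub S h) e ↔ φ.SatIn A S (fun i => (e i).1) := by
  induction φ generalizing e with
  | eq s t =>
    simp only [Fm.Sat, Fm.SatIn, ← val_sub A S h]
    exact Subtype.ext_iff
  | lt s t =>
    simp only [Fm.Sat, Fm.SatIn, ← val_sub A S h]
    rfl
  | neg φ ih => simp only [Fm.Sat, Fm.SatIn, ih]
  | and φ ψ ih1 ih2 => simp only [Fm.Sat, Fm.SatIn, ih1, ih2]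
  | ball t φ ih =>
    simp only [Fm.Sat, Fm.SatIn, ← val_sub A S h, ih, comp_cons]
    exact ⟨fun H x hx hxt => H ⟨x, hx⟩ hxt, fun H x hxt => H x.1 x.2 hxt⟩
  | all φ ih =>
    simp only [Fm.Sat, Fm.SatIn, ih, comp_cons]
    exact ⟨fun H x hx => H ⟨x, hx⟩, fun H x => H x.1 x.2⟩
  | ex φ ih =>
    simp only [Fm.Sat, Fm.SatIn, ih, comp_cons]
    exact ⟨fun ⟨x, hx⟩ => ⟨x.1, x.2, hx⟩, fun ⟨x, hx, hx'⟩ => ⟨⟨x, hx⟩, hx'⟩⟩

end Pool.Agent.Helper92.Cut
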