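import Mathlib

/-!
# Arithmetic formulas, the arithmetical hierarchy, and models of `PA⁻ + exp`

De Bruijn conventions: an assignment is a map `e : ℕ → D`; a quantifier binds variable `0` and
shifts the other variables up by one (`cons x e`).
-/

namespace Pool.Agent.Helper92.Cut

/-- Terms of the language `0, 1, +, ·, ^, <` of arithmetic with exponentiation. -/
inductive Tm : Type
  | var (i : ℕ) : Tm
  | zero : Tm
  | one : Tm
  | add (s t : Tm) : Tm
  | mul (s t : Tm) : Tm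
  | pow (s t : Tm) : Tm

/-- Formulas of arithmetic. `ball t φ` is the bounded quantifier `∀ v₀ < t, φ`. -/
inductive Fm : Type
  | eq (s t : Tm) : Fm
  | lt (s t : Tm) : Fm
  | neg (φ : Fm) : Fm
  | and (φ ψ : Fm) : Fm
  | ball (t : Tm) (φ : Fm) : Fm
  | all (φ : Fm) : Fm
  | ex (φ : Fm) : Fm

/-- Structures for the language of arithmetic with exponentiation. -/
structure Arith where
  D : Type
  zero : D
  one : D
  add : D → D → D
  mul : D → D → D
  pow : D → D → D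
  lt : D → D → Prop

/-- The assignment giving variable `0` the value `x` and variable `i+1` the value `e i`. -/
def cons {D : Type} (x : D) (e : ℕ → D) : ℕ → D
  | 0 => x
  | i + 1 => e i

/-- Value of a term. -/
def Tm.val (M : Arith) (e : ℕ → M.D) : Tm → M.D
  | var i => e i
  | zero => M.zero
  | one => M.one
  | add s t => M.add (s.val M e) (t.val M e)
  | mul s t => M.mul (s.val M e) (t.val M e)
  | pow s t => M.pow (s.val M e) (t.val M e)

/-- Satisfaction. -/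
def Fm.Sat (M : Arith) : (ℕ → M.D) → Fm → Prop
  | e, eq s t => s.val M e = t.val M e
  | e, lt s t => M.lt (s.val M e) (t.val M e)
  | e, neg φ => ¬ φ.Sat M e
  | e, and φ ψ => φ.Sat M e ∧ ψ.Sat M e
  | e, ball t φ => ∀ x, M.lt x (t.val M e) → φ.Sat M (cons x e)
  | e, all φ => ∀ x, φ.Sat M (cons x e)
  | e, ex φ => ∃ x, φ.Sat M (cons x e)

/-- `Δ₀` formulas: all quantifiers are bounded. -/
def Fm.IsDelta0 : Fm → Prop
  | eq _ _ => True
  | lt _ _ => True
  | neg φ => φ.IsDelta0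
  | and φ ψ => φ.IsDelta0 ∧ ψ.IsDelta0
  | ball _ φ => φ.IsDelta0
  | all _ => False
  | ex _ => False

mutual

/-- `Σₙ` formulas: `Σ₀ = Δ₀`, and `Σₙ₊₁` is a block of `∃` followed by a `Πₙ` formula. -/
def IsSigma : ℕ → Fm → Prop
  | 0, φ => φ.IsDelta0
  | n + 1, φ => ∃ (k : ℕ) (ψ : Fm), IsPi n ψ ∧ φ = Fm.ex^[k] ψ

/-- `Πₙ` formulas: `Π₀ = Δ₀`, and `Πₙ₊₁` is a block of `∀` followed by a `Σₙ` formula. -/
def IsPi : ℕ → Fm → Prop
  | 0, φ => φ.IsDelta0
  | n + 1, φ => ∃ (k : ℕ) (ψ : Fm), IsSigma n ψ ∧ φ = Fm.all^[k] ψ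

end

/-- The axioms `PA⁻` (discretely ordered semirings) together with the recursion equations for
exponentiation. -/
def PAminus (M : Arith) : Prop :=
  (∀ x y z, M.add (M.add x y) z = M.add x (M.add y z)) ∧
  (∀ x y, M.add x y = M.add y x) ∧
  (∀ x, M.add x M.zero = x) ∧
  (∀ x y z, M.mul (M.mul x y) z = M.mul x (M.mul y z)) ∧
  (∀ x y, M.mul x y = M.mul y x) ∧
  (∀ x, M.mul x M.one = x) ∧
  (∀ x, M.mul x M.zero = M.zero) ∧
  (∀ x y z, M.mul x (M.add y z) = M.add (M.mul x y) (M.mul x z)) ∧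
  (∀ x, ¬ M.lt x x) ∧
  (∀ x y z, M.lt x y → M.lt y z → M.lt x z) ∧
  (∀ x y, M.lt x y ∨ x = y ∨ M.lt y x) ∧
  (∀ x y z, M.lt x y → M.lt (M.add x z) (M.add y z)) ∧
  (∀ x y z, M.lt M.zero z → M.lt x y → M.lt (M.mul x z) (M.mul y z)) ∧
  (∀ x y, M.lt x y → ∃ z, M.add x z = y) ∧
  (M.lt M.zero M.one) ∧
  (∀ x, x = M.zero ∨ x = M.one ∨ M.lt M.one x) ∧
  (∀ x, M.pow x M.zero = M.one) ∧
  (∀ x y, M.pow x (M.add y M.one) = M.mul (M.pow x y) x)

/-- The bounding (collection) scheme for the class `C` of formulas, with parameters: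
`(∀ x < a)(∃ y) φ(x,y) → (∃ t)(∀ x < a)(∃ y < t) φ(x,y)`. -/
def Bounding (M : Arith) (C : Fm → Prop) : Prop :=
  ∀ φ, C φ → ∀ (e : ℕ → M.D) (a : M.D),
    (∀ x, M.lt x a → ∃ y, φ.Sat M (cons y (cons x e))) →
    ∃ t, ∀ x, M.lt x a → ∃ y, M.lt y t ∧ φ.Sat M (cons y (cons x e))

/-- The induction scheme for the class `C` of formulas, with parameters. -/
def Induction (M : Arith) (C : Fm → Prop) : Prop :=
  ∀ φ, C φ → ∀ e : ℕ → M.D, φ.Sat M (cons M.zero e) →
    (∀ x, φ.Sat M (cons x e) → φ.Sat M (cons (M.add x M.one) e)) → ∀ x, φ.Sat M (cons x e)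

/-- A cut: a nonempty proper subset closed downwards and under successor. -/
def IsCut (M : Arith) (J : Set M.D) : Prop :=
  J.Nonempty ∧ J ≠ Set.univ ∧ (∀ x y, M.lt x y → y ∈ J → x ∈ J) ∧ ∀ x ∈ J, M.add x M.one ∈ J

/-- `J` is definable in `M`, with parameters, by a formula of the class `C`. -/
def DefinableBy (M : Arith) (C : Fm → Prop) (J : Set M.D) : Prop :=
  ∃ φ, C φ ∧ ∃ e : ℕ → M.D, ∀ x, x ∈ J ↔ φ.Sat M (cons x e)

end Pool.Agent.Helper92.Cut
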