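import Pool.Agent.Helper92.Cut.Growth

/-! Bounded formulas are primitive recursive; the growth function bounds least witnesses. -/

namespace Pool.Agent.Helper92.Cut

open Nat.Partrec (Code)

/-- Decode a number into an assignment, by iterated unpairing. -/
def dec : ℕ → ℕ → ℕ
  | p, 0 => p.unpair.1
  | p, i + 1 => dec p.unpair.2 i

theorem dec_pair (x p : ℕ) : dec (Nat.pair x p) = cons x (dec p) := by
  funext i
  cases i with
  | zero => simp [dec]
  | succ i => simp [dec]

theorem primrec_dec (i : ℕ) : Primrec (fun p => dec p i) := by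
  induction i with
  | zero => exact Primrec.fst.comp Primrec.unpair
  | succ i ih => exact ih.comp (Primrec.snd.comp Primrec.unpair)

theorem primrec_pow : Primrec₂ ((· ^ ·) : ℕ → ℕ → ℕ) :=
  Primrec₂.unpaired'.1 Nat.Primrec.pow

theorem primrec_val (t : Tm) : Primrec (fun p => t.val NatA (dec p)) := by
  induction t with
  | var i => exact primrec_dec i
  | zero => exact Primrec.const 0
  | one => exact Primrec.const 1
  | add s t ihs iht => exact Primrec.nat_add.comp ihs iht
  | mul s t ihs iht => exact Primrec.nat_mul.comp ihs iht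
  | pow s t ihs iht => exact primrec_pow.comp ihs iht

theorem primrec_delta0 (φ : Fm) (h : φ.IsDelta0) : PrimrecPred (fun p => φ.Sat NatA (dec p)) := by
  induction φ with
  | eq s t => exact Primrec.eq.comp (primrec_val s) (primrec_val t)
  | lt s t => exact Primrec.nat_lt.comp (primrec_val s) (primrec_val t)
  | neg φ ih => exact (ih h).not
  | and φ ψ ih1 ih2 => exact (ih1 h.1).and (ih2 h.2)
  | ball t φ ih =>
    have h1 : PrimrecRel (fun x p => φ.Sat NatA (cons x (dec p))) := by
      have := (ih h).comp (Primrec₂.natPair)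
      refine this.of_eq ?_
      intro a
      rw [dec_pair]
    have h2 := h1.forall_lt
    exact h2.comp (primrec_val t) Primrec.id
  | all φ ih => exact h.elim
  | ex φ ih => exact h.elim

/-- The growth function bounds least witnesses of bounded formulas. -/
theorem G_bounds (φ : Fm) (h : φ.IsDelta0) : ∃ T, ∀ t, T ≤ t → ∀ p ≤ G t,
    (∃ x, φ.Sat NatA (cons x (dec p))) → ∃ x ≤ G (t + 1), φ.Sat NatA (cons x (dec p)) := by
  classical
  have h1 : PrimrecRel (fun p x => φ.Sat NatA (cons x (dec p))) := by
    have := (primrec_delta0 φ h).comp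
      (Primrec₂.natPair.comp (Primrec.snd (α := ℕ) (β := ℕ)) Primrec.fst)
    refine this.of_eq ?_
    intro a
    rw [dec_pair]
  have h2 : Computable₂ (fun p x => decide (φ.Sat NatA (cons x (dec p)))) := h1.decide.to_comp
  have h3 : Partrec (fun p : ℕ => Nat.rfind
      (fun x => Part.some (decide (φ.Sat NatA (cons x (dec p)))))) :=
    Partrec.rfind h2.partrec₂
  obtain ⟨c, hc⟩ := Code.exists_code.1 (Partrec.nat_iff.1 h3)
  refine ⟨Encodable.encode c, fun t ht p hp ⟨x, hx⟩ => ?_⟩
  have hx' : ∃ x, φ.Sat NatA (cons x (dec p)) := ⟨x, hx⟩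
  refine ⟨Nat.find hx', ?_, Nat.find_spec hx'⟩
  refine G_dom ht hp ?_
  unfold Uni
  rw [Denumerable.ofNat_encode, hc]
  refine Nat.mem_rfind.2 ⟨?_, ?_⟩
  · simpa using Nat.find_spec hx'
  · intro m hm
    simpa using Nat.find_min hx' hm

end Pool.Agent.Helper92.Cut
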