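import Pool.Agent.Helper92.Cut.Nonstd

/-! The function reading off every second binary digit. -/

namespace Pool.Agent.Helper92.Cut

open Filter

/-- `ev j` is the number formed by the binary digits of `j` in even positions. -/
def ev (j : ℕ) : ℕ := if h : j = 0 then 0 else 2 * ev (j / 4) + j % 2
decreasing_by omega

theorem ev_zero : ev 0 = 0 := by rw [ev]; simp

theorem ev_rec (j : ℕ) : ev j = 2 * ev (j / 4) + j % 2 := by
  rcases Nat.eq_zero_or_pos j with rfl | h
  · simp [ev_zero]
  · rw [ev, dif_neg (by omega)]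

theorem ev_four (q d : ℕ) (hd : d < 4) : ev (4 * q + d) = 2 * ev q + d % 2 := by
  rw [ev_rec, show (4 * q + d) / 4 = q by omega, show (4 * q + d) % 2 = d % 2 by omega]

theorem ev_split (m q r : ℕ) (hr : r < 4 ^ m) : ev (q * 4 ^ m + r) = ev q * 2 ^ m + ev r := by
  induction m generalizing r with
  | zero =>
    have : r = 0 := by simpa using hr
    subst this
    simp [ev_zero]
  | succ m ih =>
    have h1 : r = 4 * (r / 4) + r % 4 := by omega
    have h2 : r / 4 < 4 ^ m := by
      rw [pow_succ] at hr; omega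
    have h3 : q * 4 ^ (m + 1) + r = 4 * (q * 4 ^ m + r / 4) + r % 4 := by
      have : q * 4 ^ (m + 1) = 4 * (q * 4 ^ m) := by ring
      omega
    rw [h3, ev_four _ _ (Nat.mod_lt _ (by norm_num)), ih _ h2]
    conv_rhs => rw [h1, ev_four _ _ (Nat.mod_lt _ (by norm_num)), pow_succ]
    ring

theorem ev_lt (m r : ℕ) (hr : r < 4 ^ m) : ev r < 2 ^ m := by
  induction m generalizing r with
  | zero =>
    have : r = 0 := by simpa using hr
    subst this
    simp [ev_zero]
  | succ m ih =>
    rw [ev_rec]
    have h2 : r / 4 < 4 ^ m := by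
      rw [pow_succ] at hr; omega
    have := ih _ h2
    rw [pow_succ]; omega

theorem primrec_ev : Primrec ev := by
  have h : Primrec₂ (fun (_ : Unit) n => ev n) := by
    refine Primrec.nat_strong_rec (fun (_ : Unit) n => ev n)
      (g := fun _ l => if l.length = 0 then some 0 else
        (l[l.length / 4]?).map (fun v => 2 * v + l.length % 2)) ?_ ?_
    · refine Primrec.ite ?_ (Primrec.const _) ?_
      · exact Primrec.eq.comp (Primrec.list_length.comp Primrec.snd) (Primrec.const 0)
      · refine Primrec.option_map ?_ ?_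
        · exact Primrec.list_getElem?.comp Primrec.snd
            (Primrec.nat_div.comp (Primrec.list_length.comp Primrec.snd) (Primrec.const 4))
        · refine Primrec.nat_add.comp (Primrec.nat_mul.comp (Primrec.const 2) Primrec.snd) ?_
          exact Primrec.nat_mod.comp (Primrec.list_length.comp (Primrec.snd.comp Primrec.fst))
            (Primrec.const 2)
    · intro _ n
      rcases Nat.eq_zero_or_pos n with rfl | h
      · simp [ev_zero]
      · have h1 : n / 4 < n := by omega
        have h2 : n ≠ 0 := by omega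
        simp only [List.length_map, List.length_range, h2, if_false]
        rw [ev_rec n]
        simp [h1]
  exact h.comp (Primrec.const ()) Primrec.id

theorem S1_ev : S1 (fun e => e 0 = ev (e 1)) := by
  have h : Nat.Partrec (fun n => Part.some (ev n)) := Partrec.nat_iff.1 primrec_ev.to_comp
  exact (partrec_S1 h).of_iff fun e => Part.mem_some_iff

theorem primrec_tow : Primrec tow := by
  have h : Primrec (fun n : ℕ => (Nat.rec 2 (fun _ v => v ^ v) n : ℕ)) :=
    Primrec.nat_rec₁ 2 (primrec_pow.comp Primrec.snd Primrec.snd)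
  refine h.of_eq fun n => ?_
  induction n with
  | zero => rfl
  | succ n ih => simp only [tow, ← ih]

theorem S1_tow_ev : S1 (fun e => e 0 = tow (ev (e 1))) := by
  have h : Nat.Partrec (fun n => Part.some (tow (ev n))) :=
    Partrec.nat_iff.1 (primrec_tow.comp primrec_ev).to_comp
  exact (partrec_S1 h).of_iff fun e => Part.mem_some_iff

theorem S1_lt_ev : S1 (fun e => e 0 < tow (ev (e 1))) := by
  have h : S1 (fun e => ∃ v, v = tow (ev (e 1)) ∧ e 0 < v) := by
    refine S1.ex' (Q := fun v e => v = tow (ev (e 1)) ∧ e 0 < v) (S1.and ?_ ?_)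
    · exact S1.comp2 (R := fun y x => y = tow (ev x)) S1_tow_ev (T0.var 0) (T0.var 2)
    · exact (D0.lt (T0.var 1) (T0.var 0)).toS1
  exact h.of_iff fun e => by simp

theorem S1_ev_le : S1 (fun e => tow (ev (e 1)) ≤ e 0) := by
  have h : S1 (fun e => ∃ v, v = tow (ev (e 1)) ∧ v ≤ e 0) := by
    refine S1.ex' (Q := fun v e => v = tow (ev (e 1)) ∧ v ≤ e 0) (S1.and ?_ ?_)
    · exact S1.comp2 (R := fun y x => y = tow (ev x)) S1_tow_ev (T0.var 0) (T0.var 2)
    · exact (D0.le (T0.var 0) (T0.var 1)).toS1
  exact h.of_iff fun e => by simp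

/-- The growth function eventually dominates the tower function. -/
theorem G_tow : ∃ T, ∀ t, T ≤ t → tow (G t) ≤ G (t + 1) := by
  have h : Nat.Partrec (fun n => Part.some (tow n)) := Partrec.nat_iff.1 primrec_tow.to_comp
  obtain ⟨c, hc⟩ := Nat.Partrec.Code.exists_code.1 h
  refine ⟨Encodable.encode c, fun t ht => G_dom ht le_rfl ?_⟩
  unfold Uni
  rw [Denumerable.ofNat_encode, hc]
  exact Part.mem_some _

/-- The growth function eventually dominates `(x + 2) ^ (x + 2)`. -/
theorem G_pow : ∃ T, ∀ t, T ≤ t → (G t + 2) ^ (G t + 2) ≤ G (t + 1) := by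
  have h1 : Primrec (fun n : ℕ => (n + 2) ^ (n + 2)) :=
    primrec_pow.comp (Primrec.nat_add.comp Primrec.id (Primrec.const 2))
      (Primrec.nat_add.comp Primrec.id (Primrec.const 2))
  have h : Nat.Partrec (fun n => Part.some ((n + 2) ^ (n + 2))) := Partrec.nat_iff.1 h1.to_comp
  obtain ⟨c, hc⟩ := Nat.Partrec.Code.exists_code.1 h
  refine ⟨Encodable.encode c, fun t ht => G_dom ht le_rfl ?_⟩
  unfold Uni
  rw [Denumerable.ofNat_encode, hc]
  exact Part.mem_some _

end Pool.Agent.Helper92.Cut
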