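import Pool.Agent.Helper92.Cut.Model

/-! The final analysis of the model. -/

namespace Pool.Agent.Helper92.Cut

open Filter

section

variable {P Q : ℕ → Ns → Ns → Prop} {Y : ℕ → Ns} {q : ℕ → ℕ}

/-- The model. -/
noncomputable abbrev Full.model (h : Full P Q Y q) : Arith := NsA.sub (MM q) h.closed

theorem isSigma2 {φ : Fm} (h : IsSigma 2 φ) :
    ∃ k m δ, δ.IsDelta0 ∧ φ = Fm.ex^[k] (Fm.all^[m] δ) := by
  obtain ⟨k, ψ, ⟨m, δ, hδ, rfl⟩, rfl⟩ := h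
  exact ⟨k, m, δ, hδ, rfl⟩

theorem isPi2 {φ : Fm} (h : IsPi 2 φ) :
    ∃ k m δ, δ.IsDelta0 ∧ φ = Fm.all^[k] (Fm.ex^[m] δ) := by
  obtain ⟨k, ψ, ⟨m, δ, hδ, rfl⟩, rfl⟩ := h
  exact ⟨k, m, δ, hδ, rfl⟩

/-- Satisfaction of a `Σ₂` formula in the model. -/
theorem Full.sigma2 (h : Full P Q Y q) (k m : ℕ) (δ : Fm) (hδ : δ.IsDelta0) (e : ℕ → Ns)
    (he : ∀ i, e i ∈ MM q) :
    (Fm.ex^[k] (Fm.all^[m] δ)).SatIn NsA (MM q) e ↔
      ∃ u : List Ns, u.length = k ∧ (∀ x ∈ u, x ∈ MM q) ∧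
        (Fm.all^[m] δ).SatIn NsA S0 (push u e) := by
  rw [satIn_exs]
  refine exists_congr fun u => and_congr_right fun _ => and_congr_right fun hu => ?_
  exact h.pi1 m δ hδ _ (push_mem _ u e hu he)

theorem Full.pi2 (h : Full P Q Y q) (k m : ℕ) (δ : Fm) (hδ : δ.IsDelta0) (e : ℕ → Ns)
    (he : ∀ i, e i ∈ MM q) :
    ¬ (Fm.all^[k] (Fm.ex^[m] δ)).SatIn NsA (MM q) e ↔
      ∃ u : List Ns, u.length = k ∧ (∀ x ∈ u, x ∈ MM q) ∧
        (Fm.neg (Fm.ex^[m] δ)).SatIn NsA S0 (push u e) := by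
  rw [satIn_alls]
  push Not
  refine exists_congr fun u => and_congr_right fun _ => and_congr_right fun hu => ?_
  rw [h.sigma1 m δ hδ _ (push_mem _ u e hu he)]
  rfl

/-! ### the bounding scheme -/

/-- The formula used in the proof of `Σ₂` bounding, at the assignment `b :: a :: e`. -/
def bform (k : ℕ) (ψ : Fm) : Fm :=
  .ball (.var 1) (.bex (.var 1) (Fm.bexs k (.var 2) (ψ.ren (skip (k + 2) 2))))

theorem satIn_bform (k : ℕ) (ψ : Fm) (a b : Ns) (e : ℕ → Ns) :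
    (bform k ψ).SatIn NsA S0 (cons b (cons a e)) ↔
      ∀ x ∈ S0, x < a → ∃ y ∈ S0, y < b ∧ ∃ u : List Ns, u.length = k ∧
        (∀ z ∈ u, z ∈ S0 ∧ z < b) ∧ ψ.SatIn NsA S0 (push u (cons y (cons x e))) := by
  unfold bform
  simp only [Fm.SatIn, satIn_bex, satIn_bexs]
  refine forall_congr' fun x => forall_congr' fun _ => forall_congr' fun _ =>
    exists_congr fun y => and_congr_right fun _ => and_congr_right fun _ =>
    exists_congr fun u => and_congr_right fun hu => and_congr_right fun _ => ?_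
  rw [Fm.satIn_ren]
  have := push_skip ([x, y] ++ u) [a, b] e
  simp only [List.cons_append, List.nil_append, List.length_cons, List.length_nil,
    push_cons, push_nil, hu] at this
  rw [this]

theorem Full.bounding (h : Full P Q Y q) : Bounding h.model (IsSigma 2) := by
  intro φ hφ e a H
  obtain ⟨k, m, δ, hδ, rfl⟩ := isSigma2 hφ
  set e' : ℕ → Ns := fun i => (e i).1 with he'
  have hcc : ∀ (x y : h.model.D), (fun i => (cons y (cons x e) i).1) =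
      cons y.1 (cons x.1 e') := by
    intro x y; funext i; rcases i with _ | _ | i <;> rfl
  simp only [sat_sub, hcc] at H ⊢
  have he : ∀ i, e' i ∈ MM q := fun i => (e i).2
  have hsat : ∀ x ∈ MM q, ∀ y ∈ MM q,
      ((Fm.ex^[k] (Fm.all^[m] δ)).SatIn NsA (MM q) (cons y (cons x e')) ↔
      ∃ u : List Ns, u.length = k ∧ (∀ z ∈ u, z ∈ MM q) ∧
        (Fm.all^[m] δ).SatIn NsA S0 (push u (cons y (cons x e')))) := fun x hx y hy =>
    h.sigma2 k m δ hδ _ (cons_mem _ _ _ hy (cons_mem _ _ _ hx he))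
  -- a point of `S0` above the model
  have htop : ∀ x ∈ MM q, x < Gs (tg 1 0) := by
    rintro x ⟨_, k', hk'⟩
    refine hk'.trans_lt (Gs_strictMono ?_)
    have := h.dig.t_lt k' 0
    rwa [h.dig.1] at this
  have hC : (bform k (Fm.all^[m] δ)).SatIn NsA S0 (cons (Gs (tg 1 0)) (cons a.1 e')) := by
    rw [satIn_bform]
    intro x hx hxa
    have hxM := MM_init x hx a.1 a.2 hxa
    obtain ⟨y, hy⟩ := H ⟨x, hxM⟩ hxa
    obtain ⟨u, hu, huM, hs⟩ := (hsat x hxM y.1 y.2).1 hy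
    exact ⟨y.1, y.2.1, htop _ y.2, u, hu, fun z hz => ⟨(huM z hz).1, htop _ (huM z hz)⟩, hs⟩
  obtain ⟨c, hc, hc1, hc2⟩ := S0_least (bform k (Fm.all^[m] δ)) (cons a.1 e')
    (cons_mem _ _ _ a.2.1 fun i => (he i).1) _ (Gs_mem (tg_mem 1 0)) hC
  have hcM : c ∈ MM q := by
    by_contra hcM
    -- then `c - 1` is also a solution
    have hc0 : ∀ x ∈ MM q, x < c := by
      intro x hx
      by_contra hxc
      exact hcM ⟨hc, hx.2.mono (not_lt.1 hxc)⟩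
    obtain ⟨f, hf, rfl⟩ := hc
    have hpred : gm (fun n => f n - 1) ∈ S0 := gm_mem (Fam.sub hf (Fam.const 1))
    have h0 : (0 : Ns) < gm f := hc0 0 h.closed.zero
    have h1 : ∀ᶠ n in (hyperfilter ℕ : Filter ℕ), 0 < f n := gm_lt (f := fun _ => 0).1 h0
    have hlt : gm (fun n => f n - 1) < gm f := gm_lt.2 (h1.mono fun n hn => by omega)
    have h2 : ∀ x ∈ MM q, x < gm (fun n => f n - 1) := by
      intro x hx
      have h3 := hc0 (x + 1) (h.closed.add _ hx _ h.closed.one)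
      obtain ⟨g, hg, rfl⟩ := hx.1
      have h4 : ∀ᶠ n in (hyperfilter ℕ : Filter ℕ), g n + 1 < f n :=
        gm_lt (f := fun n => g n + 1).1 h3
      exact gm_lt.2 (h4.mono fun n hn => by omega)
    refine absurd (hc2 _ hpred ?_) (not_le.2 hlt)
    rw [satIn_bform]
    intro x hx hxa
    have hxM := MM_init x hx a.1 a.2 hxa
    obtain ⟨y, hy⟩ := H ⟨x, hxM⟩ hxa
    obtain ⟨u, hu, huM, hs⟩ := (hsat x hxM y.1 y.2).1 hy
    exact ⟨y.1, y.2.1, h2 _ y.2, u, hu, fun z hz => ⟨(huM z hz).1, h2 _ (huM z hz)⟩, hs⟩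
  refine ⟨⟨c, hcM⟩, fun x hxa => ?_⟩
  rw [satIn_bform] at hc1
  obtain ⟨y, hy, hyc, u, hu, huS, hs⟩ := hc1 x.1 x.2.1 hxa
  have hyM := MM_init y hy c hcM hyc
  refine ⟨⟨y, hyM⟩, hyc, ?_⟩
  refine (hsat x.1 x.2 y hyM).2 ⟨u, hu, fun z hz => ?_, hs⟩
  exact MM_init z (huS z hz).1 c hcM (huS z hz).2

/-! ### the axioms of `PA⁻` -/

theorem Full.paminus (h : Full P Q Y q) : PAminus h.model := by
  refine ⟨?_, ?_, ?_, ?_, ?_, ?_, ?_, ?_, ?_, ?_, ?_, ?_, ?_, ?_, ?_, ?_, ?_, ?_⟩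
  · exact fun x y z => Subtype.ext (add_assoc _ _ _)
  · exact fun x y => Subtype.ext (add_comm _ _)
  · exact fun x => Subtype.ext (add_zero _)
  · exact fun x y z => Subtype.ext (mul_assoc _ _ _)
  · exact fun x y => Subtype.ext (mul_comm _ _)
  · exact fun x => Subtype.ext (mul_one _)
  · exact fun x => Subtype.ext (mul_zero _)
  · exact fun x y z => Subtype.ext (mul_add _ _ _)
  · exact fun x => lt_irrefl x.1
  · exact fun x y z h1 h2 => lt_trans (a := x.1) h1 h2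
  · intro x y
    rcases lt_trichotomy x.1 y.1 with h1 | h1 | h1
    · exact Or.inl h1
    · exact Or.inr (Or.inl (Subtype.ext h1))
    · exact Or.inr (Or.inr h1)
  · intro x y z h1
    exact add_lt_add_of_lt_of_le (a := x.1) h1 le_rfl
  · intro x y z h1 h2
    exact mul_lt_mul_of_pos_right (a := z.1) h2 h1
  · rintro ⟨x, ⟨f, hf, rfl⟩, hx⟩ ⟨y, ⟨g, hg, rfl⟩, hy⟩ hxy
    refine ⟨⟨gm (fun n => g n - f n), gm_mem (Fam.sub hg hf), hy.mono ?_⟩, Subtype.ext ?_⟩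
    · exact gm_le.2 (Eventually.of_forall fun n => Nat.sub_le _ _)
    · refine gm_eq (f := fun n => f n + (g n - f n)).2 ?_
      filter_upwards [gm_lt.1 hxy] with n hn
      omega
  · exact zero_lt_one (α := Ns)
  · rintro ⟨x, ⟨f, hf, rfl⟩, hx⟩
    rcases lt_trichotomy (gm f) 1 with h1 | h1 | h1
    · left
      refine Subtype.ext (gm_eq (g := fun _ => 0).2 ?_)
      filter_upwards [gm_lt (g := fun _ => 1).1 h1] with n hn
      omega
    · exact Or.inr (Or.inl (Subtype.ext h1))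
    · exact Or.inr (Or.inr h1)
  · rintro ⟨x, ⟨f, hf, rfl⟩, hx⟩
    exact Subtype.ext (gm_eq (f := fun n => f n ^ 0) (g := fun _ => 1).2
      (Eventually.of_forall fun n => pow_zero _))
  · rintro ⟨x, ⟨f, hf, rfl⟩, hx⟩ ⟨y, ⟨g, hg, rfl⟩, hy⟩
    exact Subtype.ext (gm_eq (f := fun n => f n ^ (g n + 1)) (g := fun n => f n ^ g n * f n).2
      (Eventually.of_forall fun n => pow_succ _ _))

/-! ### special points of the model -/

theorem Full.top_mem (h : Full P Q Y q) : tg 1 0 ∈ MM q := by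
  obtain ⟨K, hK⟩ := h.gen_pos
  have h1 : tg 1 K ∈ MM q :=
    ⟨tg_mem 1 K, K, (tg_le (hK K le_rfl)).trans (le_Gs _)⟩
  have h2 : gm (fun _ => 4 ^ K) ∈ MM q := by
    refine ⟨gm_mem (Fam.const _), ?_⟩
    obtain ⟨k', _, hk'⟩ := h.gen_t 0
    refine ⟨k', le_trans ?_ (le_Gs _)⟩
    refine le_trans ?_ (hk' (4 ^ K))
    exact le_add_of_nonneg_left (by
      exact gm_le (f := fun _ => 0).2 (Eventually.of_forall fun _ => Nat.zero_le _))
  have h3 := h.closed.mul _ h2 _ h1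
  have h4 : tg 1 0 = gm (fun _ => 4 ^ K) * tg 1 K := by
    rw [tg_shift 1 0 K, zero_add, one_mul]
    show gm _ = gm (fun n => 4 ^ K * (1 * 4 ^ (n - K)))
    congr 1
    funext n
    ring
  rw [h4]
  exact h3

theorem Full.vtop_mem (h : Full P Q Y q) : vg 1 0 ∈ MM q := by
  refine ⟨vg_mem 1 0, h.top_mem.2.mono ?_⟩
  refine gm_le.2 (Eventually.of_forall fun n => ?_)
  exact Nat.mul_le_mul_left _ (Nat.pow_le_pow_left (by norm_num) _)

theorem Full.u_le_top (h : Full P Q Y q) (k : ℕ) : vg (ev (q k) + 1) k ≤ vg 1 0 := by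
  have := h.dig.v_up (Nat.zero_le k)
  rwa [h.dig.1, ev_zero] at this

theorem Full.v_mem (h : Full P Q Y q) (k : ℕ) : vg (ev (q k)) k ∈ MM q :=
  ⟨vg_mem _ _, h.vtop_mem.2.mono ((vg_le (Nat.le_succ _)).trans (h.u_le_top k))⟩

theorem Full.u_mem (h : Full P Q Y q) (k : ℕ) : vg (ev (q k) + 1) k ∈ MM q :=
  ⟨vg_mem _ _, h.vtop_mem.2.mono (h.u_le_top k)⟩

theorem Full.t_mem (_h : Full P Q Y q) (k : ℕ) : tg (q k) k ∈ MM q :=
  ⟨tg_mem _ _, k, le_Gs _⟩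

/-- The lift of the tower function. -/
noncomputable def Ts : Ns → Ns := Germ.map tow

theorem Ts_strictMono : StrictMono Ts := by
  intro x y h
  induction x using Germ.inductionOn with
  | h f =>
    induction y using Germ.inductionOn with
    | h g =>
      exact gm_lt.2 ((gm_lt.1 h).mono fun n hn => tow_strictMono hn)

theorem Ts_mem {x : Ns} (h : x ∈ S0) : Ts x ∈ S0 := by
  obtain ⟨f, hf, rfl⟩ := h
  exact gm_mem (Fam.tow hf)

theorem Full.Ts_MM (h : Full P Q Y q) {x : Ns} (hx : x ∈ MM q) : Ts x ∈ MM q := by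
  obtain ⟨⟨f, hf, rfl⟩, hb⟩ := hx
  refine ⟨gm_mem (Fam.tow hf), ?_⟩
  obtain ⟨T, hT⟩ := G_tow
  refine h.bdd_of_dom hb T (Eventually.of_forall fun n t ht hn => ?_)
  exact (tow_strictMono.monotone hn).trans (hT t ht)

/-- The time cut. -/
def II (q : ℕ → ℕ) : Set Ns := {t | ∃ k, t < tg (q k) k}

/-- The value cut. -/
def JJ (q : ℕ → ℕ) : Set Ns := {y | ∃ k, y < Ts (vg (ev (q k)) k)}

/-- Every element of `S0` is decided by the value cut. -/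
theorem Full.decT (h : Full P Q Y q) (x : Ns) (hx : x ∈ S0) :
    ∃ k, x < Ts (vg (ev (q k)) k) ∨ Ts (vg (ev (q k) + 1) k) ≤ x := by
  obtain ⟨f, hf, rfl⟩ := hx
  obtain ⟨k, hk | hk⟩ := h.decd _ (gm_mem (Fam.towi hf))
  · refine ⟨k, Or.inl (gm_lt.2 ?_)⟩
    filter_upwards [gm_lt.1 hk] with n hn
    exact (towi_spec (f n)).2.trans_le (tow_strictMono.monotone hn)
  · by_cases h2 : gm f < gm (fun _ => 2)
    · refine ⟨k, Or.inl (h2.trans_le ?_)⟩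
      exact gm_le.2 (Eventually.of_forall fun n => two_le_tow _)
    · refine ⟨k, Or.inr (gm_le.2 ?_)⟩
      have h3 := gm_le.1 (not_lt.1 h2)
      filter_upwards [gm_le.1 hk, h3] with n hn hn2
      rcases (towi_spec (f n)).1 with h4 | h4
      · omega
      · exact (tow_strictMono.monotone hn).trans h4

theorem Full.t_mem_II (h : Full P Q Y q) (k : ℕ) : tg (q k) k ∈ II q := by
  obtain ⟨k', _, h1⟩ := h.gen_t k
  exact ⟨k', (lt_add_one _).trans_le (h1 1)⟩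

theorem Full.II_iff (h : Full P Q Y q) (t : Ns) (ht : t ∈ S0) :
    t ∈ II q ↔ ∃ z ∈ MM q, ¬ z < Gs t := by
  constructor
  · rintro ⟨k, hk⟩
    exact ⟨Gs t, ⟨Gs_mem ht, k, Gs_mono hk.le⟩, lt_irrefl _⟩
  · rintro ⟨z, ⟨_, k, hk⟩, hz⟩
    have h1 : Gs t ≤ Gs (tg (q k) k) := (not_lt.1 hz).trans hk
    have h2 : t ≤ tg (q k) k := Gs_strictMono.le_iff_le.1 h1
    obtain ⟨k', h3⟩ := h.t_mem_II k
    exact ⟨k', h2.trans_lt h3⟩

theorem Full.box (h : Full P Q Y q) (k : ℕ) (j : Ns) (hj : j ∈ II q) (hkj : tg (q k) k ≤ j) :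
    Ts (vg (ev (q k)) k) ≤ Ts (evs j) ∧ Ts (evs j) < Ts (vg (ev (q k) + 1) k) := by
  obtain ⟨k', hk'⟩ := hj
  have := evs_box (q k) k j hkj (hk'.trans (h.dig.t_lt k' k))
  exact ⟨Ts_strictMono.monotone this.1, Ts_strictMono this.2⟩

theorem Full.JJ_iff (h : Full P Q Y q) (y : Ns) (hy : y ∈ S0) :
    y ∈ JJ q ↔ ∃ i ∈ MM q, i ∈ II q ∧ ∀ j ∈ MM q, j ∈ II q → i ≤ j → y < Ts (evs j) := by
  constructor
  · rintro ⟨k, hk⟩
    exact ⟨_, h.t_mem k, h.t_mem_II k, fun j _ hj hij => hk.trans_le (h.box k j hj hij).1⟩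
  · rintro ⟨i, hi, hiI, H⟩
    obtain ⟨k, hk | hk⟩ := h.decT y hy
    · exact ⟨k, hk⟩
    · exfalso
      rcases le_total i (tg (q k) k) with h1 | h1
      · have h2 := H _ (h.t_mem k) (h.t_mem_II k) h1
        exact absurd (h2.trans (h.box k _ (h.t_mem_II k) le_rfl).2) (not_lt.2 hk)
      · have h2 := H _ hi hiI le_rfl
        exact absurd (h2.trans (h.box k _ hiI h1).2) (not_lt.2 hk)

theorem Full.notJJ_iff (h : Full P Q Y q) (y : Ns) (hy : y ∈ S0) :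
    y ∉ JJ q ↔ ∃ i ∈ MM q, i ∈ II q ∧ ∀ j ∈ MM q, j ∈ II q → i ≤ j → Ts (evs j) ≤ y := by
  constructor
  · intro hyJ
    obtain ⟨k, hk | hk⟩ := h.decT y hy
    · exact absurd ⟨k, hk⟩ hyJ
    · exact ⟨_, h.t_mem k, h.t_mem_II k, fun j _ hj hij =>
        (h.box k j hj hij).2.le.trans hk⟩
  · rintro ⟨i, hi, hiI, H⟩ ⟨k, hk⟩
    rcases le_total i (tg (q k) k) with h1 | h1
    · have h2 := H _ (h.t_mem k) (h.t_mem_II k) h1
      exact absurd hk (not_lt.2 ((h.box k _ (h.t_mem_II k) le_rfl).1.trans h2))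
    · have h2 := H _ hi hiI le_rfl
      exact absurd hk (not_lt.2 ((h.box k _ hiI h1).1.trans h2))

/-! ### lifting `Σ₁` relations -/

theorem lift_S1 {R : ℕ → ℕ → Prop} (hR : S1 (fun e => R (e 0) (e 1))) :
    ∃ δ : Fm, δ.IsDelta0 ∧ ∀ f ∈ Fam, ∀ g ∈ Fam, ∀ e : ℕ → Ns, (∀ i, e i ∈ S0) →
      ((∃ w ∈ S0, δ.SatIn NsA S0 (cons w (cons (gm f) (cons (gm g) e)))) ↔
        ∀ᶠ n in (hyperfilter ℕ : Filter ℕ), R (f n) (g n)) := by
  obtain ⟨δ, hδ, h1⟩ := hR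
  refine ⟨δ, hδ, fun f hf g hg e he => ?_⟩
  obtain ⟨k, hk, rfl⟩ := exists_rep e he
  have h2 := los (.ex δ) (cons f (cons g k)) (cons_Fam hf (cons_Fam hg hk))
  rw [← cons_gm, ← cons_gm] at h2
  refine Iff.trans h2 (eventually_congr (Eventually.of_forall fun n => ?_))
  rw [cons_app, cons_app]
  exact h1 (cons (f n) (cons (g n) fun i => k i n))

theorem Full.lift_M (h : Full P Q Y q) {δ : Fm} (hδ : δ.IsDelta0) (e : ℕ → Ns)
    (he : ∀ i, e i ∈ MM q) :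
    (∃ w ∈ MM q, δ.SatIn NsA (MM q) (cons w e)) ↔ ∃ w ∈ S0, δ.SatIn NsA S0 (cons w e) :=
  h.sigma1 1 δ hδ e he

theorem Full.lift_G (h : Full P Q Y q) : ∃ δ : Fm, δ.IsDelta0 ∧ ∀ z ∈ MM q, ∀ t ∈ MM q,
    ∀ e : ℕ → Ns, (∀ i, e i ∈ MM q) →
      ((∃ w ∈ MM q, δ.SatIn NsA (MM q) (cons w (cons z (cons t e)))) ↔ z < Gs t) := by
  obtain ⟨δ, hδ, h1⟩ := lift_S1 (R := fun z t => z < G t) S1_lt_G
  refine ⟨δ, hδ, fun z hz t ht e he => ?_⟩
  rw [h.lift_M hδ _ (cons_mem _ _ _ hz (cons_mem _ _ _ ht he))]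
  obtain ⟨⟨f, hf, rfl⟩, _⟩ := hz
  obtain ⟨⟨g, hg, rfl⟩, _⟩ := ht
  rw [h1 f hf g hg e fun i => (he i).1]
  exact gm_lt.symm

theorem Full.lift_lt (h : Full P Q Y q) : ∃ δ : Fm, δ.IsDelta0 ∧ ∀ z ∈ MM q, ∀ t ∈ MM q,
    ∀ e : ℕ → Ns, (∀ i, e i ∈ MM q) →
      ((∃ w ∈ MM q, δ.SatIn NsA (MM q) (cons w (cons z (cons t e)))) ↔ z < Ts (evs t)) := by
  obtain ⟨δ, hδ, h1⟩ := lift_S1 (R := fun z t => z < tow (ev t)) S1_lt_ev
  refine ⟨δ, hδ, fun z hz t ht e he => ?_⟩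
  rw [h.lift_M hδ _ (cons_mem _ _ _ hz (cons_mem _ _ _ ht he))]
  obtain ⟨⟨f, hf, rfl⟩, _⟩ := hz
  obtain ⟨⟨g, hg, rfl⟩, _⟩ := ht
  rw [h1 f hf g hg e fun i => (he i).1]
  exact gm_lt.symm

theorem Full.lift_le (h : Full P Q Y q) : ∃ δ : Fm, δ.IsDelta0 ∧ ∀ z ∈ MM q, ∀ t ∈ MM q,
    ∀ e : ℕ → Ns, (∀ i, e i ∈ MM q) →
      ((∃ w ∈ MM q, δ.SatIn NsA (MM q) (cons w (cons z (cons t e)))) ↔ Ts (evs t) ≤ z) := by
  obtain ⟨δ, hδ, h1⟩ := lift_S1 (R := fun z t => tow (ev t) ≤ z) S1_ev_le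
  refine ⟨δ, hδ, fun z hz t ht e he => ?_⟩
  rw [h.lift_M hδ _ (cons_mem _ _ _ hz (cons_mem _ _ _ ht he))]
  obtain ⟨⟨f, hf, rfl⟩, _⟩ := hz
  obtain ⟨⟨g, hg, rfl⟩, _⟩ := ht
  rw [h1 f hf g hg e fun i => (he i).1]
  exact gm_le.symm

/-! ### failure of `Σ₂` induction -/

theorem Full.not_induction (h : Full P Q Y q) : ¬ Induction h.model (IsSigma 2) := by
  intro H
  obtain ⟨δ, hδ, h1⟩ := h.lift_G
  have key : ∀ (t : Ns) (_ : t ∈ MM q) (e : ℕ → Ns), (∀ i, e i ∈ MM q) →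
      ((Fm.ex (Fm.all (Fm.neg δ))).SatIn NsA (MM q) (cons t e) ↔ t ∈ II q) := by
    intro t ht e he
    rw [h.II_iff t ht.1]
    simp only [Fm.SatIn]
    refine exists_congr fun z => and_congr_right fun hz => ?_
    rw [← h1 z hz t ht e he]
    push Not
    rfl
  have h2 := H (Fm.ex (Fm.all (Fm.neg δ))) ⟨1, Fm.all (Fm.neg δ), ⟨1, Fm.neg δ, hδ, rfl⟩, rfl⟩
    (fun _ => h.model.zero)
  have hcc : ∀ (x : h.model.D), (fun i => (cons x (fun _ : ℕ => h.model.zero) i).1) =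
      cons x.1 (fun _ : ℕ => (h.model.zero).1) := by
    intro x; funext i; rcases i with _ | i <;> rfl
  simp only [sat_sub, hcc] at h2
  have he : ∀ i : ℕ, (fun _ : ℕ => (h.model.zero).1) i ∈ MM q := fun _ => (h.model.zero).2
  have h3 := h2 ((key _ (h.model.zero).2 _ he).2 ?_) ?_ ⟨tg 1 0, h.top_mem⟩
  · obtain ⟨k, hk⟩ := (key _ h.top_mem _ he).1 h3
    have h4 := h.dig.t_lt k 0
    rw [h.dig.1] at h4
    exact lt_asymm hk h4
  · obtain ⟨k', _, h4⟩ := h.gen_t 0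
    refine ⟨k', lt_of_lt_of_le ?_ (h4 1)⟩
    rw [h.dig.1]
    exact gm_lt (f := fun _ => 0) (g := fun n => 0 * 4 ^ (n - 0) + 1).2
      (Eventually.of_forall fun n => by omega)
  · rintro x hx
    obtain ⟨k, hk⟩ := (key _ x.2 _ he).1 hx
    refine (key _ (h.model.add x h.model.one).2 _ he).2 ?_
    obtain ⟨k', hk'⟩ := h.t_mem_II k
    refine ⟨k', lt_of_le_of_lt ?_ hk'⟩
    obtain ⟨⟨f, hf, hfx⟩, _⟩ := x.2
    show x.1 + 1 ≤ _
    rw [hfx] at hk ⊢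
    exact gm_le (f := fun n => f n + 1).2 ((gm_lt.1 hk).mono fun n hn => hn)

end

end Pool.Agent.Helper92.Cut
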