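import Pool.Agent.Helper92.Cut.Even

/-! Generic digit sequences. -/

namespace Pool.Agent.Helper92.Cut

open Filter

/-- The time `a * 4 ^ (N - k)` for the nonstandard number `N`. -/
noncomputable def tg (a k : ℕ) : Ns := gm (fun n => a * 4 ^ (n - k))

/-- The value `a * 2 ^ (N - k)` for the nonstandard number `N`. -/
noncomputable def vg (a k : ℕ) : Ns := gm (fun n => a * 2 ^ (n - k))

theorem ev_large (k : ℕ) : ∀ᶠ n in (hyperfilter ℕ : Filter ℕ), k ≤ n := by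
  have h : ∀ᶠ n in atTop, k ≤ n := eventually_ge_atTop k
  rw [← Nat.cofinite_eq_atTop] at h
  exact hyperfilter_le_cofinite h

theorem tg_mem (a k : ℕ) : tg a k ∈ S0 :=
  gm_mem (Fam.mul (Fam.const a) (Fam.pow (Fam.const 4) (Fam.sub Fam.id (Fam.const k))))

theorem vg_mem (a k : ℕ) : vg a k ∈ S0 :=
  gm_mem (Fam.mul (Fam.const a) (Fam.pow (Fam.const 2) (Fam.sub Fam.id (Fam.const k))))

theorem tg_shift (a k m : ℕ) : tg a k = tg (a * 4 ^ m) (k + m) := by
  refine gm_eq.2 ?_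
  filter_upwards [ev_large (k + m)] with n hn
  rw [mul_assoc, ← pow_add, show m + (n - (k + m)) = n - k by omega]

theorem vg_shift (a k m : ℕ) : vg a k = vg (a * 2 ^ m) (k + m) := by
  refine gm_eq.2 ?_
  filter_upwards [ev_large (k + m)] with n hn
  rw [mul_assoc, ← pow_add, show m + (n - (k + m)) = n - k by omega]

theorem tg_le {a b k : ℕ} (h : a ≤ b) : tg a k ≤ tg b k :=
  gm_le.2 (Eventually.of_forall fun _ => Nat.mul_le_mul_right _ h)

theorem vg_le {a b k : ℕ} (h : a ≤ b) : vg a k ≤ vg b k :=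
  gm_le.2 (Eventually.of_forall fun _ => Nat.mul_le_mul_right _ h)

theorem tg_lt {a b k : ℕ} (h : a < b) : tg a k < tg b k :=
  gm_lt.2 (Eventually.of_forall fun _ => Nat.mul_lt_mul_of_pos_right h (by positivity))

theorem vg_lt {a b k : ℕ} (h : a < b) : vg a k < vg b k :=
  gm_lt.2 (Eventually.of_forall fun _ => Nat.mul_lt_mul_of_pos_right h (by positivity))

theorem tg_add_lt {a b k : ℕ} (h : a < b) (c : ℕ) : tg a k + gm (fun _ => c) ≤ tg b k := by
  show gm (fun n => a * 4 ^ (n - k) + c) ≤ _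
  refine gm_le.2 ?_
  filter_upwards [ev_large (k + c)] with n hn
  have h1 : c ≤ 4 ^ (n - k) := by
    calc c ≤ n - k := by omega
      _ ≤ 4 ^ (n - k) := (Nat.lt_pow_self (by norm_num)).le
  calc a * 4 ^ (n - k) + c ≤ a * 4 ^ (n - k) + 4 ^ (n - k) := by omega
    _ = (a + 1) * 4 ^ (n - k) := by ring
    _ ≤ b * 4 ^ (n - k) := Nat.mul_le_mul_right _ h

/-- A digit sequence: `q (k+1)` extends `q k` by one base-4 digit. -/
def IsDig (q : ℕ → ℕ) : Prop := q 0 = 0 ∧ ∀ k, ∃ d < 4, q (k + 1) = 4 * q k + d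

theorem IsDig.add {q : ℕ → ℕ} (h : IsDig q) (k m : ℕ) :
    ∃ r < 4 ^ m, q (k + m) = q k * 4 ^ m + r := by
  induction m with
  | zero => exact ⟨0, by simp, by simp⟩
  | succ m ih =>
    obtain ⟨r, hr, h1⟩ := ih
    obtain ⟨d, hd, h2⟩ := h.2 (k + m)
    refine ⟨4 * r + d, by rw [pow_succ]; omega, ?_⟩
    rw [← add_assoc, h2, h1]; ring

theorem IsDig.t_mono {q : ℕ → ℕ} (h : IsDig q) {k k' : ℕ} (hk : k ≤ k') :
    tg (q k) k ≤ tg (q k') k' := by
  obtain ⟨m, rfl⟩ := Nat.exists_eq_add_of_le hk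
  obtain ⟨r, _, h1⟩ := h.add k m
  rw [tg_shift (q k) k m, h1]
  exact tg_le (by omega)

theorem IsDig.t_up {q : ℕ → ℕ} (h : IsDig q) {k k' : ℕ} (hk : k ≤ k') :
    tg (q k' + 1) k' ≤ tg (q k + 1) k := by
  obtain ⟨m, rfl⟩ := Nat.exists_eq_add_of_le hk
  obtain ⟨r, hr, h1⟩ := h.add k m
  rw [tg_shift (q k + 1) k m, h1]
  exact tg_le (by ring_nf; omega)

theorem IsDig.t_lt {q : ℕ → ℕ} (h : IsDig q) (k k' : ℕ) :
    tg (q k) k < tg (q k' + 1) k' := by
  rcases le_total k k' with hk | hk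
  · exact (h.t_mono hk).trans_lt (tg_lt (Nat.lt_succ_self _))
  · exact (tg_lt (Nat.lt_succ_self _)).trans_le (h.t_up hk)

theorem IsDig.ev_add {q : ℕ → ℕ} (h : IsDig q) (k m : ℕ) :
    ∃ r < 2 ^ m, ev (q (k + m)) = ev (q k) * 2 ^ m + r := by
  obtain ⟨r, hr, h1⟩ := h.add k m
  exact ⟨ev r, ev_lt m r hr, by rw [h1, ev_split _ _ _ hr]⟩

theorem IsDig.v_mono {q : ℕ → ℕ} (h : IsDig q) {k k' : ℕ} (hk : k ≤ k') :
    vg (ev (q k)) k ≤ vg (ev (q k')) k' := by
  obtain ⟨m, rfl⟩ := Nat.exists_eq_add_of_le hk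
  obtain ⟨r, _, h1⟩ := h.ev_add k m
  rw [vg_shift (ev (q k)) k m, h1]
  exact vg_le (by omega)

theorem IsDig.v_up {q : ℕ → ℕ} (h : IsDig q) {k k' : ℕ} (hk : k ≤ k') :
    vg (ev (q k') + 1) k' ≤ vg (ev (q k) + 1) k := by
  obtain ⟨m, rfl⟩ := Nat.exists_eq_add_of_le hk
  obtain ⟨r, hr, h1⟩ := h.ev_add k m
  rw [vg_shift (ev (q k) + 1) k m, h1]
  exact vg_le (by ring_nf; omega)

theorem IsDig.v_lt {q : ℕ → ℕ} (h : IsDig q) (k k' : ℕ) :
    vg (ev (q k)) k < vg (ev (q k') + 1) k' := by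
  rcases le_total k k' with hk | hk
  · exact (h.v_mono hk).trans_lt (vg_lt (Nat.lt_succ_self _))
  · exact (vg_lt (Nat.lt_succ_self _)).trans_le (h.v_up hk)

/-- The lift of `ev` to the ultrapower. -/
noncomputable def evs : Ns → Ns := Germ.map ev

/-- On the box of stage `k`, the function `ev` takes values in the value box. -/
theorem evs_box (a k : ℕ) (j : Ns) (h1 : tg a k ≤ j) (h2 : j < tg (a + 1) k) :
    vg (ev a) k ≤ evs j ∧ evs j < vg (ev a + 1) k := by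
  induction j using Germ.inductionOn with
  | h f =>
    have h3 : ∀ᶠ n in (hyperfilter ℕ : Filter ℕ), ev a * 2 ^ (n - k) ≤ ev (f n) ∧
        ev (f n) < (ev a + 1) * 2 ^ (n - k) := by
      filter_upwards [gm_le.1 h1, gm_lt.1 h2] with n hn1 hn2
      obtain ⟨r, hr⟩ := Nat.exists_eq_add_of_le hn1
      have hr' : r < 4 ^ (n - k) := by
        rw [hr] at hn2
        have : (a + 1) * 4 ^ (n - k) = a * 4 ^ (n - k) + 4 ^ (n - k) := by ring
        omega
      rw [hr, ev_split _ _ _ hr']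
      have := ev_lt _ _ hr'
      constructor
      · omega
      · have : (ev a + 1) * 2 ^ (n - k) = ev a * 2 ^ (n - k) + 2 ^ (n - k) := by ring
        omega
    exact ⟨gm_le.2 (h3.mono fun n hn => hn.1), gm_lt.2 (h3.mono fun n hn => hn.2)⟩

/-- The midpoint of the time box. -/
noncomputable def tmid (q : ℕ → ℕ) (k : ℕ) : Ns := tg (4 * q k + 2) (k + 1)

/-- The midpoint of the value box. -/
noncomputable def vmid (q : ℕ → ℕ) (k : ℕ) : Ns := vg (2 * ev (q k) + 1) (k + 1)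

/-- Requirements met by a generic digit sequence. -/
structure Generic (P Q : ℕ → Ns → Ns → Prop) (Y : ℕ → Ns) (q : ℕ → ℕ) : Prop where
  dig : IsDig q
  reqP : ∀ i, ∃ k, ((∃ y, vmid q k ≤ y ∧ P i (tmid q k) y) ∧ q (k + 1) = 4 * q k + 2) ∨
    ((¬ ∃ y, vmid q k ≤ y ∧ P i (tmid q k) y) ∧ q (k + 1) = 4 * q k + 1)
  reqQ : ∀ i, ∃ k, ((∃ y, y < vmid q k ∧ Q i (tmid q k) y) ∧ q (k + 1) = 4 * q k + 3) ∨
    ((¬ ∃ y, y < vmid q k ∧ Q i (tmid q k) y) ∧ q (k + 1) = 4 * q k)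
  reqY : ∀ i, ∃ k, (vmid q k ≤ Y i ∧ q (k + 1) = 4 * q k) ∨
    (Y i < vmid q k ∧ q (k + 1) = 4 * q k + 1)

section construction

variable (P Q : ℕ → Ns → Ns → Prop) (Y : ℕ → Ns)

open Classical in
/-- One step of the construction. -/
noncomputable def nextq (i r a k : ℕ) : ℕ :=
  if r = 0 then
    (if ∃ y, vg (2 * ev a + 1) (k + 1) ≤ y ∧ P i (tg (4 * a + 2) (k + 1)) y then 4 * a + 2
      else 4 * a + 1)
  else if r = 1 then
    (if ∃ y, y < vg (2 * ev a + 1) (k + 1) ∧ Q i (tg (4 * a + 2) (k + 1)) y then 4 * a + 3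
      else 4 * a)
  else
    (if vg (2 * ev a + 1) (k + 1) ≤ Y i then 4 * a else 4 * a + 1)

/-- The generic digit sequence. -/
noncomputable def gq : ℕ → ℕ
  | 0 => 0
  | k + 1 => nextq P Q Y (k / 3) (k % 3) (gq k) k

theorem nextq_dig (i r a k : ℕ) : ∃ d < 4, nextq P Q Y i r a k = 4 * a + d := by
  unfold nextq
  split_ifs
  · exact ⟨2, by norm_num, rfl⟩
  · exact ⟨1, by norm_num, rfl⟩
  · exact ⟨3, by norm_num, rfl⟩
  · exact ⟨0, by norm_num, rfl⟩
  · exact ⟨0, by norm_num, rfl⟩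
  · exact ⟨1, by norm_num, rfl⟩

theorem gq_succ (i r : ℕ) (hr : r < 3) :
    gq P Q Y (3 * i + r + 1) = nextq P Q Y i r (gq P Q Y (3 * i + r)) (3 * i + r) := by
  rw [gq, show (3 * i + r) / 3 = i by omega, show (3 * i + r) % 3 = r by omega]

theorem gq_generic : Generic P Q Y (gq P Q Y) where
  dig := ⟨by rw [gq], fun k => by rw [gq]; exact nextq_dig P Q Y _ _ _ _⟩
  reqP := by
    intro i
    refine ⟨3 * i + 0, ?_⟩
    rw [gq_succ P Q Y i 0 (by norm_num)]
    by_cases h : ∃ y, vmid (gq P Q Y) (3 * i + 0) ≤ y ∧ P i (tmid (gq P Q Y) (3 * i + 0)) y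
    · left
      refine ⟨h, ?_⟩
      unfold nextq
      rw [if_pos rfl]
      exact if_pos h
    · right
      refine ⟨h, ?_⟩
      unfold nextq
      rw [if_pos rfl]
      exact if_neg h
  reqQ := by
    intro i
    refine ⟨3 * i + 1, ?_⟩
    rw [gq_succ P Q Y i 1 (by norm_num)]
    by_cases h : ∃ y, y < vmid (gq P Q Y) (3 * i + 1) ∧ Q i (tmid (gq P Q Y) (3 * i + 1)) y
    · left
      refine ⟨h, ?_⟩
      unfold nextq
      rw [if_neg (by norm_num), if_pos rfl]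
      exact if_pos h
    · right
      refine ⟨h, ?_⟩
      unfold nextq
      rw [if_neg (by norm_num), if_pos rfl]
      exact if_neg h
  reqY := by
    intro i
    refine ⟨3 * i + 2, ?_⟩
    rw [gq_succ P Q Y i 2 (by norm_num)]
    by_cases h : vmid (gq P Q Y) (3 * i + 2) ≤ Y i
    · left
      refine ⟨h, ?_⟩
      unfold nextq
      rw [if_neg (by norm_num), if_neg (by norm_num)]
      exact if_pos h
    · right
      refine ⟨not_le.1 h, ?_⟩
      unfold nextq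
      rw [if_neg (by norm_num), if_neg (by norm_num)]
      exact if_neg h

end construction

section generic

variable {P Q : ℕ → Ns → Ns → Prop} {Y : ℕ → Ns} {q : ℕ → ℕ}

/-- Every listed element is decided. -/
theorem Generic.decided (h : Generic P Q Y q) (i : ℕ) :
    ∃ k, Y i < vg (ev (q k)) k ∨ vg (ev (q k) + 1) k ≤ Y i := by
  obtain ⟨k, ⟨h1, h2⟩ | ⟨h1, h2⟩⟩ := h.reqY i
  · refine ⟨k + 1, Or.inr ?_⟩
    have h3 : ev (q (k + 1)) = 2 * ev (q k) := by
      rw [h2]; exact ev_four _ 0 (by norm_num)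
    rw [h3]; exact h1
  · refine ⟨k + 1, Or.inl ?_⟩
    have h3 : ev (q (k + 1)) = 2 * ev (q k) + 1 := by
      rw [h2]; exact ev_four _ 1 (by norm_num)
    rw [h3]; exact h1

end generic

end Pool.Agent.Helper92.Cut
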