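import Pool.Agent.Helper92.Cut.NatDef

/-! A `Σ₁`-approximable function dominating all recursive functions. -/

namespace Pool.Agent.Helper92.Cut

open Nat.Partrec (Code)

/-- The universal relation. -/
def Uni (c x y : ℕ) : Prop := y ∈ Code.eval (Denumerable.ofNat Code c) x

theorem S1_uni : S1 (fun e => Uni (e 2) (e 1) (e 0)) := by
  have h1 : Nat.Partrec (fun n : ℕ => Code.eval (Denumerable.ofNat Code n.unpair.1) n.unpair.2) := by
    refine Partrec.nat_iff.1 ?_
    exact Nat.Partrec.Code.eval_part.comp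
      ((Computable.ofNat Code).comp (Computable.fst.comp Computable.unpair))
      (Computable.snd.comp Computable.unpair)
  have h2 := partrec_S1 h1
  have h3 : S1 (fun e => ∃ p, Nat.pair (e 2) (e 1) = p ∧
      e 0 ∈ Code.eval (Denumerable.ofNat Code p.unpair.1) p.unpair.2) := by
    refine S1.ex' (Q := fun p e => Nat.pair (e 2) (e 1) = p ∧
      e 0 ∈ Code.eval (Denumerable.ofNat Code p.unpair.1) p.unpair.2) ?_
    refine S1.and ?_ ?_
    · exact S1.pair (T0.var 3) (T0.var 2) (T0.var 0)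
    · exact S1.comp2 (R := fun y p => y ∈ Code.eval (Denumerable.ofNat Code p.unpair.1) p.unpair.2)
        h2 (T0.var 1) (T0.var 0)
  refine h3.of_iff fun e => ?_
  unfold Uni
  constructor
  · rintro ⟨p, rfl, h⟩
    rw [Nat.unpair_pair] at h
    exact h
  · intro h
    refine ⟨_, rfl, ?_⟩
    rw [Nat.unpair_pair]
    exact h

open Classical in
/-- The value of the universal function, `0` if undefined. -/
noncomputable def uval (c x : ℕ) : ℕ :=
  if h : (Code.eval (Denumerable.ofNat Code c) x).Dom then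
    (Code.eval (Denumerable.ofNat Code c) x).get h else 0

theorem uval_eq {c x y : ℕ} (h : Uni c x y) : uval c x = y := by
  obtain ⟨h1, h2⟩ := h
  unfold uval
  rw [dif_pos h1]
  exact h2

theorem uni_of_uval {c x : ℕ} (h : uval c x ≠ 0) : Uni c x (uval c x) := by
  unfold uval at *
  split_ifs at h ⊢ with h'
  · exact ⟨h', rfl⟩
  · exact absurd rfl h

/-- The growth function. -/
noncomputable def G : ℕ → ℕ
  | 0 => 0
  | t + 1 => max (G t + 1)
      ((Finset.range (t + 1)).sup fun c => (Finset.range (G t + 1)).sup fun x => uval c x)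

theorem G_succ_gt (t : ℕ) : G t < G (t + 1) := by
  rw [G]; exact Nat.lt_of_succ_le (le_max_left _ _)

theorem G_strictMono : StrictMono G := strictMono_nat_of_lt_succ G_succ_gt

theorem le_G (t : ℕ) : t ≤ G t := G_strictMono.le_apply

theorem G_dom {c x y t : ℕ} (hc : c ≤ t) (hx : x ≤ G t) (h : Uni c x y) : y ≤ G (t + 1) := by
  rw [G, ← uval_eq h]
  refine le_max_of_le_right ?_
  have h1 : uval c x ≤ (Finset.range (G t + 1)).sup fun x => uval c x :=
    Finset.le_sup (f := fun x => uval c x) (Finset.mem_range.2 (Nat.lt_succ_of_le hx))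
  exact h1.trans (Finset.le_sup (f := fun c => (Finset.range (G t + 1)).sup fun x => uval c x)
    (Finset.mem_range.2 (Nat.lt_succ_of_le hc)))

theorem G_chain (t : ℕ) : G (t + 1) = G t + 1 ∨ ∃ c, c < t + 1 ∧ ∃ x, x < G t + 1 ∧
    Uni c x (G (t + 1)) := by
  rw [G]
  rcases le_total (G t + 1)
    ((Finset.range (t + 1)).sup fun c => (Finset.range (G t + 1)).sup fun x => uval c x) with h | h
  · right
    rw [max_eq_right h]
    obtain ⟨c, hc, hc'⟩ := Finset.exists_mem_eq_sup (Finset.range (t + 1)) ⟨0, by simp⟩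
      (fun c => (Finset.range (G t + 1)).sup fun x => uval c x)
    obtain ⟨x, hx, hx'⟩ := Finset.exists_mem_eq_sup (Finset.range (G t + 1)) ⟨0, by simp⟩
      (fun x => uval c x)
    refine ⟨c, Finset.mem_range.1 hc, x, Finset.mem_range.1 hx, ?_⟩
    rw [hc'] at h ⊢
    simp only [hx'] at h ⊢
    exact uni_of_uval (by omega)
  · left
    exact max_eq_left h

theorem lt_G_iff (t z : ℕ) : z < G t ↔ ∃ s, Nat.beta s 0 = 0 ∧
    (∀ i < t, ∃ u, ∃ v, (Nat.beta s i = u ∧ Nat.beta s (i + 1) = v) ∧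
      (v = u + 1 ∨ ∃ c, c < i + 1 ∧ ∃ x, x < u + 1 ∧ Uni c x v)) ∧
    ∃ w, Nat.beta s t = w ∧ z < w := by
  constructor
  · intro h
    obtain ⟨s, hs⟩ := exists_beta t G
    refine ⟨s, by rw [hs 0 (Nat.zero_le _)]; rfl, fun i hi => ?_, G t, hs t le_rfl, h⟩
    exact ⟨G i, G (i + 1), ⟨hs i hi.le, hs (i + 1) hi⟩, G_chain i⟩
  · rintro ⟨s, h0, h1, w, hw, hz⟩
    have h2 : ∀ i ≤ t, Nat.beta s i ≤ G i := by
      intro i
      induction i with
      | zero => intro _; rw [h0]; exact Nat.zero_le _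
      | succ i ih =>
        intro hi
        obtain ⟨u, v, ⟨hu, hv⟩, h3⟩ := h1 i hi
        have h4 := ih (by omega)
        rw [hv]
        rw [hu] at h4
        rcases h3 with h3 | ⟨c, hc, x, hx, h3⟩
        · have := G_succ_gt i
          omega
        · exact G_dom (t := i) (by omega) (by omega) h3
    have := h2 t le_rfl
    omega

theorem S1_lt_G : S1 (fun e => e 0 < G (e 1)) := by
  have h : S1 (fun e => ∃ s, Nat.beta s 0 = 0 ∧
    (∀ i < e 1, ∃ u, ∃ v, (Nat.beta s i = u ∧ Nat.beta s (i + 1) = v) ∧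
      (v = u + 1 ∨ ∃ c, c < i + 1 ∧ ∃ x, x < u + 1 ∧ Uni c x v)) ∧
    ∃ w, Nat.beta s (e 1) = w ∧ e 0 < w) := by
    refine S1.ex' (Q := fun s e => Nat.beta s 0 = 0 ∧
      (∀ i < e 1, ∃ u, ∃ v, (Nat.beta s i = u ∧ Nat.beta s (i + 1) = v) ∧
      (v = u + 1 ∨ ∃ c, c < i + 1 ∧ ∃ x, x < u + 1 ∧ Uni c x v)) ∧
      ∃ w, Nat.beta s (e 1) = w ∧ e 0 < w) ?_
    refine S1.and ?_ (S1.and ?_ ?_)
    · exact S1.beta' (T0.var 0) T0.zero T0.zero
    · refine S1.ball' (f := fun e => e 2) (Q := fun i e => ∃ u, ∃ v,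
        (Nat.beta (e 0) i = u ∧ Nat.beta (e 0) (i + 1) = v) ∧
        (v = u + 1 ∨ ∃ c, c < i + 1 ∧ ∃ x, x < u + 1 ∧ Uni c x v)) (T0.var 2) ?_
      refine S1.ex' (Q := fun u e => ∃ v,
        (Nat.beta (e 1) (e 0) = u ∧ Nat.beta (e 1) (e 0 + 1) = v) ∧
        (v = u + 1 ∨ ∃ c, c < e 0 + 1 ∧ ∃ x, x < u + 1 ∧ Uni c x v)) ?_
      refine S1.ex' (Q := fun v e =>
        (Nat.beta (e 2) (e 1) = e 0 ∧ Nat.beta (e 2) (e 1 + 1) = v) ∧
        (v = e 0 + 1 ∨ ∃ c, c < e 1 + 1 ∧ ∃ x, x < e 0 + 1 ∧ Uni c x v)) ?_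
      refine S1.and (S1.and ?_ ?_) (S1.or ?_ ?_)
      · exact S1.beta' (T0.var 3) (T0.var 2) (T0.var 1)
      · exact S1.beta' (T0.var 3) ((T0.var 2).add T0.one) (T0.var 0)
      · exact (D0.eq (T0.var 0) ((T0.var 1).add T0.one)).toS1
      · refine S1.bex' (f := fun e => e 2 + 1) (Q := fun c e => ∃ x, x < e 1 + 1 ∧ Uni c x (e 0))
          ((T0.var 2).add T0.one) ?_
        refine S1.bex' (f := fun e => e 2 + 1) (Q := fun x e => Uni (e 0) x (e 1))
          ((T0.var 2).add T0.one) ?_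
        exact S1.comp3 (R := fun y x c => Uni c x y) S1_uni (T0.var 2) (T0.var 0) (T0.var 1)
    · refine S1.ex' (Q := fun w e => Nat.beta (e 0) (e 2) = w ∧ e 1 < w) ?_
      refine S1.and ?_ ?_
      · exact S1.beta' (T0.var 1) (T0.var 3) (T0.var 0)
      · exact (D0.lt (T0.var 2) (T0.var 0)).toS1
  exact h.of_iff fun e => (lt_G_iff (e 1) (e 0)).symm

end Pool.Agent.Helper92.Cut
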