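import Pool.Agent.Helper92.Cut.Result

/-! `Σ₁`-induction in the model. -/

namespace Pool.Agent.Helper92.Cut

open Filter

variable {P Q : ℕ → Ns → Ns → Prop} {Y : ℕ → Ns} {q : ℕ → ℕ}

theorem Full.induction1 (h : Full P Q Y q) : Induction h.model (IsSigma 1) := by
  rintro φ ⟨k, δ, hδ, rfl⟩ e H0 HS
  have hδ' : δ.IsDelta0 := by simpa [IsPi] using hδ
  simp only [sat_sub, coe_cons] at H0 HS ⊢
  have he : ∀ i, (fun i => (e i).1 : ℕ → Ns) i ∈ MM q := fun i => (e i).2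
  generalize (fun i => (e i).1 : ℕ → Ns) = e' at H0 HS he ⊢
  rintro ⟨b, hb⟩
  by_contra hc
  have h1 : (Fm.neg (Fm.ex^[k] δ)).SatIn NsA S0 (cons b e') := fun h2 =>
    hc ((h.sigma1 k δ hδ' _ (cons_mem _ _ _ hb he)).2 h2)
  obtain ⟨c, hc1, hc2, hc3⟩ := S0_least _ e' (fun i => (he i).1) b hb.1 h1
  have hcM : c ∈ MM q := ⟨hc1, hb.2.mono (hc3 b hb.1 h1)⟩
  have hc4 : ¬ (Fm.ex^[k] δ).SatIn NsA (MM q) (cons c e') := fun h2 =>
    hc2 ((h.sigma1 k δ hδ' _ (cons_mem _ _ _ hcM he)).1 h2)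
  obtain ⟨f, hf, rfl⟩ := hc1
  by_cases h0 : gm f = gm (fun _ => 0)
  · rw [h0] at hc4
    exact hc4 H0
  · have hpos : ∀ᶠ n in (hyperfilter ℕ : Filter ℕ), 0 < f n := by
      have h2 : ¬ ∀ᶠ n in (hyperfilter ℕ : Filter ℕ), f n = 0 := fun h3 => h0 (gm_eq.2 h3)
      rw [← Ultrafilter.eventually_not] at h2
      filter_upwards [h2] with n hn
      omega
    have hpred : gm (fun n => f n - 1) ∈ S0 := gm_mem (Fam.sub hf (Fam.const 1))
    have hlt : gm (fun n => f n - 1) < gm f := gm_lt.2 (hpos.mono fun n hn => by omega)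
    have hpM : gm (fun n => f n - 1) ∈ MM q := MM_init _ hpred _ hcM hlt
    have h4 : (Fm.ex^[k] δ).SatIn NsA (MM q) (cons (gm (fun n => f n - 1)) e') := by
      by_contra h5
      exact absurd (hc3 _ hpred fun h6 =>
        h5 ((h.sigma1 k δ hδ' _ (cons_mem _ _ _ hpM he)).2 h6)) (not_le.2 hlt)
    have h7 := HS ⟨_, hpM⟩ h4
    have h8 : (h.model.add (⟨_, hpM⟩ : h.model.D) h.model.one).1 = gm f := by
      refine gm_eq (f := fun n => f n - 1 + 1).2 ?_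
      filter_upwards [hpos] with n hn
      omega
    rw [h8] at h7
    exact hc4 h7

theorem main' : ∃ M : Arith, PAminus M ∧ Induction M (IsSigma 1) ∧ Bounding M (IsSigma 2) ∧
    ¬ Induction M (IsSigma 2) ∧
    ∃ J : Set M.D, IsCut M J ∧
      (∀ x ∈ J, ∀ y ∈ J, M.add x y ∈ J ∧ M.mul x y ∈ J ∧ M.pow x y ∈ J) ∧
      DefinableBy M (IsSigma 3) J ∧ DefinableBy M (IsPi 3) J ∧
      ¬ DefinableBy M (IsSigma 2) J ∧ ¬ DefinableBy M (IsPi 2) J := by
  obtain ⟨P, Q, Y, q, h, hP, hQ⟩ := exists_full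
  exact ⟨h.model, h.paminus, h.induction1, h.bounding, h.not_induction, h.J, h.isCut, h.J_closed,
    h.sigma3, h.pi3, h.not_sigma2 hP, h.not_pi2 hQ⟩

end Pool.Agent.Helper92.Cut
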