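import Pool.Agent.Helper92.Cut.Generic

/-! The initial segment determined by a generic digit sequence. -/

namespace Pool.Agent.Helper92.Cut

open Filter

/-- The lift of the growth function to the ultrapower. -/
noncomputable def Gs : Ns → Ns := Germ.map G

theorem Gs_gm (f : ℕ → ℕ) : Gs (gm f) = gm (fun n => G (f n)) := rfl

theorem Gs_mono : Monotone Gs := by
  intro x y h
  induction x using Germ.inductionOn with
  | h f =>
    induction y using Germ.inductionOn with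
    | h g =>
      exact gm_le.2 ((gm_le.1 h).mono fun n hn => G_strictMono.monotone hn)

theorem Gs_strictMono : StrictMono Gs := by
  intro x y h
  induction x using Germ.inductionOn with
  | h f =>
    induction y using Germ.inductionOn with
    | h g =>
      exact gm_lt.2 ((gm_lt.1 h).mono fun n hn => G_strictMono hn)

theorem le_Gs (x : Ns) : x ≤ Gs x := by
  induction x using Germ.inductionOn with
  | h f => exact gm_le.2 (Eventually.of_forall fun n => le_G _)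

theorem Gs_mem {x : Ns} (h : x ∈ S0) : Gs x ∈ S0 := by
  obtain ⟨f, hf, rfl⟩ := h
  exact gm_mem (Fam.G hf)

section

variable {P Q : ℕ → Ns → Ns → Prop} {Y : ℕ → Ns} {q : ℕ → ℕ}

/-- Data of a generic sequence with all elements of `S0` listed. -/
structure Full (P Q : ℕ → Ns → Ns → Prop) (Y : ℕ → Ns) (q : ℕ → ℕ) : Prop extends
    Generic P Q Y q where
  list : ∀ y ∈ S0, ∃ i, Y i = y

theorem Full.decd (h : Full P Q Y q) (y : Ns) (hy : y ∈ S0) :
    ∃ k, y < vg (ev (q k)) k ∨ vg (ev (q k) + 1) k ≤ y := by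
  obtain ⟨i, rfl⟩ := h.list y hy
  exact h.toGeneric.decided i

theorem Full.gen_v (h : Full P Q Y q) (k : ℕ) : ∃ k', k ≤ k' ∧
    vg (ev (q k)) k < vg (ev (q k')) k' := by
  obtain ⟨k', h1 | h1⟩ := h.decd _ (vg_mem (ev (q k)) k)
  · refine ⟨k', ?_, h1⟩
    by_contra hk
    exact absurd (h.dig.v_mono (not_le.1 hk).le) (not_le.2 h1)
  · exact absurd (h.dig.v_lt k k') (not_lt.2 h1)

theorem Full.gen_u (h : Full P Q Y q) (k : ℕ) : ∃ k', k ≤ k' ∧
    vg (ev (q k') + 1) k' < vg (ev (q k) + 1) k := by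
  have hmem : gm (fun n => (ev (q k) + 1) * 2 ^ (n - k) - 1) ∈ S0 :=
    gm_mem (Fam.sub (Fam.mul (Fam.const _) (Fam.pow (Fam.const 2)
      (Fam.sub Fam.id (Fam.const k)))) (Fam.const 1))
  have hlt : gm (fun n => (ev (q k) + 1) * 2 ^ (n - k) - 1) < vg (ev (q k) + 1) k := by
    refine gm_lt.2 (Eventually.of_forall fun n => ?_)
    have : 0 < (ev (q k) + 1) * 2 ^ (n - k) := by positivity
    omega
  obtain ⟨k', h1 | h1⟩ := h.decd _ hmem
  · exfalso
    have h2 := h.dig.v_lt k' k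
    unfold vg at h1 h2
    obtain ⟨n, hn1, hn2⟩ := ((gm_lt.1 h1).and (gm_lt.1 h2)).exists
    omega
  · have h2 := h1.trans_lt hlt
    refine ⟨k', ?_, h2⟩
    by_contra hk
    exact absurd (h.dig.v_up (not_le.1 hk).le) (not_le.2 h2)

theorem Full.gen_t (h : Full P Q Y q) (k : ℕ) : ∃ k', k ≤ k' ∧
    ∀ c : ℕ, tg (q k) k + gm (fun _ => c) ≤ tg (q k') k' := by
  obtain ⟨k', h1, h2⟩ := h.gen_v k
  refine ⟨k', h1, fun c => ?_⟩
  obtain ⟨m, rfl⟩ := Nat.exists_eq_add_of_le h1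
  obtain ⟨r, hr, h3⟩ := h.dig.add k m
  rw [tg_shift (q k) k m]
  refine tg_add_lt ?_ c
  rcases Nat.eq_zero_or_pos r with rfl | hr0
  · exfalso
    rw [h3, ev_split m (q k) 0 (by positivity), ev_zero, add_zero, ← vg_shift] at h2
    exact lt_irrefl _ h2
  · omega

theorem Full.gen_pos (h : Full P Q Y q) : ∃ K, ∀ k, K ≤ k → 1 ≤ q k := by
  obtain ⟨k', h1, h2⟩ := h.gen_v 0
  refine ⟨k', fun k hk => ?_⟩
  obtain ⟨m, rfl⟩ := Nat.exists_eq_add_of_le hk
  obtain ⟨r, hr, h3⟩ := h.dig.add k' m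
  have h4 : 1 ≤ q k' := by
    by_contra hc
    have h5 : q k' = 0 := by omega
    rw [h5, h.dig.1, ev_zero] at h2
    unfold vg at h2
    obtain ⟨n, hn⟩ := (gm_lt.1 h2).exists
    omega
  rw [h3]
  have : 1 * 1 ≤ q k' * 4 ^ m := Nat.mul_le_mul h4 (Nat.one_le_pow _ _ (by norm_num))
  omega

/-- Bounded by the growth function along the cut. -/
def Bdd (q : ℕ → ℕ) (x : Ns) : Prop := ∃ k, x ≤ Gs (tg (q k) k)

theorem Bdd.mono {x y : Ns} (h : Bdd q y) (hxy : x ≤ y) : Bdd q x := by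
  obtain ⟨k, hk⟩ := h
  exact ⟨k, hxy.trans hk⟩

/-- Passing to a larger and better index. -/
theorem Full.bdd_up (h : Full P Q Y q) {x : Ns} (hx : Bdd q x) (K : ℕ) :
    ∃ k, K ≤ k ∧ 1 ≤ q k ∧ x ≤ Gs (tg (q k) k) := by
  obtain ⟨k, hk⟩ := hx
  obtain ⟨K', hK'⟩ := h.gen_pos
  refine ⟨max K (max k K'), le_max_left _ _, hK' _ (by omega), hk.trans (Gs_mono ?_)⟩
  exact h.dig.t_mono (by omega)

theorem tg_large (a k T : ℕ) (ha : 1 ≤ a) :
    ∀ᶠ n in (hyperfilter ℕ : Filter ℕ), T ≤ a * 4 ^ (n - k) := by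
  filter_upwards [ev_large (k + T)] with n hn
  calc T ≤ n - k := by omega
    _ ≤ 4 ^ (n - k) := (Nat.lt_pow_self (by norm_num)).le
    _ = 1 * 4 ^ (n - k) := by ring
    _ ≤ a * 4 ^ (n - k) := Nat.mul_le_mul_right _ ha

/-- The main domination principle: a pointwise bound holding at large stages of the growth
function is a bound along the cut. -/
theorem Full.bdd_of_dom (h : Full P Q Y q) {f p : ℕ → ℕ} (hp : Bdd q (gm p)) (T : ℕ)
    (hf : ∀ᶠ n in (hyperfilter ℕ : Filter ℕ), ∀ t, T ≤ t → p n ≤ G t → f n ≤ G (t + 1)) :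
    Bdd q (gm f) := by
  obtain ⟨k, _, h1, h2⟩ := h.bdd_up hp 0
  obtain ⟨k', h3, h4⟩ := h.gen_t k
  refine ⟨k', ?_⟩
  have h5 := h4 1
  have h6 : ∀ᶠ n in (hyperfilter ℕ : Filter ℕ), q k * 4 ^ (n - k) + 1 ≤ q k' * 4 ^ (n - k') :=
    gm_le.1 h5
  refine gm_le.2 ?_
  filter_upwards [hf, gm_le.1 h2, h6, tg_large (q k) k T h1] with n hn1 hn2 hn3 hn4
  exact (hn1 _ hn4 hn2).trans (G_strictMono.monotone hn3)

theorem Full.bdd_pow (h : Full P Q Y q) {f g r : ℕ → ℕ} (hf : Bdd q (gm f)) (hg : Bdd q (gm g))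
    (hr : ∀ n, r n ≤ (max (f n) (g n) + 2) ^ (max (f n) (g n) + 2)) : Bdd q (gm r) := by
  have hm : Bdd q (gm (fun n => max (f n) (g n))) := by
    rcases le_total (gm f) (gm g) with h1 | h1
    · refine hg.mono (gm_le.2 ?_)
      filter_upwards [gm_le.1 h1] with n hn
      exact max_le hn le_rfl
    · refine hf.mono (gm_le.2 ?_)
      filter_upwards [gm_le.1 h1] with n hn
      exact max_le le_rfl hn
  obtain ⟨T, hT⟩ := G_pow
  refine h.bdd_of_dom hm T (Eventually.of_forall fun n t ht hn => ?_)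
  refine (hr n).trans (le_trans ?_ (hT t ht))
  calc (max (f n) (g n) + 2) ^ (max (f n) (g n) + 2)
      ≤ (max (f n) (g n) + 2) ^ (G t + 2) := Nat.pow_le_pow_right (by omega) (by omega)
    _ ≤ (G t + 2) ^ (G t + 2) := Nat.pow_le_pow_left (by omega) _

/-- The model: elements of `S0` bounded along the cut. -/
def MM (q : ℕ → ℕ) : Set Ns := {x | x ∈ S0 ∧ Bdd q x}

theorem MM_sub : MM q ⊆ S0 := fun _ h => h.1

theorem MM_init (x : Ns) (hx : x ∈ S0) (y : Ns) (hy : y ∈ MM q) (h : x < y) : x ∈ MM q :=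
  ⟨hx, hy.2.mono h.le⟩

theorem Full.closed (h : Full P Q Y q) : Closed NsA (MM q) where
  zero := ⟨S0_closed.zero, 0, gm_le (f := fun _ => 0).2
    (Eventually.of_forall fun _ => Nat.zero_le _)⟩
  one := by
    refine ⟨S0_closed.one, ?_⟩
    have h0 : Bdd q (gm (fun _ => 0)) :=
      ⟨0, gm_le.2 (Eventually.of_forall fun _ => Nat.zero_le _)⟩
    exact h.bdd_pow (r := fun _ => 1) h0 h0 (fun n => Nat.one_le_pow _ _ (by omega))
  add := by
    rintro x ⟨⟨f, hf, rfl⟩, hfb⟩ y ⟨⟨g, hg, rfl⟩, hgb⟩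
    refine ⟨gm_mem (Fam.add hf hg), h.bdd_pow (r := fun n => f n + g n) hfb hgb fun n => ?_⟩
    calc f n + g n ≤ 2 * (max (f n) (g n) + 2) := by omega
      _ ≤ (max (f n) (g n) + 2) * (max (f n) (g n) + 2) := Nat.mul_le_mul_right _ (by omega)
      _ = (max (f n) (g n) + 2) ^ 2 := by ring
      _ ≤ _ := Nat.pow_le_pow_right (by omega) (by omega)
  mul := by
    rintro x ⟨⟨f, hf, rfl⟩, hfb⟩ y ⟨⟨g, hg, rfl⟩, hgb⟩
    refine ⟨gm_mem (Fam.mul hf hg), h.bdd_pow (r := fun n => f n * g n) hfb hgb fun n => ?_⟩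
    calc f n * g n ≤ (max (f n) (g n) + 2) * (max (f n) (g n) + 2) :=
          Nat.mul_le_mul (by omega) (by omega)
      _ = (max (f n) (g n) + 2) ^ 2 := by ring
      _ ≤ _ := Nat.pow_le_pow_right (by omega) (by omega)
  pow := by
    rintro x ⟨⟨f, hf, rfl⟩, hfb⟩ y ⟨⟨g, hg, rfl⟩, hgb⟩
    refine ⟨gm_mem (Fam.pow hf hg), h.bdd_pow (r := fun n => f n ^ g n) hfb hgb fun n => ?_⟩
    calc f n ^ g n ≤ (max (f n) (g n) + 2) ^ g n := Nat.pow_le_pow_left (by omega) _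
      _ ≤ _ := Nat.pow_le_pow_right (by omega) (by omega)

/-! ### `Σ₁`-elementarity -/

/-- Encode a list by iterated pairing. -/
def encl : List ℕ → ℕ
  | [] => 0
  | x :: l => Nat.pair x (encl l)

theorem dec_encl (l : List ℕ) (i : ℕ) (hi : i < l.length) : dec (encl l) i = l[i] := by
  induction l generalizing i with
  | nil => simp at hi
  | cons x l ih =>
    rw [encl, dec_pair]
    cases i with
    | zero => rfl
    | succ i => exact ih i (by simpa using hi)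

theorem Full.bdd_encl (h : Full P Q Y q) (gs : List (ℕ → ℕ)) (hg : ∀ g ∈ gs, Bdd q (gm g)) :
    Bdd q (gm (fun n => encl (gs.map (fun g => g n)))) := by
  induction gs with
  | nil => exact ⟨0, gm_le.2 (Eventually.of_forall fun _ => Nat.zero_le _)⟩
  | cons g gs ih =>
    refine h.bdd_pow (hg g (by simp)) (ih fun g' hg' => hg g' (by simp [hg'])) fun n => ?_
    simp only [List.map_cons, encl]
    calc Nat.pair (g n) (encl (gs.map fun g => g n))
        ≤ (max (g n) (encl (gs.map fun g => g n)) + 1) ^ 2 :=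
          (Nat.pair_lt_max_add_one_sq _ _).le
      _ ≤ (max (g n) (encl (gs.map fun g => g n)) + 2) ^ 2 := Nat.pow_le_pow_left (by omega) _
      _ ≤ _ := Nat.pow_le_pow_right (by omega) (by omega)

theorem Full.witness (h : Full P Q Y q) (φ : Fm) (hφ : φ.IsDelta0) (e : ℕ → Ns)
    (he : ∀ i, e i ∈ MM q) (hs : ∃ x ∈ S0, φ.SatIn NsA S0 (cons x e)) :
    ∃ x ∈ MM q, φ.SatIn NsA S0 (cons x e) := by
  obtain ⟨g, hg, rfl⟩ := exists_rep e (fun i => (he i).1)
  obtain ⟨_, ⟨f, hf, rfl⟩, hs⟩ := hs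
  have key : ∀ f ∈ Fam, (φ.SatIn NsA S0 (cons (gm f) fun i => gm (g i)) ↔
      ∀ᶠ n in (hyperfilter ℕ : Filter ℕ), φ.Sat NatA (cons (f n) (fun i => g i n))) := by
    intro f hf
    rw [cons_gm, los _ _ (cons_Fam hf hg)]
    simp only [cons_app]
  rw [key _ hf] at hs
  refine ⟨_, ⟨gm_mem (Fam.sk φ hg), ?_⟩, ?_⟩
  · obtain ⟨T, hT⟩ := G_bounds φ hφ
    let p : ℕ → ℕ := fun n => encl (((List.range φ.bd).map g).map (fun g => g n))
    have hp : Bdd q (gm p) := by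
      refine h.bdd_encl _ fun g' hg' => ?_
      obtain ⟨i, _, rfl⟩ := List.mem_map.1 hg'
      exact (he i).2
    have hpn : ∀ n, ∀ i < φ.bd, dec (p n) i = g i n := by
      intro n i hi
      rw [dec_encl _ _ (by simpa using hi)]
      simp
    refine h.bdd_of_dom hp T ?_
    filter_upwards [hs] with n hn t ht hpt
    have h1 : ∀ x, φ.Sat NatA (cons x (dec (p n))) ↔ φ.Sat NatA (cons x (fun i => g i n)) :=
      fun x => Fm.sat_congr NatA φ _ _ (cons_congr _ x _ _ (hpn n))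
    obtain ⟨x, hx1, hx2⟩ := hT t ht (p n) hpt ⟨_, (h1 _).2 hn⟩
    exact (sk_min ((h1 x).1 hx2)).trans hx1
  · rw [key _ (Fam.sk φ hg)]
    filter_upwards [hs] with n hn
    exact sk_spec ⟨_, hn⟩

theorem Full.abs0 (h : Full P Q Y q) (φ : Fm) (hφ : φ.IsDelta0) (e : ℕ → Ns)
    (he : ∀ i, e i ∈ MM q) : φ.SatIn NsA (MM q) e ↔ φ.SatIn NsA S0 e :=
  satIn_delta0_abs h.closed MM_sub (fun x hx y hy hxy => MM_init x hx y hy hxy) φ hφ e he

/-- A common strict upper bound of a list. -/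
theorem exists_bound {S : Set Ns} (hS : Closed NsA S) (u : List Ns) (hu : ∀ x ∈ u, x ∈ S) :
    ∃ m ∈ S, ∀ x ∈ u, x < m := by
  induction u with
  | nil => exact ⟨_, hS.zero, by simp⟩
  | cons x u ih =>
    obtain ⟨m, hm, h1⟩ := ih (fun y hy => hu y (by simp [hy]))
    rcases le_total m x with h2 | h2
    · refine ⟨x + 1, hS.add _ (hu x (by simp)) _ hS.one, fun y hy => ?_⟩
      rcases List.mem_cons.1 hy with rfl | hy
      · exact lt_add_one _
      · exact (h1 y hy).trans_le (h2.trans (lt_add_one _).le)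
    · refine ⟨m + 1, hS.add _ hm _ hS.one, fun y hy => ?_⟩
      rcases List.mem_cons.1 hy with rfl | hy
      · exact h2.trans_lt (lt_add_one _)
      · exact (h1 y hy).trans (lt_add_one _)

theorem Full.sigma1 (h : Full P Q Y q) (k : ℕ) (δ : Fm) (hδ : δ.IsDelta0) (e : ℕ → Ns)
    (he : ∀ i, e i ∈ MM q) :
    (Fm.ex^[k] δ).SatIn NsA (MM q) e ↔ (Fm.ex^[k] δ).SatIn NsA S0 e := by
  rw [satIn_exs, satIn_exs]
  constructor
  · rintro ⟨u, hu, huM, hs⟩
    exact ⟨u, hu, fun x hx => (huM x hx).1, (h.abs0 δ hδ _ (push_mem _ u e huM he)).1 hs⟩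
  · rintro ⟨u, hu, huS, hs⟩
    obtain ⟨m, hm, hum⟩ := exists_bound S0_closed u huS
    have h1 : (Fm.blk k δ).SatIn NsA S0 (cons m e) :=
      (satIn_blk NsA S0 k δ m e).2 ⟨u, hu, fun x hx => ⟨huS x hx, hum x hx⟩, hs⟩
    obtain ⟨m', hm', h2⟩ := h.witness _ (isDelta0_blk k δ hδ) e he ⟨m, hm, h1⟩
    obtain ⟨u', hu', hu'S, hs'⟩ := (satIn_blk NsA S0 k δ m' e).1 h2
    have h3 : ∀ x ∈ u', x ∈ MM q := fun x hx => MM_init x (hu'S x hx).1 m' hm' (hu'S x hx).2
    exact ⟨u', hu', h3, (h.abs0 δ hδ _ (push_mem _ u' e h3 he)).2 hs'⟩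

theorem Full.pi1 (h : Full P Q Y q) (k : ℕ) (δ : Fm) (hδ : δ.IsDelta0) (e : ℕ → Ns)
    (he : ∀ i, e i ∈ MM q) :
    (Fm.all^[k] δ).SatIn NsA (MM q) e ↔ (Fm.all^[k] δ).SatIn NsA S0 e := by
  have h1 := h.sigma1 k (.neg δ) hδ e he
  rw [satIn_exs, satIn_exs] at h1
  rw [satIn_alls, satIn_alls]
  constructor
  · intro H u hu huS
    by_contra hc
    obtain ⟨u', hu', hu'M, hs⟩ := h1.2 ⟨u, hu, huS, hc⟩
    exact hs (H u' hu' hu'M)
  · intro H u hu huM
    by_contra hc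
    obtain ⟨u', hu', hu'S, hs⟩ := h1.1 ⟨u, hu, huM, hc⟩
    exact hs (H u' hu' hu'S)

end

end Pool.Agent.Helper92.Cut
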