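import Pool.Agent.Helper92.Cut.Basic

/-! Definability over `ℕ`: `Δ₀` and `Σ₁` predicates of assignments. -/

namespace Pool.Agent.Helper92.Cut

/-- The standard model. -/
@[reducible] def NatA : Arith := ⟨ℕ, 0, 1, (· + ·), (· * ·), (· ^ ·), (· < ·)⟩

/-- Functions of an assignment given by a term. -/
def T0 (f : (ℕ → ℕ) → ℕ) : Prop := ∃ t : Tm, ∀ e, t.val NatA e = f e

/-- `Δ₀` predicates of an assignment. -/
def D0 (P : (ℕ → ℕ) → Prop) : Prop := ∃ φ : Fm, φ.IsDelta0 ∧ ∀ e, φ.Sat NatA e ↔ P e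

/-- `Σ₁` predicates of an assignment. -/
def S1 (P : (ℕ → ℕ) → Prop) : Prop :=
  ∃ φ : Fm, φ.IsDelta0 ∧ ∀ e, (∃ x, φ.Sat NatA (cons x e)) ↔ P e

theorem T0.var (i : ℕ) : T0 (fun e => e i) := ⟨.var i, fun _ => rfl⟩
theorem T0.tail {f} (h : T0 f) : T0 (fun e => f (tail e)) := by
  obtain ⟨t, ht⟩ := h
  exact ⟨t.ren (fun i => i + 1), fun e => by rw [Tm.val_ren, ht]; rfl⟩
theorem T0.add {f g} (hf : T0 f) (hg : T0 g) : T0 (fun e => f e + g e) := by
  obtain ⟨s, hs⟩ := hf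
  obtain ⟨t, ht⟩ := hg
  exact ⟨.add s t, fun e => by simp only [Tm.val, hs, ht]⟩
theorem T0.mul {f g} (hf : T0 f) (hg : T0 g) : T0 (fun e => f e * g e) := by
  obtain ⟨s, hs⟩ := hf
  obtain ⟨t, ht⟩ := hg
  exact ⟨.mul s t, fun e => by simp only [Tm.val, hs, ht]⟩
theorem T0.zero : T0 (fun _ => 0) := ⟨.zero, fun _ => rfl⟩
theorem T0.one : T0 (fun _ => 1) := ⟨.one, fun _ => rfl⟩
theorem T0.const (c : ℕ) : T0 (fun _ => c) := by
  induction c with
  | zero => exact T0.zero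
  | succ c ih => exact ih.add T0.one

theorem D0.of_iff {P Q : (ℕ → ℕ) → Prop} (h : D0 P) (hPQ : ∀ e, P e ↔ Q e) : D0 Q := by
  obtain ⟨φ, h1, h2⟩ := h
  exact ⟨φ, h1, fun e => (h2 e).trans (hPQ e)⟩
theorem S1.of_iff {P Q : (ℕ → ℕ) → Prop} (h : S1 P) (hPQ : ∀ e, P e ↔ Q e) : S1 Q := by
  obtain ⟨φ, h1, h2⟩ := h
  exact ⟨φ, h1, fun e => (h2 e).trans (hPQ e)⟩

theorem D0.eq {f g} (hf : T0 f) (hg : T0 g) : D0 (fun e => f e = g e) := by
  obtain ⟨s, hs⟩ := hf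
  obtain ⟨t, ht⟩ := hg
  exact ⟨.eq s t, trivial, fun e => by simp only [Fm.Sat, hs, ht]⟩
theorem D0.lt {f g} (hf : T0 f) (hg : T0 g) : D0 (fun e => f e < g e) := by
  obtain ⟨s, hs⟩ := hf
  obtain ⟨t, ht⟩ := hg
  exact ⟨.lt s t, trivial, fun e => by simp only [Fm.Sat, hs, ht]⟩
theorem D0.not {P} (h : D0 P) : D0 (fun e => ¬ P e) := by
  obtain ⟨φ, h1, h2⟩ := h
  exact ⟨.neg φ, h1, fun e => by simp only [Fm.Sat, h2]⟩
theorem D0.and {P Q} (hP : D0 P) (hQ : D0 Q) : D0 (fun e => P e ∧ Q e) := by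
  obtain ⟨φ, h1, h2⟩ := hP
  obtain ⟨ψ, h3, h4⟩ := hQ
  exact ⟨.and φ ψ, ⟨h1, h3⟩, fun e => by simp only [Fm.Sat, h2, h4]⟩
theorem D0.or {P Q} (hP : D0 P) (hQ : D0 Q) : D0 (fun e => P e ∨ Q e) :=
  (hP.not.and hQ.not).not.of_iff fun e => by tauto
theorem D0.le {f g} (hf : T0 f) (hg : T0 g) : D0 (fun e => f e ≤ g e) :=
  (D0.lt hg hf).not.of_iff fun e => by simp
theorem D0.ball {f P} (hf : T0 f) (hP : D0 P) : D0 (fun e => ∀ x < f e, P (cons x e)) := by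
  obtain ⟨t, ht⟩ := hf
  obtain ⟨φ, h1, h2⟩ := hP
  exact ⟨.ball t φ, h1, fun e => by simp only [Fm.Sat, ht, h2]⟩
theorem D0.bex {f P} (hf : T0 f) (hP : D0 P) : D0 (fun e => ∃ x, x < f e ∧ P (cons x e)) :=
  (D0.ball hf hP.not).not.of_iff fun e => by push Not; rfl
theorem D0.ren {P} (hP : D0 P) (ρ : ℕ → ℕ) : D0 (fun e => P (fun i => e (ρ i))) := by
  obtain ⟨φ, h1, h2⟩ := hP
  exact ⟨φ.ren ρ, Fm.isDelta0_ren _ _ h1, fun e => by rw [Fm.sat_ren, h2]⟩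

/-- Convenient form of `D0.bex` with a curried predicate. -/
theorem D0.bex' {f} {Q : ℕ → (ℕ → ℕ) → Prop} (hf : T0 f)
    (hQ : D0 (fun e => Q (e 0) (tail e))) : D0 (fun e => ∃ x, x < f e ∧ Q x e) :=
  D0.bex (P := fun e => Q (e 0) (Cut.tail e)) hf hQ
theorem D0.ball' {f} {Q : ℕ → (ℕ → ℕ) → Prop} (hf : T0 f)
    (hQ : D0 (fun e => Q (e 0) (tail e))) : D0 (fun e => ∀ x < f e, Q x e) :=
  D0.ball (P := fun e => Q (e 0) (Cut.tail e)) hf hQ

theorem D0.toS1 {P} (h : D0 P) : S1 P := by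
  obtain ⟨φ, h1, h2⟩ := h
  refine ⟨φ.ren (fun i => i + 1), Fm.isDelta0_ren _ _ h1, fun e => ?_⟩
  simp only [Fm.sat_ren, cons_succ]
  rw [exists_const]
  exact h2 e

/-- From a `Δ₀` predicate to the `Σ₁` predicate obtained by an existential quantifier. -/
theorem S1.ofD0 {P} (h : D0 P) : S1 (fun e => ∃ x, P (cons x e)) := by
  obtain ⟨φ, h1, h2⟩ := h
  exact ⟨φ, h1, fun e => by simp only [h2]⟩

theorem S1.exD0 {P} (h : S1 P) : ∃ Q, D0 Q ∧ ∀ e, P e ↔ ∃ x, Q (cons x e) := by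
  obtain ⟨φ, h1, h2⟩ := h
  exact ⟨fun e => φ.Sat NatA e, ⟨φ, h1, fun _ => Iff.rfl⟩, fun e => (h2 e).symm⟩

theorem S1.or {P Q} (hP : S1 P) (hQ : S1 Q) : S1 (fun e => P e ∨ Q e) := by
  obtain ⟨P', hP', h1⟩ := hP.exD0
  obtain ⟨Q', hQ', h2⟩ := hQ.exD0
  refine (S1.ofD0 (hP'.or hQ')).of_iff fun e => ?_
  rw [h1, h2, exists_or]

theorem S1.ren {P} (hP : S1 P) (ρ : ℕ → ℕ) : S1 (fun e => P (fun i => e (ρ i))) := by
  obtain ⟨P', hP', h1⟩ := hP.exD0
  refine (S1.ofD0 (hP'.ren (liftR ρ))).of_iff fun e => ?_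
  simp only [cons_liftR, h1]

theorem D0.ren' {P} (hP : D0 P) (f : (ℕ → ℕ) → (ℕ → ℕ)) (ρ : ℕ → ℕ)
    (h : ∀ e i, f e i = e (ρ i)) : D0 (fun e => P (f e)) :=
  (hP.ren ρ).of_iff fun e => by rw [show f e = fun i => e (ρ i) from funext (h e)]

theorem S1.ren' {P} (hP : S1 P) (f : (ℕ → ℕ) → (ℕ → ℕ)) (ρ : ℕ → ℕ)
    (h : ∀ e i, f e i = e (ρ i)) : S1 (fun e => P (f e)) :=
  (hP.ren ρ).of_iff fun e => by rw [show f e = fun i => e (ρ i) from funext (h e)]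

theorem S1.ex {P} (hP : S1 P) : S1 (fun e => ∃ x, P (cons x e)) := by
  obtain ⟨P', hP', h1⟩ := hP.exD0
  have h2 : D0 (fun e => ∃ y, y < e 0 ∧ ∃ x, x < e 0 ∧ P' (cons x (cons y (tail e)))) := by
    refine D0.bex' (Q := fun y e => ∃ x, x < e 0 ∧ P' (cons x (cons y (tail e)))) (T0.var 0) ?_
    refine D0.bex' (Q := fun x e => P' (cons x (cons (e 0) (tail (tail e))))) (T0.var 1) ?_
    refine D0.ren' hP' _ (liftR (liftR (fun i => i + 1))) ?_
    intro e i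
    rcases i with _ | _ | i <;> rfl
  refine (S1.ofD0 h2).of_iff fun e => ?_
  simp only [h1, cons_zero, tail_cons]
  constructor
  · rintro ⟨m, y, _, x, _, h⟩
    exact ⟨y, x, h⟩
  · rintro ⟨y, x, h⟩
    exact ⟨max x y + 1, y, by omega, x, by omega, h⟩

theorem S1.ex' {Q : ℕ → (ℕ → ℕ) → Prop} (hQ : S1 (fun e => Q (e 0) (tail e))) :
    S1 (fun e => ∃ x, Q x e) :=
  S1.ex (P := fun e => Q (e 0) (Cut.tail e)) hQ

theorem S1.and {P Q} (hP : S1 P) (hQ : S1 Q) : S1 (fun e => P e ∧ Q e) := by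
  obtain ⟨P', hP', h1⟩ := hP.exD0
  obtain ⟨Q', hQ', h2⟩ := hQ.exD0
  have h3 : S1 (fun e => ∃ x, ∃ y, P' (cons x e) ∧ Q' (cons y e)) := by
    refine S1.ex' (Q := fun x e => ∃ y, P' (cons x e) ∧ Q' (cons y e)) ?_
    refine S1.ex' (Q := fun y e => P' (cons (e 0) (tail e)) ∧ Q' (cons y (tail e))) ?_
    refine (D0.and ?_ ?_).toS1
    · refine D0.ren' hP' _ (fun i => i + 1) ?_
      intro e i
      rcases i with _ | i <;> rfl
    · refine D0.ren' hQ' _ (liftR (fun i => i + 1)) ?_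
      intro e i
      rcases i with _ | i <;> rfl
  refine h3.of_iff fun e => ?_
  rw [h1, h2]
  constructor
  · rintro ⟨x, y, hx, hy⟩
    exact ⟨⟨x, hx⟩, ⟨y, hy⟩⟩
  · rintro ⟨⟨x, hx⟩, ⟨y, hy⟩⟩
    exact ⟨x, y, hx, hy⟩

theorem S1.ball {f P} (hf : T0 f) (hP : S1 P) : S1 (fun e => ∀ x < f e, P (cons x e)) := by
  obtain ⟨P', hP', h1⟩ := hP.exD0
  have h2 : D0 (fun e => ∀ y < f (tail e), ∃ x, x < e 0 ∧ P' (cons x (cons y (tail e)))) := by
    refine D0.ball' (Q := fun y e => ∃ x, x < e 0 ∧ P' (cons x (cons y (tail e)))) hf.tail ?_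
    refine D0.bex' (Q := fun x e => P' (cons x (cons (e 0) (tail (tail e))))) (T0.var 1) ?_
    refine D0.ren' hP' _ (liftR (liftR (fun i => i + 1))) ?_
    intro e i
    rcases i with _ | _ | i <;> rfl
  refine (S1.ofD0 h2).of_iff fun e => ?_
  simp only [h1, cons_zero, tail_cons]
  constructor
  · rintro ⟨m, H⟩ y hy
    obtain ⟨x, _, hx⟩ := H y hy
    exact ⟨x, hx⟩
  · intro H
    choose! g hg using H
    refine ⟨(Finset.range (f e)).sup g + 1, fun y hy => ⟨g y, ?_, hg y hy⟩⟩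
    have : g y ≤ (Finset.range (f e)).sup g := Finset.le_sup (Finset.mem_range.2 hy)
    omega

theorem S1.ball' {f} {Q : ℕ → (ℕ → ℕ) → Prop} (hf : T0 f)
    (hQ : S1 (fun e => Q (e 0) (tail e))) : S1 (fun e => ∀ x < f e, Q x e) :=
  S1.ball (P := fun e => Q (e 0) (Cut.tail e)) hf hQ

theorem S1.bex' {f} {Q : ℕ → (ℕ → ℕ) → Prop} (hf : T0 f)
    (hQ : S1 (fun e => Q (e 0) (tail e))) : S1 (fun e => ∃ x, x < f e ∧ Q x e) :=
  S1.ex' (Q := fun x e => x < f e ∧ Q x e) ((D0.lt (T0.var 0) hf.tail).toS1.and hQ)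

/-- Substitute terms in a `Σ₁` relation. -/
theorem S1.comp2 {R : ℕ → ℕ → Prop} (hR : S1 (fun e => R (e 0) (e 1))) {f g}
    (hf : T0 f) (hg : T0 g) : S1 (fun e => R (f e) (g e)) := by
  have h : S1 (fun e => ∃ a, ∃ b, (a = f e ∧ b = g e) ∧ R a b) := by
    refine S1.ex' (Q := fun a e => ∃ b, (a = f e ∧ b = g e) ∧ R a b) ?_
    refine S1.ex' (Q := fun b e => (e 0 = f (tail e) ∧ b = g (tail e)) ∧ R (e 0) b) ?_
    refine S1.and (S1.and ?_ ?_) ?_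
    · exact (D0.eq (T0.var 1) hf.tail.tail).toS1
    · exact (D0.eq (T0.var 0) hg.tail.tail).toS1
    · exact hR.ren' (fun e i => if i = 0 then e 1 else if i = 1 then e 0 else e 0)
        (fun i => if i = 0 then 1 else 0) (by intro e i; split_ifs <;> rfl)
  refine h.of_iff fun e => ?_
  constructor
  · rintro ⟨a, b, ⟨rfl, rfl⟩, h⟩
    exact h
  · intro h
    exact ⟨_, _, ⟨rfl, rfl⟩, h⟩

theorem S1.comp3 {R : ℕ → ℕ → ℕ → Prop} (hR : S1 (fun e => R (e 0) (e 1) (e 2))) {f g k}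
    (hf : T0 f) (hg : T0 g) (hk : T0 k) : S1 (fun e => R (f e) (g e) (k e)) := by
  have h : S1 (fun e => ∃ a, ∃ b, ∃ c, (a = f e ∧ b = g e ∧ c = k e) ∧ R a b c) := by
    refine S1.ex' (Q := fun a e => ∃ b, ∃ c, (a = f e ∧ b = g e ∧ c = k e) ∧ R a b c) ?_
    refine S1.ex' (Q := fun b e => ∃ c, (e 0 = f (tail e) ∧ b = g (tail e) ∧ c = k (tail e)) ∧
      R (e 0) b c) ?_
    refine S1.ex' (Q := fun c e => (e 1 = f (tail (tail e)) ∧ e 0 = g (tail (tail e)) ∧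
      c = k (tail (tail e))) ∧ R (e 1) (e 0) c) ?_
    refine S1.and (S1.and ?_ (S1.and ?_ ?_)) ?_
    · exact (D0.eq (T0.var 2) hf.tail.tail.tail).toS1
    · exact (D0.eq (T0.var 1) hg.tail.tail.tail).toS1
    · exact (D0.eq (T0.var 0) hk.tail.tail.tail).toS1
    · exact hR.ren' (fun e i => if i = 0 then e 2 else if i = 1 then e 1 else e 0)
        (fun i => if i = 0 then 2 else if i = 1 then 1 else 0) (by intro e i; split_ifs <;> rfl)
  refine h.of_iff fun e => ?_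
  constructor
  · rintro ⟨a, b, c, ⟨rfl, rfl, rfl⟩, h⟩
    exact h
  · intro h
    exact ⟨_, _, _, ⟨rfl, rfl, rfl⟩, h⟩

/-! ### the pairing function and Gödel's beta function -/

theorem D0.pair : D0 (fun e => Nat.pair (e 1) (e 2) = e 0) := by
  refine (((D0.lt (T0.var 1) (T0.var 2)).and
    (D0.eq (((T0.var 2).mul (T0.var 2)).add (T0.var 1)) (T0.var 0))).or
    ((D0.lt (T0.var 1) (T0.var 2)).not.and
    (D0.eq ((((T0.var 1).mul (T0.var 1)).add (T0.var 1)).add (T0.var 2)) (T0.var 0)))).of_iff ?_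
  intro e
  unfold Nat.pair
  split_ifs with h <;> simp [h]

theorem S1.pair {f g k} (hf : T0 f) (hg : T0 g) (hk : T0 k) :
    S1 (fun e => Nat.pair (f e) (g e) = k e) :=
  S1.comp3 (R := fun c a b => Nat.pair a b = c) D0.pair.toS1 hk hf hg

theorem S1.mod : S1 (fun e => e 1 % (e 2 + 1) = e 0) := by
  have h : S1 (fun e => ∃ q, e 0 < e 2 + 1 ∧ e 1 = q * (e 2 + 1) + e 0) := by
    refine S1.ex' (Q := fun q e => e 0 < e 2 + 1 ∧ e 1 = q * (e 2 + 1) + e 0) ?_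
    refine S1.and ?_ ?_
    · exact (D0.lt (T0.var 1) ((T0.var 3).add T0.one)).toS1
    · exact (D0.eq (T0.var 2) (((T0.var 0).mul ((T0.var 3).add T0.one)).add (T0.var 1))).toS1
  refine h.of_iff fun e => ?_
  constructor
  · rintro ⟨q, h1, h2⟩
    rw [h2, Nat.add_comm, Nat.add_mul_mod_self_right, Nat.mod_eq_of_lt h1]
  · intro h
    refine ⟨e 1 / (e 2 + 1), ?_, ?_⟩
    · rw [← h]; exact Nat.mod_lt _ (by omega)
    · rw [← h, Nat.mul_comm]; exact (Nat.div_add_mod _ _).symm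

theorem S1.beta : S1 (fun e => Nat.beta (e 1) (e 2) = e 0) := by
  have h : S1 (fun e => ∃ a, ∃ b, Nat.pair a b = e 1 ∧ a % ((e 2 + 1) * b + 1) = e 0) := by
    refine S1.ex' (Q := fun a e => ∃ b, Nat.pair a b = e 1 ∧ a % ((e 2 + 1) * b + 1) = e 0) ?_
    refine S1.ex' (Q := fun b e => Nat.pair (e 0) b = e 2 ∧
      (e 0) % ((e 3 + 1) * b + 1) = e 1) ?_
    refine S1.and ?_ ?_
    · exact S1.pair (T0.var 1) (T0.var 0) (T0.var 3)
    · exact S1.comp3 (R := fun c a b => a % (b + 1) = c) S1.mod (T0.var 2) (T0.var 1)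
        (((T0.var 4).add T0.one).mul (T0.var 0))
  refine h.of_iff fun e => ?_
  unfold Nat.beta
  constructor
  · rintro ⟨a, b, h1, h2⟩
    rw [← h1, Nat.unpair_pair]
    exact h2
  · intro h
    exact ⟨_, _, Nat.pair_unpair _, h⟩

theorem S1.beta' {f g k} (hf : T0 f) (hg : T0 g) (hk : T0 k) :
    S1 (fun e => Nat.beta (f e) (g e) = k e) :=
  S1.comp3 (R := fun c a b => Nat.beta a b = c) S1.beta hk hf hg

/-- Existence of codes for finite sequences. -/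
theorem exists_beta (n : ℕ) (f : ℕ → ℕ) : ∃ s, ∀ i ≤ n, Nat.beta s i = f i := by
  refine ⟨Nat.unbeta (List.ofFn (fun i : Fin (n + 1) => f i)), fun i hi => ?_⟩
  have := Nat.beta_unbeta_coe (List.ofFn (fun i : Fin (n + 1) => f i))
    ⟨i, by simpa using Nat.lt_succ_of_le hi⟩
  simpa only [Fin.getElem_fin, List.getElem_ofFn] using this

/-! ### graphs of partial recursive functions are `Σ₁` -/

theorem partrec_S1 {f : ℕ →. ℕ} (hf : Nat.Partrec f) : S1 (fun e => e 0 ∈ f (e 1)) := by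
  induction hf with
  | zero =>
    refine (D0.eq (T0.var 0) T0.zero).toS1.of_iff fun e => ?_
    show _ ↔ _ ∈ (Part.some 0 : Part ℕ)
    simp
  | succ =>
    refine (D0.eq (T0.var 0) ((T0.var 1).add T0.one)).toS1.of_iff fun e => ?_
    show _ ↔ _ ∈ (Part.some _ : Part ℕ)
    simp
  | left =>
    have h : S1 (fun e => ∃ b, Nat.pair (e 0) b = e 1) :=
      S1.ex' (Q := fun b e => Nat.pair (e 0) b = e 1) (S1.pair (T0.var 1) (T0.var 0) (T0.var 2))
    refine h.of_iff fun e => ?_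
    show _ ↔ _ ∈ (Part.some _ : Part ℕ)
    simp only [Part.mem_some_iff]
    constructor
    · rintro ⟨b, hb⟩
      rw [← hb, Nat.unpair_pair]
    · intro h
      exact ⟨(e 1).unpair.2, by rw [h, Nat.pair_unpair]⟩
  | right =>
    have h : S1 (fun e => ∃ b, Nat.pair b (e 0) = e 1) :=
      S1.ex' (Q := fun b e => Nat.pair b (e 0) = e 1) (S1.pair (T0.var 0) (T0.var 1) (T0.var 2))
    refine h.of_iff fun e => ?_
    show _ ↔ _ ∈ (Part.some _ : Part ℕ)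
    simp only [Part.mem_some_iff]
    constructor
    · rintro ⟨b, hb⟩
      rw [← hb, Nat.unpair_pair]
    · intro h
      exact ⟨(e 1).unpair.1, by rw [h, Nat.pair_unpair]⟩
  | @pair f g _ _ ihf ihg =>
    have h : S1 (fun e => ∃ u, ∃ v, (u ∈ f (e 1) ∧ v ∈ g (e 1)) ∧ Nat.pair u v = e 0) := by
      refine S1.ex' (Q := fun u e => ∃ v, (u ∈ f (e 1) ∧ v ∈ g (e 1)) ∧ Nat.pair u v = e 0) ?_
      refine S1.ex' (Q := fun v e => (e 0 ∈ f (e 2) ∧ v ∈ g (e 2)) ∧ Nat.pair (e 0) v = e 1) ?_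
      refine S1.and (S1.and ?_ ?_) ?_
      · exact S1.comp2 (R := fun y x => y ∈ f x) ihf (T0.var 1) (T0.var 3)
      · exact S1.comp2 (R := fun y x => y ∈ g x) ihg (T0.var 0) (T0.var 3)
      · exact S1.pair (T0.var 1) (T0.var 0) (T0.var 2)
    refine h.of_iff fun e => ?_
    simp only [Seq.seq, Part.map_eq_map, Part.mem_bind_iff, Part.mem_map_iff, exists_exists_and_eq_and]
    constructor
    · rintro ⟨u, v, ⟨hu, hv⟩, h⟩
      exact ⟨u, hu, v, hv, h⟩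
    · rintro ⟨u, hu, v, hv, h⟩
      exact ⟨u, v, ⟨hu, hv⟩, h⟩
  | @comp f g _ _ ihf ihg =>
    have h : S1 (fun e => ∃ u, u ∈ g (e 1) ∧ e 0 ∈ f u) := by
      refine S1.ex' (Q := fun u e => u ∈ g (e 1) ∧ e 0 ∈ f u) ?_
      refine S1.and ?_ ?_
      · exact S1.comp2 (R := fun y x => y ∈ g x) ihg (T0.var 0) (T0.var 2)
      · exact S1.comp2 (R := fun y x => y ∈ f x) ihf (T0.var 1) (T0.var 0)
    refine h.of_iff fun e => ?_
    exact Part.mem_bind_iff.symm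
  | @prec f g _ _ ihf ihg =>
    have h : S1 (fun e => ∃ a, ∃ n, ∃ s, ∃ b0, (Nat.pair a n = e 1 ∧ Nat.beta s n = e 0) ∧
        (Nat.beta s 0 = b0 ∧ b0 ∈ f a) ∧ ∀ i < n, ∃ u, ∃ v, ∃ p, ∃ q,
          (Nat.beta s i = u ∧ Nat.beta s (i + 1) = v) ∧ (Nat.pair i u = p ∧ Nat.pair a p = q) ∧
          v ∈ g q) := by
      refine S1.ex' (Q := fun a e => ∃ n, ∃ s, ∃ b0, (Nat.pair a n = e 1 ∧ Nat.beta s n = e 0) ∧
        (Nat.beta s 0 = b0 ∧ b0 ∈ f a) ∧ ∀ i < n, ∃ u, ∃ v, ∃ p, ∃ q,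
          (Nat.beta s i = u ∧ Nat.beta s (i + 1) = v) ∧ (Nat.pair i u = p ∧ Nat.pair a p = q) ∧
          v ∈ g q) ?_
      refine S1.ex' (Q := fun n e => ∃ s, ∃ b0, (Nat.pair (e 0) n = e 2 ∧ Nat.beta s n = e 1) ∧
        (Nat.beta s 0 = b0 ∧ b0 ∈ f (e 0)) ∧ ∀ i < n, ∃ u, ∃ v, ∃ p, ∃ q,
          (Nat.beta s i = u ∧ Nat.beta s (i + 1) = v) ∧
          (Nat.pair i u = p ∧ Nat.pair (e 0) p = q) ∧ v ∈ g q) ?_
      refine S1.ex' (Q := fun s e => ∃ b0, (Nat.pair (e 1) (e 0) = e 3 ∧ Nat.beta s (e 0) = e 2) ∧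
        (Nat.beta s 0 = b0 ∧ b0 ∈ f (e 1)) ∧ ∀ i < e 0, ∃ u, ∃ v, ∃ p, ∃ q,
          (Nat.beta s i = u ∧ Nat.beta s (i + 1) = v) ∧
          (Nat.pair i u = p ∧ Nat.pair (e 1) p = q) ∧ v ∈ g q) ?_
      refine S1.ex' (Q := fun b0 e => (Nat.pair (e 2) (e 1) = e 4 ∧ Nat.beta (e 0) (e 1) = e 3) ∧
        (Nat.beta (e 0) 0 = b0 ∧ b0 ∈ f (e 2)) ∧ ∀ i < e 1, ∃ u, ∃ v, ∃ p, ∃ q,
          (Nat.beta (e 0) i = u ∧ Nat.beta (e 0) (i + 1) = v) ∧
          (Nat.pair i u = p ∧ Nat.pair (e 2) p = q) ∧ v ∈ g q) ?_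
      refine S1.and (S1.and ?_ ?_) (S1.and (S1.and ?_ ?_) ?_)
      · exact S1.pair (T0.var 3) (T0.var 2) (T0.var 5)
      · exact S1.beta' (T0.var 1) (T0.var 2) (T0.var 4)
      · exact S1.beta' (T0.var 1) T0.zero (T0.var 0)
      · exact S1.comp2 (R := fun y x => y ∈ f x) ihf (T0.var 0) (T0.var 3)
      · refine S1.ball' (f := fun e => e 2) (Q := fun i e => ∃ u, ∃ v, ∃ p, ∃ q,
          (Nat.beta (e 1) i = u ∧ Nat.beta (e 1) (i + 1) = v) ∧
          (Nat.pair i u = p ∧ Nat.pair (e 3) p = q) ∧ v ∈ g q) (T0.var 2) ?_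
        refine S1.ex' (Q := fun u e => ∃ v, ∃ p, ∃ q,
          (Nat.beta (e 2) (e 0) = u ∧ Nat.beta (e 2) (e 0 + 1) = v) ∧
          (Nat.pair (e 0) u = p ∧ Nat.pair (e 4) p = q) ∧ v ∈ g q) ?_
        refine S1.ex' (Q := fun v e => ∃ p, ∃ q,
          (Nat.beta (e 3) (e 1) = e 0 ∧ Nat.beta (e 3) (e 1 + 1) = v) ∧
          (Nat.pair (e 1) (e 0) = p ∧ Nat.pair (e 5) p = q) ∧ v ∈ g q) ?_
        refine S1.ex' (Q := fun p e => ∃ q,
          (Nat.beta (e 4) (e 2) = e 1 ∧ Nat.beta (e 4) (e 2 + 1) = e 0) ∧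
          (Nat.pair (e 2) (e 1) = p ∧ Nat.pair (e 6) p = q) ∧ e 0 ∈ g q) ?_
        refine S1.ex' (Q := fun q e =>
          (Nat.beta (e 5) (e 3) = e 2 ∧ Nat.beta (e 5) (e 3 + 1) = e 1) ∧
          (Nat.pair (e 3) (e 2) = e 0 ∧ Nat.pair (e 7) (e 0) = q) ∧ e 1 ∈ g q) ?_
        refine S1.and (S1.and ?_ ?_) (S1.and (S1.and ?_ ?_) ?_)
        · exact S1.beta' (T0.var 6) (T0.var 4) (T0.var 3)
        · exact S1.beta' (T0.var 6) ((T0.var 4).add T0.one) (T0.var 2)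
        · exact S1.pair (T0.var 4) (T0.var 3) (T0.var 1)
        · exact S1.pair (T0.var 8) (T0.var 1) (T0.var 0)
        · exact S1.comp2 (R := fun y x => y ∈ g x) ihg (T0.var 2) (T0.var 0)
    refine h.of_iff fun e => ?_
    have key : ∀ (a n y : ℕ), y ∈ (Nat.rec (f a) (fun y IH => do
        let i ← IH
        g (Nat.pair a (Nat.pair y i))) n : Part ℕ) ↔
        ∃ l : ℕ → ℕ, l n = y ∧ l 0 ∈ f a ∧ ∀ i < n, l (i + 1) ∈ g (Nat.pair a (Nat.pair i (l i))) := by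
      intro a n
      induction n with
      | zero =>
        intro y
        constructor
        · intro h
          exact ⟨fun _ => y, rfl, h, fun i hi => absurd hi (Nat.not_lt_zero _)⟩
        · rintro ⟨l, rfl, h, _⟩
          exact h
      | succ n ih =>
        intro y
        constructor
        · intro h
          obtain ⟨z, hz, hy⟩ := Part.mem_bind_iff.1 h
          obtain ⟨l, hl1, hl2, hl3⟩ := (ih z).1 hz
          refine ⟨fun i => if i = n + 1 then y else l i, by simp, by simpa using hl2, ?_⟩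
          intro i hi
          rcases Nat.lt_succ_iff_lt_or_eq.1 hi with hi' | rfl
          · have h1 : i + 1 ≠ n + 1 := by omega
            have h2 : i ≠ n + 1 := by omega
            simp only [h1, h2, if_false]
            exact hl3 i hi'
          · simp only [if_true]
            have h2 : i ≠ i + 1 := by omega
            rw [if_neg h2, hl1]
            exact hy
        · rintro ⟨l, rfl, hl2, hl3⟩
          refine Part.mem_bind_iff.2 ⟨l n, (ih (l n)).2 ⟨l, rfl, hl2, fun i hi => hl3 i (by omega)⟩, ?_⟩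
          exact hl3 n (by omega)
    constructor
    · rintro ⟨a, n, s, b0, ⟨h1, h2⟩, ⟨h3, h4⟩, h5⟩
      show _ ∈ (Nat.rec (f (e 1).unpair.1) _ (e 1).unpair.2 : Part ℕ)
      rw [← h1, Nat.unpair_pair]
      refine (key a n (e 0)).2 ⟨fun i => Nat.beta s i, h2, ?_, ?_⟩
      · show Nat.beta s 0 ∈ f a
        rw [h3]; exact h4
      · intro i hi
        obtain ⟨u, v, p, q, ⟨h6, h7⟩, ⟨h8, h9⟩, h10⟩ := h5 i hi
        show Nat.beta s (i + 1) ∈ g (Nat.pair a (Nat.pair i (Nat.beta s i)))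
        rw [h6, h7, h8, h9]
        exact h10
    · intro h
      obtain ⟨l, hl1, hl2, hl3⟩ := (key (e 1).unpair.1 (e 1).unpair.2 (e 0)).1 h
      obtain ⟨s, hs⟩ := exists_beta (e 1).unpair.2 l
      refine ⟨(e 1).unpair.1, (e 1).unpair.2, s, l 0, ⟨Nat.pair_unpair _, ?_⟩, ⟨?_, hl2⟩, ?_⟩
      · rw [hs _ le_rfl, hl1]
      · exact hs 0 (Nat.zero_le _)
      · intro i hi
        exact ⟨_, _, _, _, ⟨hs i hi.le, hs (i + 1) hi⟩, ⟨rfl, rfl⟩, hl3 i hi⟩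
  | @rfind f _ ihf =>
    have h : S1 (fun e => (∃ p, Nat.pair (e 1) (e 0) = p ∧ 0 ∈ f p) ∧
        ∀ i < e 0, ∃ v, ∃ p, Nat.pair (e 1) i = p ∧ v + 1 ∈ f p) := by
      refine S1.and ?_ ?_
      · refine S1.ex' (Q := fun p e => Nat.pair (e 1) (e 0) = p ∧ 0 ∈ f p) ?_
        refine S1.and ?_ ?_
        · exact S1.pair (T0.var 2) (T0.var 1) (T0.var 0)
        · exact S1.comp2 (R := fun y x => y ∈ f x) ihf T0.zero (T0.var 0)
      · refine S1.ball' (f := fun e => e 0)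
          (Q := fun i e => ∃ v, ∃ p, Nat.pair (e 1) i = p ∧ v + 1 ∈ f p) (T0.var 0) ?_
        refine S1.ex' (Q := fun v e => ∃ p, Nat.pair (e 2) (e 0) = p ∧ v + 1 ∈ f p) ?_
        refine S1.ex' (Q := fun p e => Nat.pair (e 3) (e 1) = p ∧ e 0 + 1 ∈ f p) ?_
        refine S1.and ?_ ?_
        · exact S1.pair (T0.var 4) (T0.var 2) (T0.var 0)
        · exact S1.comp2 (R := fun y x => y ∈ f x) ihf ((T0.var 1).add T0.one) (T0.var 0)
    refine h.of_iff fun e => ?_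
    have key : ∀ (a y : ℕ), y ∈ Nat.rfind (fun n => (fun m => decide (m = 0)) <$> f (Nat.pair a n)) ↔
        (0 ∈ f (Nat.pair a y)) ∧ ∀ i < y, ∃ v, v + 1 ∈ f (Nat.pair a i) := by
      intro a y
      refine Nat.mem_rfind.trans ?_
      refine and_congr ?_ ?_
      · refine (Part.mem_map_iff _).trans ?_
        constructor
        · rintro ⟨m, hm, hm'⟩
          have : m = 0 := by simpa using hm'
          subst this; exact hm
        · intro h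
          exact ⟨0, h, by simp⟩
      · refine forall_congr' fun i => ?_
        refine forall_congr' fun _ => ?_
        refine (Part.mem_map_iff _).trans ?_
        constructor
        · rintro ⟨m, hm, hm'⟩
          have : m ≠ 0 := by simpa using hm'
          obtain ⟨v, rfl⟩ := Nat.exists_eq_succ_of_ne_zero this
          exact ⟨v, hm⟩
        · rintro ⟨v, hv⟩
          exact ⟨v + 1, hv, by simp⟩
    refine Iff.trans ?_ (key (e 1) (e 0)).symm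
    constructor
    · rintro ⟨⟨p, rfl, h1⟩, h2⟩
      refine ⟨h1, fun i hi => ?_⟩
      obtain ⟨v, p, rfl, h3⟩ := h2 i hi
      exact ⟨v, h3⟩
    · rintro ⟨h1, h2⟩
      refine ⟨⟨_, rfl, h1⟩, fun i hi => ?_⟩
      obtain ⟨v, hv⟩ := h2 i hi
      exact ⟨v, _, rfl, hv⟩

end Pool.Agent.Helper92.Cut
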