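import Pool.Agent.Helper92.Cut.Dominate

/-! A countable elementary extension of `ℕ`, closed under the growth function. -/

namespace Pool.Agent.Helper92.Cut

open Filter

deriving instance Countable for Tm
deriving instance Countable for Fm

/-! ### countable closed families of functions -/

section closure

variable {ι : Type} (F : ι → List ℕ → ℕ)

/-- Apply the `i`-th operation pointwise. -/
def appl (i : ι) (gs : List (ℕ → ℕ)) : ℕ → ℕ := fun n => F i (gs.map (fun g => g n))

/-- Stages of the closure of the identity function. -/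
def stage : ℕ → Set (ℕ → ℕ)
  | 0 => {id}
  | k + 1 => stage k ∪ {h | ∃ i gs, (∀ g ∈ gs, g ∈ stage k) ∧ h = appl F i gs}

theorem countable_stage [Countable ι] (k : ℕ) : (stage F k).Countable := by
  induction k with
  | zero => exact Set.countable_singleton _
  | succ k ih =>
    refine ih.union ?_
    have : Countable (stage F k) := ih.to_subtype
    have h : {h | ∃ i gs, (∀ g ∈ gs, g ∈ stage F k) ∧ h = appl F i gs} ⊆
        Set.range (fun p : ι × List (stage F k) => appl F p.1 (p.2.map Subtype.val)) := by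
      rintro h ⟨i, gs, hgs, rfl⟩
      refine ⟨⟨i, gs.attach.map (fun g => ⟨g.1, hgs g.1 g.2⟩)⟩, ?_⟩
      simp [List.map_map, Function.comp_def]
    exact (Set.countable_range _).mono h

theorem stage_mono {j k : ℕ} (h : j ≤ k) : stage F j ⊆ stage F k := by
  induction h with
  | refl => exact subset_rfl
  | step _ ih => exact ih.trans Set.subset_union_left

/-- The closed family. -/
def fam : Set (ℕ → ℕ) := ⋃ k, stage F k

theorem countable_fam [Countable ι] : (fam F).Countable :=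
  Set.countable_iUnion fun k => countable_stage F k

theorem id_mem_fam : id ∈ fam F := Set.mem_iUnion.2 ⟨0, rfl⟩

theorem appl_mem_fam (i : ι) (gs : List (ℕ → ℕ)) (h : ∀ g ∈ gs, g ∈ fam F) :
    appl F i gs ∈ fam F := by
  have : ∃ k, ∀ g ∈ gs, g ∈ stage F k := by
    clear i
    induction gs with
    | nil => exact ⟨0, by simp⟩
    | cons g gs ih =>
      obtain ⟨k, hk⟩ := ih (fun g' hg' => h g' (List.mem_cons_of_mem _ hg'))
      obtain ⟨j, hj⟩ := Set.mem_iUnion.1 (h g (by simp))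
      refine ⟨max j k, fun g' hg' => ?_⟩
      rcases List.mem_cons.1 hg' with rfl | hg'
      · exact stage_mono F (le_max_left _ _) hj
      · exact stage_mono F (le_max_right _ _) (hk g' hg')
  obtain ⟨k, hk⟩ := this
  exact Set.mem_iUnion.2 ⟨k + 1, Or.inr ⟨i, gs, hk, rfl⟩⟩

end closure

/-- The assignment given by a list. -/
def lenv {D : Type} (d : D) (l : List D) : ℕ → D := fun i => l.getD i d

open Classical in
/-- Least-witness function of a formula. -/
noncomputable def sk (φ : Fm) (e : ℕ → ℕ) : ℕ :=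
  if h : ∃ x, φ.Sat NatA (cons x e) then Nat.find h else 0

theorem sk_spec {φ : Fm} {e : ℕ → ℕ} (h : ∃ x, φ.Sat NatA (cons x e)) :
    φ.Sat NatA (cons (sk φ e) e) := by
  classical
  unfold sk
  rw [dif_pos h]
  exact Nat.find_spec h

theorem sk_min {φ : Fm} {e : ℕ → ℕ} {x : ℕ} (h : φ.Sat NatA (cons x e)) : sk φ e ≤ x := by
  classical
  unfold sk
  rw [dif_pos ⟨x, h⟩]
  exact Nat.find_min' _ h

theorem sk_congr (φ : Fm) (e e' : ℕ → ℕ) (h : ∀ i < φ.bd, e i = e' i) : sk φ e = sk φ e' := by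
  classical
  have h1 : ∀ x, φ.Sat NatA (cons x e) ↔ φ.Sat NatA (cons x e') := fun x =>
    Fm.sat_congr NatA φ _ _ (cons_congr _ x e e' h)
  unfold sk
  simp only [h1]

/-- A tower function. -/
def tow : ℕ → ℕ
  | 0 => 2
  | z + 1 => tow z ^ tow z

theorem two_le_tow (z : ℕ) : 2 ≤ tow z := by
  induction z with
  | zero => exact le_rfl
  | succ z ih =>
    calc 2 ≤ tow z := ih
      _ = tow z ^ 1 := (pow_one _).symm
      _ ≤ tow z ^ tow z := Nat.pow_le_pow_right (by omega) (by omega)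

theorem tow_sq_le (z : ℕ) : tow z * tow z ≤ tow (z + 1) := by
  have h := two_le_tow z
  calc tow z * tow z = tow z ^ 2 := by ring
    _ ≤ tow z ^ tow z := Nat.pow_le_pow_right (by omega) h

theorem tow_strictMono : StrictMono tow := by
  refine strictMono_nat_of_lt_succ fun z => ?_
  have h := two_le_tow z
  have h2 := tow_sq_le z
  nlinarith

/-- An inverse of the tower function. -/
def towi (x : ℕ) : ℕ := Nat.findGreatest (fun y => tow y ≤ x) x

theorem towi_spec (x : ℕ) : (x < 2 ∨ tow (towi x) ≤ x) ∧ x < tow (towi x + 1) := by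
  refine ⟨?_, ?_⟩
  · rcases Nat.lt_or_ge x 2 with h | h
    · exact Or.inl h
    · exact Or.inr (Nat.findGreatest_spec (P := fun y => tow y ≤ x) (Nat.zero_le x) h)
  · by_contra hc
    rcases Nat.lt_or_ge x (towi x + 1) with h | h
    · have h1 := tow_strictMono.le_apply (x := towi x + 1)
      omega
    · exact Nat.findGreatest_is_greatest (P := fun y => tow y ≤ x) (Nat.lt_succ_self _) h
        (not_lt.1 hc)

/-- The operations under which the family is closed. -/
noncomputable def ops : Fm ⊕ ℕ ⊕ Fin 7 → List ℕ → ℕ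
  | .inl φ, l => sk φ (lenv 0 l)
  | .inr (.inl c), _ => c
  | .inr (.inr 0), l => l.getD 0 0 + l.getD 1 0
  | .inr (.inr 1), l => l.getD 0 0 * l.getD 1 0
  | .inr (.inr 2), l => l.getD 0 0 ^ l.getD 1 0
  | .inr (.inr 3), l => l.getD 0 0 - l.getD 1 0
  | .inr (.inr 4), l => G (l.getD 0 0)
  | .inr (.inr 5), l => tow (l.getD 0 0)
  | .inr (.inr 6), l => towi (l.getD 0 0)

/-- The countable family of functions. -/
def Fam : Set (ℕ → ℕ) := fam ops

theorem Fam.countable : Fam.Countable := countable_fam ops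
theorem Fam.id : (fun n => n) ∈ Fam := id_mem_fam ops
theorem Fam.const (c : ℕ) : (fun _ => c) ∈ Fam := appl_mem_fam ops (.inr (.inl c)) [] (by simp)
theorem Fam.add {f g : ℕ → ℕ} (hf : f ∈ Fam) (hg : g ∈ Fam) : (fun n => f n + g n) ∈ Fam :=
  appl_mem_fam ops (.inr (.inr 0)) [f, g] (by
    intro h hh
    simp only [List.mem_cons, List.not_mem_nil, or_false] at hh
    rcases hh with rfl | rfl <;> assumption)
theorem Fam.mul {f g : ℕ → ℕ} (hf : f ∈ Fam) (hg : g ∈ Fam) : (fun n => f n * g n) ∈ Fam :=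
  appl_mem_fam ops (.inr (.inr 1)) [f, g] (by
    intro h hh
    simp only [List.mem_cons, List.not_mem_nil, or_false] at hh
    rcases hh with rfl | rfl <;> assumption)
theorem Fam.pow {f g : ℕ → ℕ} (hf : f ∈ Fam) (hg : g ∈ Fam) : (fun n => f n ^ g n) ∈ Fam :=
  appl_mem_fam ops (.inr (.inr 2)) [f, g] (by
    intro h hh
    simp only [List.mem_cons, List.not_mem_nil, or_false] at hh
    rcases hh with rfl | rfl <;> assumption)
theorem Fam.sub {f g : ℕ → ℕ} (hf : f ∈ Fam) (hg : g ∈ Fam) : (fun n => f n - g n) ∈ Fam :=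
  appl_mem_fam ops (.inr (.inr 3)) [f, g] (by
    intro h hh
    simp only [List.mem_cons, List.not_mem_nil, or_false] at hh
    rcases hh with rfl | rfl <;> assumption)
theorem Fam.G {f : ℕ → ℕ} (hf : f ∈ Fam) : (fun n => G (f n)) ∈ Fam :=
  appl_mem_fam ops (.inr (.inr 4)) [f] (by
    intro h hh
    simp only [List.mem_cons, List.not_mem_nil, or_false] at hh
    rcases hh with rfl; assumption)

theorem Fam.tow {f : ℕ → ℕ} (hf : f ∈ Fam) : (fun n => tow (f n)) ∈ Fam :=
  appl_mem_fam ops (.inr (.inr 5)) [f] (by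
    intro h hh
    simp only [List.mem_cons, List.not_mem_nil, or_false] at hh
    rcases hh with rfl; assumption)
theorem Fam.towi {f : ℕ → ℕ} (hf : f ∈ Fam) : (fun n => towi (f n)) ∈ Fam :=
  appl_mem_fam ops (.inr (.inr 6)) [f] (by
    intro h hh
    simp only [List.mem_cons, List.not_mem_nil, or_false] at hh
    rcases hh with rfl; assumption)

theorem Fam.sk (φ : Fm) {g : ℕ → ℕ → ℕ} (hg : ∀ i, g i ∈ Fam) :
    (fun n => sk φ (fun i => g i n)) ∈ Fam := by
  have h := appl_mem_fam ops (.inl φ) ((List.range φ.bd).map g) (by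
    intro h hh
    obtain ⟨i, _, rfl⟩ := List.mem_map.1 hh
    exact hg i)
  have h2 : appl ops (.inl φ) ((List.range φ.bd).map g) = fun n => Cut.sk φ (fun i => g i n) := by
    funext n
    unfold appl
    show Cut.sk φ _ = _
    refine sk_congr φ _ _ fun i hi => ?_
    simp [lenv, hi]
  rw [h2] at h
  exact h

/-! ### the nonstandard structure -/

/-- The ultrapower of `ℕ`. -/
noncomputable abbrev Ns : Type := (hyperfilter ℕ : Filter ℕ).Germ ℕ

/-- The germ of a function. -/
noncomputable abbrev gm (f : ℕ → ℕ) : Ns := (f : Ns)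

/-- The ultrapower as a structure for the language of arithmetic. -/
@[reducible] noncomputable def NsA : Arith :=
  ⟨Ns, 0, 1, (· + ·), (· * ·), Germ.map₂ (· ^ ·), (· < ·)⟩

theorem gm_lt {f g : ℕ → ℕ} : gm f < gm g ↔ ∀ᶠ n in (hyperfilter ℕ : Filter ℕ), f n < g n :=
  Germ.coe_lt

theorem gm_le {f g : ℕ → ℕ} : gm f ≤ gm g ↔ ∀ᶠ n in (hyperfilter ℕ : Filter ℕ), f n ≤ g n :=
  Germ.coe_le

theorem gm_eq {f g : ℕ → ℕ} : gm f = gm g ↔ ∀ᶠ n in (hyperfilter ℕ : Filter ℕ), f n = g n :=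
  Germ.coe_eq

theorem val_gm (g : ℕ → ℕ → ℕ) (t : Tm) :
    t.val NsA (fun i => gm (g i)) = gm (fun n => t.val NatA (fun i => g i n)) := by
  induction t with
  | var i => rfl
  | zero => rfl
  | one => rfl
  | add s t ihs iht => simp only [Tm.val, ihs, iht]; rfl
  | mul s t ihs iht => simp only [Tm.val, ihs, iht]; rfl
  | pow s t ihs iht => simp only [Tm.val, ihs, iht]; rfl

/-- The countable elementary substructure. -/
def S0 : Set Ns := {x | ∃ f ∈ Fam, x = gm f}

theorem S0_countable : S0.Countable := by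
  have : S0 = gm '' Fam := by
    ext x; constructor
    · rintro ⟨f, hf, rfl⟩; exact ⟨f, hf, rfl⟩
    · rintro ⟨f, hf, rfl⟩; exact ⟨f, hf, rfl⟩
  rw [this]
  exact Fam.countable.image _

theorem gm_mem {f : ℕ → ℕ} (hf : f ∈ Fam) : gm f ∈ S0 := ⟨f, hf, rfl⟩

theorem S0_closed : Closed NsA S0 where
  zero := gm_mem (Fam.const 0)
  one := gm_mem (Fam.const 1)
  add := by
    rintro _ ⟨f, hf, rfl⟩ _ ⟨g, hg, rfl⟩
    exact gm_mem (Fam.add hf hg)
  mul := by
    rintro _ ⟨f, hf, rfl⟩ _ ⟨g, hg, rfl⟩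
    exact gm_mem (Fam.mul hf hg)
  pow := by
    rintro _ ⟨f, hf, rfl⟩ _ ⟨g, hg, rfl⟩
    exact gm_mem (Fam.pow hf hg)

theorem cons_gm (f : ℕ → ℕ) (g : ℕ → ℕ → ℕ) :
    cons (gm f) (fun i => gm (g i)) = fun i => gm (cons f g i) := by
  funext i; cases i <;> rfl

theorem cons_app (f : ℕ → ℕ) (g : ℕ → ℕ → ℕ) (n : ℕ) :
    (fun i => cons f g i n) = cons (f n) (fun i => g i n) := by
  funext i; cases i <;> rfl

theorem cons_Fam {f : ℕ → ℕ} {g : ℕ → ℕ → ℕ} (hf : f ∈ Fam) (hg : ∀ i, g i ∈ Fam) (i : ℕ) :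
    cons f g i ∈ Fam := by
  cases i with
  | zero => exact hf
  | succ i => exact hg i

/-- Łoś's theorem. -/
theorem los (φ : Fm) (g : ℕ → ℕ → ℕ) (hg : ∀ i, g i ∈ Fam) :
    φ.SatIn NsA S0 (fun i => gm (g i)) ↔
      ∀ᶠ n in (hyperfilter ℕ : Filter ℕ), φ.Sat NatA (fun i => g i n) := by
  induction φ generalizing g with
  | eq s t => simp only [Fm.SatIn, Fm.Sat, val_gm]; exact gm_eq
  | lt s t => simp only [Fm.SatIn, Fm.Sat, val_gm]; exact gm_lt
  | neg φ ih =>
    simp only [Fm.SatIn, Fm.Sat, ih g hg]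
    exact Ultrafilter.eventually_not.symm
  | and φ ψ ih1 ih2 =>
    simp only [Fm.SatIn, Fm.Sat, ih1 g hg, ih2 g hg]
    exact eventually_and.symm
  | ball t φ ih =>
    simp only [Fm.SatIn, Fm.Sat, val_gm]
    constructor
    · intro H
      by_contra hc
      rw [← Ultrafilter.eventually_not] at hc
      -- choose least counterexample
      let ψ : Fm := .and (.lt (.var 0) (t.ren (fun i => i + 1))) (.neg φ)
      have hψ : ∀ (x : ℕ) (e : ℕ → ℕ), ψ.Sat NatA (cons x e) ↔
          x < t.val NatA e ∧ ¬ φ.Sat NatA (cons x e) := by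
        intro x e
        simp only [ψ, Fm.Sat, Tm.val_ren]
        rfl
      have h1 := H (gm (fun n => sk ψ (fun i => g i n))) (gm_mem (Fam.sk ψ hg)) (by
        refine gm_lt.2 ?_
        filter_upwards [hc] with n hn
        push Not at hn
        obtain ⟨x, hx⟩ := hn
        exact ((hψ _ _).1 (sk_spec ⟨x, (hψ _ _).2 hx⟩)).1)
      rw [cons_gm, ih _ (cons_Fam (Fam.sk ψ hg) hg)] at h1
      obtain ⟨n, hn1, hn2⟩ := (hc.and h1).exists
      push Not at hn1
      obtain ⟨x, hx⟩ := hn1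
      rw [cons_app] at hn2
      exact ((hψ _ _).1 (sk_spec ⟨x, (hψ _ _).2 hx⟩)).2 hn2
    · rintro H _ ⟨f, hf, rfl⟩ hx
      rw [cons_gm, ih _ (cons_Fam hf hg)]
      filter_upwards [H, gm_lt.1 hx] with n hn1 hn2
      rw [cons_app]
      exact hn1 _ hn2
  | all φ ih =>
    simp only [Fm.SatIn, Fm.Sat]
    constructor
    · intro H
      by_contra hc
      rw [← Ultrafilter.eventually_not] at hc
      have h1 := H (gm (fun n => sk (.neg φ) (fun i => g i n))) (gm_mem (Fam.sk (.neg φ) hg))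
      rw [cons_gm, ih _ (cons_Fam (Fam.sk (.neg φ) hg) hg)] at h1
      obtain ⟨n, hn1, hn2⟩ := (hc.and h1).exists
      push Not at hn1
      rw [cons_app] at hn2
      exact (sk_spec (φ := .neg φ) hn1) hn2
    · rintro H _ ⟨f, hf, rfl⟩
      rw [cons_gm, ih _ (cons_Fam hf hg)]
      filter_upwards [H] with n hn1
      rw [cons_app]
      exact hn1 _
  | ex φ ih =>
    simp only [Fm.SatIn, Fm.Sat]
    constructor
    · rintro ⟨_, ⟨f, hf, rfl⟩, hx⟩
      rw [cons_gm, ih _ (cons_Fam hf hg)] at hx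
      filter_upwards [hx] with n hn1
      rw [cons_app] at hn1
      exact ⟨_, hn1⟩
    · intro H
      refine ⟨_, gm_mem (Fam.sk φ hg), ?_⟩
      rw [cons_gm, ih _ (cons_Fam (Fam.sk φ hg) hg)]
      filter_upwards [H] with n hn1
      rw [cons_app]
      exact sk_spec hn1

/-- Every assignment in `S0` has representatives. -/
theorem exists_rep (e : ℕ → Ns) (he : ∀ i, e i ∈ S0) :
    ∃ g : ℕ → ℕ → ℕ, (∀ i, g i ∈ Fam) ∧ e = fun i => gm (g i) := by
  choose g hg hg' using he
  exact ⟨g, hg, funext hg'⟩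

/-- The least number principle in `S0`. -/
theorem S0_least (φ : Fm) (e : ℕ → Ns) (he : ∀ i, e i ∈ S0) (b : Ns) (hb : b ∈ S0)
    (h : φ.SatIn NsA S0 (cons b e)) :
    ∃ c ∈ S0, φ.SatIn NsA S0 (cons c e) ∧ ∀ d ∈ S0, φ.SatIn NsA S0 (cons d e) → c ≤ d := by
  obtain ⟨g, hg, rfl⟩ := exists_rep e he
  have key : ∀ f ∈ Fam, (φ.SatIn NsA S0 (cons (gm f) fun i => gm (g i)) ↔
      ∀ᶠ n in (hyperfilter ℕ : Filter ℕ), φ.Sat NatA (cons (f n) (fun i => g i n))) := by
    intro f hf
    rw [cons_gm, los _ _ (cons_Fam hf hg)]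
    simp only [cons_app]
  obtain ⟨f, hf, rfl⟩ := hb
  refine ⟨_, gm_mem (Fam.sk φ hg), ?_, ?_⟩
  · rw [key _ (Fam.sk φ hg)]
    filter_upwards [(key f hf).1 h] with n hn
    exact sk_spec ⟨_, hn⟩
  · rintro _ ⟨d, hd, rfl⟩ h'
    rw [key _ hd] at h'
    refine gm_le.2 ?_
    filter_upwards [h'] with n hn
    exact sk_min hn

end Pool.Agent.Helper92.Cut
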