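import Pool.Agent.Helper92.Cut.Final

/-! Definability and non-definability of the cut. -/

namespace Pool.Agent.Helper92.Cut

open Filter

section

variable {P Q : ℕ → Ns → Ns → Prop} {Y : ℕ → Ns} {q : ℕ → ℕ}

/-- The matrix of the `Σ₃` definition, at `w' :: z' :: j :: w :: z :: i :: y :: e`. -/
def body (δG δ : Fm) : Fm :=
  .and (.neg (δG.ren (fun i => if i = 0 then 3 else if i = 1 then 4 else if i = 2 then 5
      else i + 4)))
    (.neg (.and (.neg (δG.ren (fun i => if i = 0 then 0 else if i = 1 then 1 else if i = 2 then 2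
      else i + 4))) (.and (.neg (.lt (.var 2) (.var 5)))
        (.neg (δ.ren (fun i => if i = 0 then 0 else if i = 1 then 6 else if i = 2 then 2
          else i + 4))))))

theorem isDelta0_body {δG δ : Fm} (h1 : δG.IsDelta0) (h2 : δ.IsDelta0) :
    (body δG δ).IsDelta0 :=
  ⟨Fm.isDelta0_ren _ _ h1, Fm.isDelta0_ren _ _ h1, trivial, Fm.isDelta0_ren _ _ h2⟩

theorem satIn_body (δG δ : Fm) (S : Set Ns) (w' z' j w z i y : Ns) (e : ℕ → Ns) :
    (body δG δ).SatIn NsA S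
      (cons w' (cons z' (cons j (cons w (cons z (cons i (cons y e))))))) ↔
    ¬ δG.SatIn NsA S (cons w (cons z (cons i e))) ∧
      (δG.SatIn NsA S (cons w' (cons z' (cons j e))) ∨ j < i ∨
        δ.SatIn NsA S (cons w' (cons y (cons j e)))) := by
  have h1 : (fun a => (cons w' (cons z' (cons j (cons w (cons z (cons i (cons y e))))))
      : ℕ → Ns) (if a = 0 then 3 else if a = 1 then 4 else if a = 2 then 5 else a + 4)) =
      cons w (cons z (cons i e)) := by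
    funext a; rcases a with _ | _ | _ | a <;> rfl
  have h2 : (fun a => (cons w' (cons z' (cons j (cons w (cons z (cons i (cons y e))))))
      : ℕ → Ns) (if a = 0 then 0 else if a = 1 then 1 else if a = 2 then 2 else a + 4)) =
      cons w' (cons z' (cons j e)) := by
    funext a; rcases a with _ | _ | _ | a <;> rfl
  have h3 : (fun a => (cons w' (cons z' (cons j (cons w (cons z (cons i (cons y e))))))
      : ℕ → Ns) (if a = 0 then 0 else if a = 1 then 6 else if a = 2 then 2 else a + 4)) =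
      cons w' (cons y (cons j e)) := by
    funext a; rcases a with _ | _ | _ | a <;> rfl
  unfold body
  simp only [Fm.SatIn, Fm.satIn_ren, h1, h2, h3, Tm.val]
  have h4 : (cons w' (cons z' (cons j (cons w (cons z (cons i (cons y e)))))) : ℕ → Ns) 2 = j :=
    rfl
  have h5 : (cons w' (cons z' (cons j (cons w (cons z (cons i (cons y e)))))) : ℕ → Ns) 5 = i :=
    rfl
  rw [h4, h5]
  tauto

/-- The six quantifiers in front of the matrix. -/
theorem Full.six (h : Full P Q Y q) (δG δ : Fm) (R : Ns → Ns → Prop)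
    (hG : ∀ z ∈ MM q, ∀ t ∈ MM q, ∀ e : ℕ → Ns, (∀ i, e i ∈ MM q) →
      ((∃ w ∈ MM q, δG.SatIn NsA (MM q) (cons w (cons z (cons t e)))) ↔ z < Gs t))
    (hR : ∀ z ∈ MM q, ∀ t ∈ MM q, ∀ e : ℕ → Ns, (∀ i, e i ∈ MM q) →
      ((∃ w ∈ MM q, δ.SatIn NsA (MM q) (cons w (cons z (cons t e)))) ↔ R z t))
    (y : Ns) (hy : y ∈ MM q) (e : ℕ → Ns) (he : ∀ i, e i ∈ MM q) :
    (∃ i ∈ MM q, ∃ z ∈ MM q, ∀ w ∈ MM q, ∀ j ∈ MM q, ∀ z' ∈ MM q, ∃ w' ∈ MM q,
      (body δG δ).SatIn NsA (MM q)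
        (cons w' (cons z' (cons j (cons w (cons z (cons i (cons y e)))))))) ↔
    ∃ i ∈ MM q, i ∈ II q ∧ ∀ j ∈ MM q, j ∈ II q → i ≤ j → R y j := by
  refine exists_congr fun i => and_congr_right fun hi => ?_
  have hb := fun w' z' j w z => satIn_body δG δ (MM q) w' z' j w z i y e
  have h0 : (0 : Ns) ∈ MM q := h.closed.zero
  constructor
  · rintro ⟨z, hz, H⟩
    refine ⟨(h.II_iff i hi.1).2 ⟨z, hz, ?_⟩, fun j hj hjI hij => ?_⟩
    · rw [← hG z hz i hi e he]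
      rintro ⟨w, hw, hw'⟩
      obtain ⟨w', _, h1⟩ := H w hw 0 h0 0 h0
      exact ((hb _ _ _ _ _).1 h1).1 hw'
    · rw [← hR y hy j hj e he]
      obtain ⟨z', hz', h1⟩ := (h.II_iff j hj.1).1 hjI
      rw [← hG z' hz' j hj e he] at h1
      obtain ⟨w', hw', h2⟩ := H 0 h0 j hj z' hz'
      rcases ((hb _ _ _ _ _).1 h2).2 with h2 | h2 | h2
      · exact absurd ⟨w', hw', h2⟩ h1
      · exact absurd h2 (not_lt.2 hij)
      · exact ⟨w', hw', h2⟩
  · rintro ⟨hiI, H⟩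
    obtain ⟨z, hz, h1⟩ := (h.II_iff i hi.1).1 hiI
    rw [← hG z hz i hi e he] at h1
    refine ⟨z, hz, fun w hw j hj z' hz' => ?_⟩
    have h2 : ¬ δG.SatIn NsA (MM q) (cons w (cons z (cons i e))) := fun h3 => h1 ⟨w, hw, h3⟩
    by_cases hji : j < i
    · exact ⟨0, h0, (hb _ _ _ _ _).2 ⟨h2, Or.inr (Or.inl hji)⟩⟩
    by_cases hjI : j ∈ II q
    · obtain ⟨w', hw', h3⟩ := (hR y hy j hj e he).2 (H j hj hjI (not_lt.1 hji))
      exact ⟨w', hw', (hb _ _ _ _ _).2 ⟨h2, Or.inr (Or.inr h3)⟩⟩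
    · have h3 : z' < Gs j := by
        by_contra h3
        exact hjI ((h.II_iff j hj.1).2 ⟨z', hz', h3⟩)
      obtain ⟨w', hw', h4⟩ := (hG z' hz' j hj e he).2 h3
      exact ⟨w', hw', (hb _ _ _ _ _).2 ⟨h2, Or.inl h4⟩⟩

/-- The cut as a subset of the model. -/
def Full.J (h : Full P Q Y q) : Set h.model.D := {y | y.1 ∈ JJ q}

theorem coe_cons {S : Set Ns} {hS : Closed NsA S} (x : (NsA.sub S hS).D)
    (e : ℕ → (NsA.sub S hS).D) :
    (fun i => (cons x e i).1) = cons x.1 (fun i => (e i).1) := by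
  funext i; rcases i with _ | i <;> rfl

theorem Full.sigma3 (h : Full P Q Y q) : DefinableBy h.model (IsSigma 3) h.J := by
  obtain ⟨δG, hδG, hG⟩ := h.lift_G
  obtain ⟨δ, hδ, hR⟩ := h.lift_lt
  refine ⟨Fm.ex (Fm.ex (Fm.all (Fm.all (Fm.all (Fm.ex (body δG δ)))))),
    ⟨2, Fm.all (Fm.all (Fm.all (Fm.ex (body δG δ)))), ⟨3, Fm.ex (body δG δ),
      ⟨1, body δG δ, isDelta0_body hδG hδ, rfl⟩, rfl⟩, rfl⟩, fun _ => h.model.zero, fun y => ?_⟩
  rw [sat_sub, coe_cons]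
  exact (h.JJ_iff y.1 y.2.1).trans
    (h.six δG δ (fun z t => z < Ts (evs t)) hG hR y.1 y.2 _ (fun _ => h.closed.zero)).symm

theorem Full.pi3 (h : Full P Q Y q) : DefinableBy h.model (IsPi 3) h.J := by
  obtain ⟨δG, hδG, hG⟩ := h.lift_G
  obtain ⟨δ, hδ, hR⟩ := h.lift_le
  refine ⟨Fm.all (Fm.all (Fm.ex (Fm.ex (Fm.ex (Fm.all (Fm.neg (body δG δ))))))),
    ⟨2, Fm.ex (Fm.ex (Fm.ex (Fm.all (Fm.neg (body δG δ))))), ⟨3, Fm.all (Fm.neg (body δG δ)),
      ⟨1, Fm.neg (body δG δ), isDelta0_body hδG hδ, rfl⟩, rfl⟩, rfl⟩,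
      fun _ => h.model.zero, fun y => ?_⟩
  rw [sat_sub, coe_cons]
  have h1 := (h.notJJ_iff y.1 y.2.1).trans
    (h.six δG δ (fun z t => Ts (evs t) ≤ z) hG hR y.1 y.2 (fun _ => (h.model.zero).1)
      (fun _ => h.closed.zero)).symm
  have h2 := not_congr h1
  rw [not_not] at h2
  refine h2.trans ?_
  simp only [Fm.SatIn]
  push Not
  rfl

theorem Full.isCut (h : Full P Q Y q) : IsCut h.model h.J := by
  refine ⟨?_, ?_, ?_, ?_⟩
  · refine ⟨h.model.zero, 0, ?_⟩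
    exact gm_lt (f := fun _ => 0).2 (Eventually.of_forall fun n =>
      lt_of_lt_of_le (by norm_num) (two_le_tow (ev (q 0) * 2 ^ (n - 0))))
  · intro hJ
    have h1 : (⟨Ts (vg 1 0), h.Ts_MM h.vtop_mem⟩ : h.model.D) ∈ h.J := by rw [hJ]; trivial
    obtain ⟨k, hk⟩ := h1
    have h2 := h.dig.v_lt k 0
    rw [h.dig.1, ev_zero] at h2
    exact lt_asymm hk (Ts_strictMono h2)
  · rintro x y hxy ⟨k, hk⟩
    exact ⟨k, lt_trans (a := x.1) hxy hk⟩
  · rintro ⟨x, ⟨f, hf, rfl⟩, hx⟩ ⟨k, hk⟩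
    obtain ⟨k', _, hk'⟩ := h.gen_v k
    refine ⟨k', lt_of_le_of_lt ?_ (Ts_strictMono hk')⟩
    exact gm_le (f := fun n => f n + 1).2 ((gm_lt.1 hk).mono fun n hn => hn)

/-- The cut is closed under operations bounded by one step of the tower function. -/
theorem Full.J_step (h : Full P Q Y q) {f g r : ℕ → ℕ} (hf : gm f ∈ JJ q) (hg : gm g ∈ JJ q)
    (hr : ∀ n z, f n < tow z → g n < tow z → r n < tow (z + 1)) : gm r ∈ JJ q := by
  obtain ⟨k1, hk1⟩ := hf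
  obtain ⟨k2, hk2⟩ := hg
  have h1 := hk1.trans_le (Ts_strictMono.monotone (h.dig.v_mono (le_max_left k1 k2)))
  have h2 := hk2.trans_le (Ts_strictMono.monotone (h.dig.v_mono (le_max_right k1 k2)))
  obtain ⟨k', _, hk'⟩ := h.gen_v (max k1 k2)
  refine ⟨k', gm_lt.2 ?_⟩
  filter_upwards [gm_lt.1 h1, gm_lt.1 h2, gm_lt.1 hk'] with n hn1 hn2 hn3
  exact (hr n _ hn1 hn2).trans_le (tow_strictMono.monotone hn3)

theorem Full.J_closed (h : Full P Q Y q) : ∀ x ∈ h.J, ∀ y ∈ h.J,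
    h.model.add x y ∈ h.J ∧ h.model.mul x y ∈ h.J ∧ h.model.pow x y ∈ h.J := by
  rintro ⟨x, ⟨f, hf, rfl⟩, hx⟩ hxJ ⟨y, ⟨g, hg, rfl⟩, hy⟩ hyJ
  refine ⟨h.J_step (r := fun n => f n + g n) hxJ hyJ fun n z h1 h2 => ?_,
    h.J_step (r := fun n => f n * g n) hxJ hyJ fun n z h1 h2 => ?_,
    h.J_step (r := fun n => f n ^ g n) hxJ hyJ fun n z h1 h2 => ?_⟩
  · have h3 := two_le_tow z
    have h4 := tow_sq_le z
    nlinarith
  · have h4 := tow_sq_le z
    nlinarith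
  · have h3 := two_le_tow z
    calc f n ^ g n < tow z ^ tow z := by
          rcases Nat.eq_zero_or_pos (g n) with h0 | h0
          · rw [h0, pow_zero]
            exact Nat.one_lt_pow (by omega) (by omega)
          · calc f n ^ g n < tow z ^ g n := Nat.pow_lt_pow_left h1 (by omega)
              _ ≤ tow z ^ tow z := Nat.pow_le_pow_right (by omega) h2.le
      _ = tow (z + 1) := rfl

/-! ### the diagonalisation -/

/-- The basic predicates to be met. -/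
def Pred (k : ℕ) (ψ : Fm) (l : List Ns) (j y : Ns) : Prop :=
  y ∈ S0 ∧ y ≤ Ts (vg 1 0) ∧ ∃ u : List Ns, u.length = k ∧ (∀ x ∈ u, x ∈ S0 ∧ x ≤ Gs j) ∧
    ψ.SatIn NsA S0 (push u (cons y (lenv 0 l)))

theorem push_congr {D : Type} (n : ℕ) (u : List D) (e e' : ℕ → D) (h : ∀ i < n, e i = e' i) :
    ∀ i < n, push u e i = push u e' i := by
  induction u generalizing e e' with
  | nil => exact h
  | cons x u ih => exact ih _ _ (cons_congr n x e e' h)

theorem satIn_trunc (ψ : Fm) (u : List Ns) (y : Ns) (e : ℕ → Ns) :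
    ψ.SatIn NsA S0 (push u (cons y (lenv 0 ((List.range ψ.bd).map e)))) ↔
      ψ.SatIn NsA S0 (push u (cons y e)) := by
  refine Fm.satIn_congr NsA S0 ψ _ _ (push_congr _ u _ _ (cons_congr _ y _ _ ?_))
  intro i hi
  simp [lenv, hi]

/-- The indices of the requirements. -/
abbrev Idx : Type := ℕ × Fm × List S0

/-- The predicate attached to an index. -/
def idxPred (a : Idx) : Ns → Ns → Prop := Pred a.1 a.2.1 (a.2.2.map Subtype.val)

theorem exists_idx (k : ℕ) (ψ : Fm) (e : ℕ → Ns) (he : ∀ i, e i ∈ S0) :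
    ∃ a : Idx, ∀ j y, idxPred a j y ↔ (y ∈ S0 ∧ y ≤ Ts (vg 1 0) ∧ ∃ u : List Ns,
      u.length = k ∧ (∀ x ∈ u, x ∈ S0 ∧ x ≤ Gs j) ∧
      ψ.SatIn NsA S0 (push u (cons y e))) := by
  refine ⟨⟨k, ψ, (List.range ψ.bd).map fun i => ⟨e i, he i⟩⟩, fun j y => ?_⟩
  unfold idxPred Pred
  have h1 : ((List.range ψ.bd).map fun i => (⟨e i, he i⟩ : S0)).map Subtype.val =
      (List.range ψ.bd).map e := by
    rw [List.map_map]; rfl
  rw [h1]
  refine and_congr_right fun _ => and_congr_right fun _ => exists_congr fun u =>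
    and_congr_right fun _ => and_congr_right fun _ => ?_
  exact satIn_trunc ψ u y e

/-- The requirement against `Σ₂` definitions. -/
def reqS (a : Idx) (j y : Ns) : Prop := ∃ x, Ts y ≤ x ∧ idxPred a j x

/-- The requirement against `Π₂` definitions. -/
def reqR (a : Idx) (j y : Ns) : Prop := ∃ x, x < Ts (y + 1) ∧ idxPred a j x

theorem Full.not_sigma2 (h : Full P Q Y q) (hP : ∀ a : Idx, ∃ i, P i = reqS a) :
    ¬ DefinableBy h.model (IsSigma 2) h.J := by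
  rintro ⟨φ, hφ, e, H⟩
  obtain ⟨K, m, δ, hδ, rfl⟩ := isSigma2 hφ
  simp only [sat_sub, coe_cons] at H
  have he : ∀ i, (fun i => (e i).1 : ℕ → Ns) i ∈ MM q := fun i => (e i).2
  generalize (fun i => (e i).1 : ℕ → Ns) = e' at H he
  have H' : ∀ y ∈ MM q, (y ∈ JJ q ↔ ∃ u : List Ns, u.length = K ∧ (∀ x ∈ u, x ∈ MM q) ∧
      (Fm.all^[m] δ).SatIn NsA S0 (push u (cons y e'))) := fun y hy =>
    (H ⟨y, hy⟩).trans (h.sigma2 K m δ hδ _ (cons_mem _ _ _ hy he))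
  obtain ⟨a, ha⟩ := exists_idx K (Fm.all^[m] δ) e' (fun i => (he i).1)
  obtain ⟨i, hi⟩ := hP a
  obtain ⟨k, ⟨⟨y, hy1, hy2⟩, hk⟩ | ⟨hno, hk⟩⟩ := h.reqP i
  · rw [hi] at hy2
    obtain ⟨x, hyx, hx⟩ := hy2
    rw [ha] at hx
    obtain ⟨hxS, hxtop, u, hu, huS, hs⟩ := hx
    have hxM : x ∈ MM q := ⟨hxS, (h.Ts_MM h.vtop_mem).2.mono hxtop⟩
    have htm : tmid q k = tg (q (k + 1)) (k + 1) := by rw [hk]; rfl
    have hxJ : x ∈ JJ q := (H' x hxM).2
      ⟨u, hu, fun x hx => ⟨(huS x hx).1, k + 1, by rw [← htm]; exact (huS x hx).2⟩, hs⟩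
    obtain ⟨k', hk'⟩ := hxJ
    have h2 := h.dig.v_lt k' (k + 1)
    have h3 : ev (q (k + 1)) = 2 * ev (q k) := by rw [hk]; exact ev_four _ 2 (by norm_num)
    rw [h3] at h2
    have h4 := Ts_strictMono.lt_iff_lt.1 (hyx.trans_lt hk')
    exact absurd (h4.trans h2) (not_lt.2 hy1)
  · have h3 : ev (q (k + 1)) = 2 * ev (q k) + 1 := by
      rw [hk]; exact ev_four _ 1 (by norm_num)
    have h4 : vmid q k = vg (ev (q (k + 1))) (k + 1) := by rw [h3]; rfl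
    have hM : Ts (vmid q k) ∈ MM q := by rw [h4]; exact h.Ts_MM (h.v_mem _)
    have hJ : Ts (vmid q k) ∈ JJ q := by
      obtain ⟨k', _, hk'⟩ := h.gen_v (k + 1)
      rw [h4]; exact ⟨k', Ts_strictMono hk'⟩
    obtain ⟨u, hu, huM, hs⟩ := (H' _ hM).1 hJ
    refine hno ⟨_, le_rfl, ?_⟩
    rw [hi]
    refine ⟨_, le_rfl, ?_⟩
    rw [ha]
    refine ⟨hM.1, ?_, u, hu, fun x hx => ⟨(huM x hx).1, ?_⟩, hs⟩
    · rw [h4]
      exact Ts_strictMono.monotone ((vg_le (Nat.le_succ _)).trans (h.u_le_top (k + 1)))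
    · obtain ⟨k', hk'⟩ := (huM x hx).2
      refine hk'.trans (Gs_mono ?_)
      have := (h.dig.t_lt k' (k + 1)).le
      rw [hk] at this
      exact this

theorem Full.not_pi2 (h : Full P Q Y q) (hQ : ∀ a : Idx, ∃ i, Q i = reqR a) :
    ¬ DefinableBy h.model (IsPi 2) h.J := by
  rintro ⟨φ, hφ, e, H⟩
  obtain ⟨K, m, δ, hδ, rfl⟩ := isPi2 hφ
  simp only [sat_sub, coe_cons] at H
  have he : ∀ i, (fun i => (e i).1 : ℕ → Ns) i ∈ MM q := fun i => (e i).2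
  generalize (fun i => (e i).1 : ℕ → Ns) = e' at H he
  have H' : ∀ y ∈ MM q, (y ∉ JJ q ↔ ∃ u : List Ns, u.length = K ∧ (∀ x ∈ u, x ∈ MM q) ∧
      (Fm.neg (Fm.ex^[m] δ)).SatIn NsA S0 (push u (cons y e'))) := fun y hy =>
    (not_congr (H ⟨y, hy⟩)).trans (h.pi2 K m δ hδ _ (cons_mem _ _ _ hy he))
  obtain ⟨a, ha⟩ := exists_idx K (Fm.neg (Fm.ex^[m] δ)) e' (fun i => (he i).1)
  obtain ⟨i, hi⟩ := hQ a
  have hsucc : ∀ y z : Ns, y < z → y + 1 ≤ z := by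
    intro y z
    induction y using Germ.inductionOn with
    | h f =>
      induction z using Germ.inductionOn with
      | h g =>
        intro hyz
        exact gm_le (f := fun n => f n + 1).2 ((gm_lt.1 hyz).mono fun n hn => hn)
  obtain ⟨k, ⟨⟨y, hy1, hy2⟩, hk⟩ | ⟨hno, hk⟩⟩ := h.reqQ i
  · rw [hi] at hy2
    obtain ⟨x, hyx, hx⟩ := hy2
    rw [ha] at hx
    obtain ⟨hxS, hxtop, u, hu, huS, hs⟩ := hx
    have hxM : x ∈ MM q := ⟨hxS, (h.Ts_MM h.vtop_mem).2.mono hxtop⟩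
    have h3 : ev (q (k + 1)) = 2 * ev (q k) + 1 := by
      rw [hk]; exact ev_four _ 3 (by norm_num)
    have hxJ : x ∈ JJ q := by
      refine ⟨k + 1, hyx.trans_le (Ts_strictMono.monotone ?_)⟩
      rw [h3]
      exact hsucc _ _ hy1
    refine (H' x hxM).2 ⟨u, hu, fun x hx => ⟨(huS x hx).1, k + 1, ?_⟩, hs⟩ hxJ
    refine (huS x hx).2.trans (Gs_mono ?_)
    rw [hk]
    exact tg_le (by omega)
  · have h3 : ev (q (k + 1)) = 2 * ev (q k) := by
      rw [hk]; exact ev_four _ 0 (by norm_num)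
    have h4 : vmid q k = vg (ev (q (k + 1)) + 1) (k + 1) := by rw [h3]; rfl
    obtain ⟨k', _, hk'⟩ := h.gen_u (k + 1)
    rw [← h4] at hk'
    have hM := h.Ts_MM (h.u_mem k')
    have hJ : Ts (vg (ev (q k') + 1) k') ∉ JJ q := by
      rintro ⟨k'', hk''⟩
      exact lt_asymm hk'' (Ts_strictMono (h.dig.v_lt k'' k'))
    obtain ⟨u, hu, huM, hs⟩ := (H' _ hM).1 hJ
    refine hno ⟨_, hk', ?_⟩
    rw [hi]
    refine ⟨_, Ts_strictMono (lt_add_one _), ?_⟩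
    rw [ha]
    refine ⟨hM.1, Ts_strictMono.monotone (h.u_le_top k'), u, hu,
      fun x hx => ⟨(huM x hx).1, ?_⟩, hs⟩
    obtain ⟨k'', hk''⟩ := (huM x hx).2
    refine hk''.trans (Gs_mono ?_)
    have := (h.dig.t_lt k'' (k + 1)).le
    rw [hk] at this
    exact this.trans (tg_le (by omega))

end

/-- Existence of the generic sequence. -/
theorem exists_full : ∃ (P Q : ℕ → Ns → Ns → Prop) (Y : ℕ → Ns) (q : ℕ → ℕ),
    Full P Q Y q ∧ (∀ a : Idx, ∃ i, P i = reqS a) ∧ (∀ a : Idx, ∃ i, Q i = reqR a) := by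
  have : Countable S0 := S0_countable.to_subtype
  have : Nonempty S0 := ⟨⟨_, S0_closed.zero⟩⟩
  have : Nonempty Idx := ⟨(0, Fm.eq .zero .zero, [])⟩
  obtain ⟨f, hf⟩ := exists_surjective_nat Idx
  obtain ⟨g, hg⟩ := exists_surjective_nat S0
  refine ⟨fun i => reqS (f i), fun i => reqR (f i), fun i => (g i).1,
    gq (fun i => reqS (f i)) (fun i => reqR (f i)) (fun i => (g i).1),
    ⟨gq_generic _ _ _, fun y hy => ?_⟩, fun a => ?_, fun a => ?_⟩
  · obtain ⟨i, hi⟩ := hg ⟨y, hy⟩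
    exact ⟨i, by rw [hi]⟩
  · obtain ⟨i, hi⟩ := hf a
    exact ⟨i, congrArg reqS hi⟩
  · obtain ⟨i, hi⟩ := hf a
    exact ⟨i, congrArg reqR hi⟩

theorem main : ∃ M : Arith, PAminus M ∧ Bounding M (IsSigma 2) ∧ ¬ Induction M (IsSigma 2) ∧
    ∃ J : Set M.D, IsCut M J ∧
      (∀ x ∈ J, ∀ y ∈ J, M.add x y ∈ J ∧ M.mul x y ∈ J ∧ M.pow x y ∈ J) ∧
      DefinableBy M (IsSigma 3) J ∧ DefinableBy M (IsPi 3) J ∧
      ¬ DefinableBy M (IsSigma 2) J ∧ ¬ DefinableBy M (IsPi 2) J := by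
  obtain ⟨P, Q, Y, q, h, hP, hQ⟩ := exists_full
  exact ⟨h.model, h.paminus, h.bounding, h.not_induction, h.J, h.isCut, h.J_closed, h.sigma3,
    h.pi3, h.not_sigma2 hP, h.not_pi2 hQ⟩

end Pool.Agent.Helper92.Cut
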